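import Pool.Agent.Helper570.Twist
import Mathlib.Analysis.InnerProductSpace.l2Space

set_option autoImplicit false

namespace Pool.Agent.Helper570.Tree

open Set Filter Topology

/-- weights -/
noncomputable def wt (d : Dt) : ℝ := (1 / 2) ^ (Encodable.encode d)

theorem wt_pos (d : Dt) : 0 < wt d := by unfold wt; positivity

theorem wt_le_one (d : Dt) : wt d ≤ 1 := pow_le_one₀ (by norm_num) (by norm_num)

theorem summable_wt : Summable wt :=
  (summable_geometric_of_lt_one (by norm_num : (0 : ℝ) ≤ 1 / 2) (by norm_num)).comp_injective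
    Encodable.encode_injective

abbrev HD : Type := lp (fun _ : Dt => ℝ) 2

theorem mem_J (x : Y) : Memℓp (fun d : Dt => wt d * eP (.ct d) x) 2 := by
  apply memℓp_gen
  simp only [ENNReal.toReal_ofNat]
  have h : Summable fun d => ‖x‖ ^ 2 * wt d := summable_wt.mul_left _
  refine Summable.of_nonneg_of_le (fun d => by positivity) (fun d => ?_) h
  have h1 : ‖wt d * eP (.ct d) x‖ ≤ wt d * ‖x‖ := by
    rw [norm_mul, Real.norm_of_nonneg (wt_pos d).le]
    exact mul_le_mul_of_nonneg_left (abs_eP_le _ _) (wt_pos d).le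
  have h2 : ‖wt d * eP (.ct d) x‖ ^ (2 : ℝ) ≤ (wt d * ‖x‖) ^ 2 := by
    rw [Real.rpow_two]
    exact pow_le_pow_left₀ (norm_nonneg _) h1 2
  refine h2.trans ?_
  have h3 := wt_pos d
  have h4 := wt_le_one d
  have h5 : wt d ^ 2 ≤ wt d := by nlinarith
  have h6 := sq_nonneg ‖x‖
  nlinarith

noncomputable def JD : Y →ₗ[ℝ] HD where
  toFun x := ⟨fun d => wt d * eP (.ct d) x, mem_J x⟩
  map_add' x y := by
    apply lp.ext
    funext d
    show wt d * eP (.ct d) (x + y) = wt d * eP (.ct d) x + wt d * eP (.ct d) y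
    rw [eP_add]; ring
  map_smul' r x := by
    apply lp.ext
    funext d
    show wt d * eP (.ct d) (r • x) = r * (wt d * eP (.ct d) x)
    rw [eP_smul]; ring

theorem JD_apply (x : Y) (d : Dt) : (JD x : ∀ _ : Dt, ℝ) d = wt d * eP (.ct d) x := rfl

theorem JD_inj {x : Y} (h : JD x = 0) : x = 0 := by
  apply Y_inj
  intro d
  have h1 : (JD x : ∀ _ : Dt, ℝ) d = 0 := by rw [h]; rfl
  rw [JD_apply] at h1
  rcases mul_eq_zero.1 h1 with h2 | h2
  · exact absurd h2 (wt_pos d).ne'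
  · exact h2

theorem norm_JD_le : ∃ K : ℝ, 0 < K ∧ ∀ x, ‖JD x‖ ≤ K * ‖x‖ := by
  set T : ℝ := ∑' d, wt d with hT
  have hT0 : 0 ≤ T := tsum_nonneg fun d => (wt_pos d).le
  refine ⟨1 + T, by linarith, fun x => ?_⟩
  apply lp.norm_le_of_forall_sum_le (by norm_num) (by positivity)
  intro s
  simp only [ENNReal.toReal_ofNat, Real.rpow_two]
  have h1 : ∀ d ∈ s, ‖(JD x : ∀ _ : Dt, ℝ) d‖ ^ 2 ≤ ‖x‖ ^ 2 * wt d := by
    intro d _
    rw [JD_apply, norm_mul, Real.norm_of_nonneg (wt_pos d).le]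
    have h1 : wt d * ‖eP (.ct d) x‖ ≤ wt d * ‖x‖ :=
      mul_le_mul_of_nonneg_left (abs_eP_le _ _) (wt_pos d).le
    have h2 : (wt d * ‖eP (.ct d) x‖) ^ 2 ≤ (wt d * ‖x‖) ^ 2 :=
      pow_le_pow_left₀ (mul_nonneg (wt_pos d).le (norm_nonneg _)) h1 2
    have h3 := wt_pos d
    have h4 := wt_le_one d
    have h5 : wt d ^ 2 ≤ wt d := by nlinarith
    have h6 := sq_nonneg ‖x‖
    nlinarith
  refine (Finset.sum_le_sum h1).trans ?_
  rw [← Finset.mul_sum]
  have h2 : ∑ d ∈ s, wt d ≤ T := summable_wt.sum_le_tsum s fun d _ => (wt_pos d).le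
  have h3 := sq_nonneg ‖x‖
  have h4 : ((1 + T) * ‖x‖) ^ 2 = ‖x‖ ^ 2 * (1 + T) ^ 2 := by ring
  rw [h4]
  apply mul_le_mul_of_nonneg_left _ h3
  nlinarith

/-- the strictly convex norm -/
noncomputable def rot : Seminorm ℝ Y := normSeminorm ℝ Y + (normSeminorm ℝ HD).comp JD

theorem rot_apply (x : Y) : rot x = ‖x‖ + ‖JD x‖ := rfl

theorem rot_equiv : ∃ c C : ℝ, 0 < c ∧ 0 < C ∧ ∀ x : Y, c * ‖x‖ ≤ rot x ∧ rot x ≤ C * ‖x‖ := by
  obtain ⟨K, hK, h⟩ := norm_JD_le
  refine ⟨1, 1 + K, one_pos, by linarith, fun x => ⟨?_, ?_⟩⟩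
  · rw [rot_apply, one_mul]
    have := norm_nonneg (JD x)
    linarith
  · rw [rot_apply]
    have := h x
    linarith

theorem rot_strict (x y : Y) (hx : rot x = 1) (hy : rot y = 1) (hne : x ≠ y) :
    rot (x + y) < 2 := by
  rw [rot_apply] at *
  have h1 := norm_add_le x y
  have h2 : ‖JD (x + y)‖ ≤ ‖JD x‖ + ‖JD y‖ := by rw [map_add]; exact norm_add_le _ _
  rcases h2.eq_or_lt with h3 | h3
  · exfalso
    rw [map_add] at h3
    have h4 : SameRay ℝ (JD x) (JD y) := sameRay_iff_norm_add.2 h3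
    rcases h4 with h5 | h5 | ⟨r1, r2, hr1, hr2, h5⟩
    · have := JD_inj h5
      rw [this] at hx
      simp at hx
    · have := JD_inj h5
      rw [this] at hy
      simp at hy
    · have h6 : r1 • x = r2 • y := by
        rw [← sub_eq_zero]
        apply JD_inj
        rw [map_sub, map_smul, map_smul, h5, sub_self]
      have h7 : r1 = r2 := by
        have e1 : rot (r1 • x) = r1 := by
          rw [map_smul_eq_mul, rot_apply, hx, mul_one, Real.norm_of_nonneg hr1.le]
        have e2 : rot (r2 • y) = r2 := by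
          rw [map_smul_eq_mul, rot_apply, hy, mul_one, Real.norm_of_nonneg hr2.le]
        rw [← e1, ← e2, h6]
      rw [h7] at h6
      exact hne (smul_right_injective Y hr2.ne' h6)
  · linarith

end Pool.Agent.Helper570.Tree
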