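import Pool.Agent.Helper570.Space

set_option autoImplicit false

namespace Pool.Agent.Helper570.Tree

open Set Filter Topology

open Classical in
/-- Multiplication by the indicator of `A`. -/
noncomputable def indB (A : Set Node) : B →L[ℝ] B :=
  LinearMap.mkContinuous
    { toFun := fun f => BoundedContinuousFunction.ofNormedAddCommGroupDiscrete
        (fun s => if s ∈ A then f s else 0) ‖f‖ (by
          intro s
          split_ifs
          · exact f.norm_coe_le_norm s
          · simp)
      map_add' := by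
        intro f g
        ext s
        simp only [BoundedContinuousFunction.coe_ofNormedAddCommGroupDiscrete,
          BoundedContinuousFunction.coe_add, Pi.add_apply]
        split_ifs <;> simp
      map_smul' := by
        intro c f
        ext s
        simp only [BoundedContinuousFunction.coe_ofNormedAddCommGroupDiscrete,
          BoundedContinuousFunction.coe_smul, RingHom.id_apply]
        split_ifs <;> simp }
    1 (by
      intro f
      rw [one_mul]
      refine (BoundedContinuousFunction.norm_le (norm_nonneg _)).2 fun s => ?_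
      simp only [LinearMap.coe_mk, AddHom.coe_mk,
        BoundedContinuousFunction.coe_ofNormedAddCommGroupDiscrete]
      split_ifs
      · exact f.norm_coe_le_norm s
      · simp)

open Classical in
theorem indB_apply (A : Set Node) (f : B) (s : Node) :
    indB A f s = if s ∈ A then f s else 0 := rfl

theorem indB_mem {A : Set Node} {f : B} {s : Node} (h : s ∈ A) : indB A f s = f s := by
  rw [indB_apply, if_pos h]

theorem indB_not {A : Set Node} {f : B} {s : Node} (h : s ∉ A) : indB A f s = 0 := by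
  rw [indB_apply, if_neg h]

theorem B_norm_le {f : B} {C : ℝ} (hC : 0 ≤ C) (h : ∀ s, |f s| ≤ C) : ‖f‖ ≤ C :=
  (BoundedContinuousFunction.norm_le hC).2 h

theorem abs_B_le (f : B) (s : Node) : |f s| ≤ ‖f‖ := f.norm_coe_le_norm s

theorem B_add_apply (f g : B) (s : Node) : (f + g) s = f s + g s := rfl
theorem B_sub_apply (f g : B) (s : Node) : (f - g) s = f s - g s := rfl
theorem B_smul_apply (c : ℝ) (f : B) (s : Node) : (c • f) s = c * f s := rfl

theorem indB_indB (A A' : Set Node) (f : B) : indB A (indB A' f) = indB (A ∩ A') f := by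
  ext s
  by_cases h : s ∈ A
  · by_cases h' : s ∈ A'
    · rw [indB_mem h, indB_mem h', indB_mem (show s ∈ A ∩ A' from ⟨h, h'⟩)]
    · rw [indB_mem h, indB_not h', indB_not (fun h1 : s ∈ A ∩ A' => h' h1.2)]
  · rw [indB_not h, indB_not (fun h1 : s ∈ A ∩ A' => h h1.1)]

theorem indB_add {A A' : Set Node} (hd : Disjoint A A') (f : B) :
    indB (A ∪ A') f = indB A f + indB A' f := by
  ext s
  rw [B_add_apply]
  by_cases h : s ∈ A
  · have h' : s ∉ A' := fun h' => Set.disjoint_left.1 hd h h'
    rw [indB_mem h, indB_not h', indB_mem (Or.inl h), add_zero]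
  · by_cases h' : s ∈ A'
    · rw [indB_not h, indB_mem h', indB_mem (Or.inr h'), zero_add]
    · rw [indB_not h, indB_not h', indB_not (fun h1 => h1.elim h h'), zero_add]

/-- Additivity of the variation. -/
theorem norm_add_norm_le (lam : B →L[ℝ] ℝ) {A A' : Set Node} (hd : Disjoint A A') :
    ‖lam.comp (indB A)‖ + ‖lam.comp (indB A')‖ ≤ ‖lam.comp (indB (A ∪ A'))‖ := by
  have key : ∀ (A : Set Node) (r : ℝ), r < ‖lam.comp (indB A)‖ →
      ∃ f : B, ‖f‖ ≤ 1 ∧ r < lam (indB A f) := by
    intro A r hr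
    obtain ⟨f, hf1, hf2⟩ := (lam.comp (indB A)).exists_lt_apply_of_lt_opNorm hr
    rcases le_total 0 (lam (indB A f)) with h | h
    · refine ⟨f, hf1.le, ?_⟩
      rwa [ContinuousLinearMap.comp_apply, Real.norm_of_nonneg h] at hf2
    · refine ⟨-f, by rw [norm_neg]; exact hf1.le, ?_⟩
      rw [ContinuousLinearMap.comp_apply, Real.norm_of_nonpos h] at hf2
      rwa [map_neg, map_neg]
  apply le_of_forall_pos_le_add
  intro ε hε
  obtain ⟨f, hf1, hf2⟩ := key A (‖lam.comp (indB A)‖ - ε / 2) (by linarith)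
  obtain ⟨g, hg1, hg2⟩ := key A' (‖lam.comp (indB A')‖ - ε / 2) (by linarith)
  have h1 : indB (A ∪ A') (indB A f + indB A' g) = indB A f + indB A' g := by
    rw [map_add, indB_indB, indB_indB]
    congr 2
    · congr 1; exact Set.inter_eq_right.2 Set.subset_union_left
    · congr 1; exact Set.inter_eq_right.2 Set.subset_union_right
  have h2 : ‖indB A f + indB A' g‖ ≤ 1 := by
    apply B_norm_le zero_le_one
    intro s
    rw [B_add_apply]
    by_cases h : s ∈ A
    · have h' : s ∉ A' := fun h' => Set.disjoint_left.1 hd h h'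
      rw [indB_mem h, indB_not h', add_zero]
      exact (abs_B_le f s).trans hf1
    · rw [indB_not h, zero_add]
      by_cases h' : s ∈ A'
      · rw [indB_mem h']; exact (abs_B_le g s).trans hg1
      · rw [indB_not h']; simp
  have h3 : lam (indB A f) + lam (indB A' g) ≤ ‖lam.comp (indB (A ∪ A'))‖ := by
    rw [← map_add, ← h1]
    refine (le_abs_self _).trans (((lam.comp (indB (A ∪ A'))).le_opNorm _).trans ?_)
    exact mul_le_of_le_one_right (norm_nonneg _) h2
  linarith

/-- The closed span of the evaluations. -/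
noncomputable def DD : Submodule ℝ (X →L[ℝ] ℝ) :=
  (Submodule.span ℝ (Set.range ev)).topologicalClosure

theorem DD_closed : IsClosed (DD : Set (X →L[ℝ] ℝ)) := Submodule.isClosed_topologicalClosure _

theorem ev_mem_DD (t : Node) : ev t ∈ DD :=
  Submodule.le_topologicalClosure _ (Submodule.subset_span ⟨t, rfl⟩)

/-- functions in the space are left continuous along branches -/
theorem left_cont_X (f : X) {t : Node} (ht : ∃ s, s < t) {η : ℝ} (hη : 0 < η) :
    ∃ s, s < t ∧ ∀ u, s < u → u ≤ t → |ev u f - ev t f| ≤ η := by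
  have hspan : ∀ g ∈ Submodule.span ℝ (Set.range chiB),
      ∃ s, s < t ∧ ∀ u, s < u → u ≤ t → g u = g t := by
    intro g hg
    induction hg using Submodule.span_induction with
    | mem x hx =>
      obtain ⟨r, rfl⟩ := hx
      obtain ⟨s, hs, h⟩ := left_cont t r ht
      refine ⟨s, hs, fun u h1 h2 => ?_⟩
      rw [chiB_apply, chiB_apply]
      by_cases htr : t ≤ r
      · rw [if_pos htr, if_pos ((h u h1 h2).2 htr)]
      · rw [if_neg htr, if_neg (fun h3 => htr ((h u h1 h2).1 h3))]
    | zero =>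
      obtain ⟨s, hs⟩ := ht
      exact ⟨s, hs, fun u _ _ => rfl⟩
    | add x y _ _ hx hy =>
      obtain ⟨s1, hs1, h1⟩ := hx
      obtain ⟨s2, hs2, h2⟩ := hy
      rcases comparable hs1.le hs2.le with h | h
      · refine ⟨s2, hs2, fun u hu1 hu2 => ?_⟩
        rw [B_add_apply, B_add_apply, h1 u (h.trans_lt hu1) hu2, h2 u hu1 hu2]
      · refine ⟨s1, hs1, fun u hu1 hu2 => ?_⟩
        rw [B_add_apply, B_add_apply, h1 u hu1 hu2, h2 u (h.trans_lt hu1) hu2]
    | smul c x _ hx =>
      obtain ⟨s1, hs1, h1⟩ := hx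
      refine ⟨s1, hs1, fun u hu1 hu2 => ?_⟩
      rw [B_smul_apply, B_smul_apply, h1 u hu1 hu2]
  have hmem : inc f ∈ closure ((Submodule.span ℝ (Set.range chiB) : Submodule ℝ B) : Set B) :=
    f.2
  obtain ⟨g, hg, hfg⟩ := Metric.mem_closure_iff.1 hmem (η / 2) (by linarith)
  obtain ⟨s, hs, h⟩ := hspan g hg
  refine ⟨s, hs, fun u h1 h2 => ?_⟩
  have h3 := h u h1 h2
  have h4 : |ev u f - g u| ≤ η / 2 := by
    have := abs_B_le (inc f - g) u
    rw [dist_eq_norm] at hfg
    exact this.trans hfg.le
  have h5 : |ev t f - g t| ≤ η / 2 := by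
    have := abs_B_le (inc f - g) t
    rw [dist_eq_norm] at hfg
    exact this.trans hfg.le
  rw [h3] at h4
  have h6 := abs_le.1 h4
  have h7 := abs_le.1 h5
  rw [abs_le]
  constructor <;> linarith [h6.1, h6.2, h7.1, h7.2]

theorem Iic_split {s t : Node} (h : s ≤ t) : Set.Iic t = Set.Iic s ∪ {u | s < u ∧ u ≤ t} := by
  ext u
  simp only [Set.mem_Iic, Set.mem_union, Set.mem_ofPred_eq]
  constructor
  · intro hu
    rcases comparable hu h with h1 | h1
    · exact Or.inl h1
    · rcases eq_or_lt_of_le h1 with h2 | h2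
      · exact Or.inl h2.ge
      · exact Or.inr ⟨h2, hu⟩
  · rintro (h1 | h1)
    · exact h1.trans h
    · exact h1.2

theorem Iic_disj (s t : Node) : Disjoint (Set.Iic s) {u | s < u ∧ u ≤ t} := by
  rw [Set.disjoint_left]
  intro u h1 h2
  exact absurd h2.1 (not_lt_of_ge h1)

theorem Ioc_split {r s t : Node} (h : r ≤ s) (h' : s ≤ t) :
    {u | r < u ∧ u ≤ t} = {u | r < u ∧ u ≤ s} ∪ {u | s < u ∧ u ≤ t} := by
  ext u
  simp only [Set.mem_union, Set.mem_ofPred_eq]
  constructor
  · rintro ⟨h1, h2⟩
    rcases comparable h2 h' with h3 | h3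
    · exact Or.inl ⟨h1, h3⟩
    · rcases eq_or_lt_of_le h3 with h4 | h4
      · exact Or.inl ⟨h1, h4.ge⟩
      · exact Or.inr ⟨h4, h2⟩
  · rintro (h1 | h1)
    · exact ⟨h1.1, h1.2.trans h'⟩
    · exact ⟨h.trans_lt h1.1, h1.2⟩

theorem Ioc_disj (r s t : Node) : Disjoint {u | r < u ∧ u ≤ s} {u | s < u ∧ u ≤ t} := by
  rw [Set.disjoint_left]
  intro u h1 h2
  exact absurd h2.1 (not_lt_of_ge h1.2)

/-- the constant function one -/
noncomputable def oneB : B := BoundedContinuousFunction.const Node 1

theorem oneB_apply (s : Node) : oneB s = 1 := rfl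

theorem branch_mem (t : Node) : ∀ lam : B →L[ℝ] ℝ,
    ((lam.comp (indB (Set.Iic t))).comp inc : X →L[ℝ] ℝ) ∈ DD := by
  induction t using WellFoundedLT.induction with
  | ind t ih =>
  intro lam
  by_cases ht : ∃ s, s < t
  · -- q
    let q : {s : Node // s < t} → ℝ := fun s => ‖lam.comp (indB {u | s.1 < u ∧ u ≤ t})‖
    have hbd : BddBelow (Set.range q) := ⟨0, by rintro x ⟨s, rfl⟩; exact norm_nonneg (lam.comp (indB _))⟩
    have : Nonempty {s : Node // s < t} := by
      obtain ⟨s, hs⟩ := ht; exact ⟨⟨s, hs⟩⟩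
    rw [← SetLike.mem_coe, Metric.mem_of_closed' DD_closed]
    intro ε hε
    have hlt : (⨅ s, q s) < (⨅ s, q s) + ε / 4 := by linarith
    obtain ⟨⟨s0, hs0⟩, hq⟩ := exists_lt_of_ciInf_lt hlt
    set c : ℝ := lam (indB {u | s0 < u ∧ u ≤ t} oneB) with hc
    refine ⟨(lam.comp (indB (Set.Iic s0))).comp inc + c • ev t,
      DD.add_mem (ih s0 hs0 lam) (DD.smul_mem _ (ev_mem_DD t)), ?_⟩
    rw [dist_eq_norm]
    have hbound : ‖(lam.comp (indB (Set.Iic t))).comp inc -
        ((lam.comp (indB (Set.Iic s0))).comp inc + c • ev t)‖ ≤ ε / 2 := by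
      apply ContinuousLinearMap.opNorm_le_bound _ (by linarith)
      intro f
      -- rewrite
      set g : B := inc f - (ev t f) • oneB with hg
      have h1 : ((lam.comp (indB (Set.Iic t))).comp inc -
        ((lam.comp (indB (Set.Iic s0))).comp inc + c • ev t)) f
          = lam (indB {u | s0 < u ∧ u ≤ t} g) := by
        have h2 : indB (Set.Iic t) (inc f) = indB (Set.Iic s0) (inc f) +
            indB {u | s0 < u ∧ u ≤ t} (inc f) := by
          rw [Iic_split hs0.le, indB_add (Iic_disj s0 t)]
        simp only [sub_apply, add_apply,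
          ContinuousLinearMap.comp_apply, smul_apply, smul_eq_mul]
        rw [h2, hg, map_add, map_sub, map_sub, map_smul, map_smul, ← hc, smul_eq_mul]
        ring
      rw [h1]
      have hgn : ‖g‖ ≤ 2 * ‖f‖ := by
        apply B_norm_le (by positivity)
        intro s
        rw [hg, B_sub_apply, B_smul_apply, oneB_apply, mul_one]
        refine (abs_sub _ _).trans ?_
        have := abs_ev_le s f
        have h3 := abs_ev_le t f
        rw [ev_def] at this
        linarith
      apply le_of_forall_pos_le_add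
      intro η hη
      obtain ⟨s1, hs1, hs1'⟩ := left_cont_X f (t := t) ht (η := η / (‖lam‖ + 1)) (by positivity)
      -- take the larger of s0 s1
      obtain ⟨s, hst, hs0s, hs⟩ : ∃ s, s < t ∧ s0 ≤ s ∧
          ∀ u, s < u → u ≤ t → |ev u f - ev t f| ≤ η / (‖lam‖ + 1) := by
        rcases comparable hs0.le hs1.le with h | h
        · exact ⟨s1, hs1, h, hs1'⟩
        · exact ⟨s0, hs0, le_rfl, fun u h2 h3 => hs1' u (h.trans_lt h2) h3⟩
      have h4 : ‖lam.comp (indB {u | s0 < u ∧ u ≤ s})‖ ≤ ε / 4 := by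
        have h5 := norm_add_norm_le lam (Ioc_disj s0 s t)
        rw [← Ioc_split hs0s hst.le] at h5
        have h6 : (⨅ s, q s) ≤ ‖lam.comp (indB {u | s < u ∧ u ≤ t})‖ := ciInf_le hbd ⟨s, hst⟩
        have h7 : ‖lam.comp (indB {u | s0 < u ∧ u ≤ t})‖ < (⨅ s, q s) + ε / 4 := hq
        linarith
      have h5 : lam (indB {u | s0 < u ∧ u ≤ t} g) = lam (indB {u | s0 < u ∧ u ≤ s} g) +
          lam (indB {u | s < u ∧ u ≤ t} g) := by
        rw [Ioc_split hs0s hst.le, indB_add (Ioc_disj s0 s t), map_add]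
      have h6 : |lam (indB {u | s0 < u ∧ u ≤ s} g)| ≤ ε / 2 * ‖f‖ := by
        refine ((lam.comp (indB {u | s0 < u ∧ u ≤ s})).le_opNorm g).trans ?_
        calc ‖lam.comp (indB {u | s0 < u ∧ u ≤ s})‖ * ‖g‖ ≤ (ε / 4) * (2 * ‖f‖) :=
              mul_le_mul h4 hgn (norm_nonneg _) (by linarith)
          _ = ε / 2 * ‖f‖ := by ring
      have h7 : |lam (indB {u | s < u ∧ u ≤ t} g)| ≤ η := by
        refine (lam.le_opNorm _).trans ?_
        have h8 : ‖indB {u | s < u ∧ u ≤ t} g‖ ≤ η / (‖lam‖ + 1) := by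
          apply B_norm_le (by positivity)
          intro u
          by_cases hu : u ∈ {u | s < u ∧ u ≤ t}
          · rw [indB_mem hu, hg, B_sub_apply, B_smul_apply, oneB_apply, mul_one]
            exact hs u hu.1 hu.2
          · rw [indB_not hu, abs_zero]; positivity
        calc ‖lam‖ * ‖indB {u | s < u ∧ u ≤ t} g‖ ≤ (‖lam‖ + 1) * (η / (‖lam‖ + 1)) :=
              mul_le_mul (by linarith) h8 (norm_nonneg _) (by positivity)
          _ = η := by field_simp
      rw [h5]
      exact (norm_add_le _ _).trans (add_le_add h6 h7)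
    linarith
  · -- root
    have h1 : (lam.comp (indB (Set.Iic t))).comp inc =
        (lam (indB (Set.Iic t) oneB)) • ev t := by
      ext f
      have h2 : indB (Set.Iic t) (inc f) = (ev t f) • indB (Set.Iic t) oneB := by
        ext s
        rw [B_smul_apply]
        by_cases hs : s ∈ Set.Iic t
        · rw [indB_mem hs, indB_mem hs, oneB_apply, mul_one]
          have : s = t := by
            rcases eq_or_lt_of_le (show s ≤ t from hs) with h3 | h3
            · exact h3
            · exact absurd ⟨s, h3⟩ ht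
          rw [this]; rfl
        · rw [indB_not hs, indB_not hs, mul_zero]
      simp only [ContinuousLinearMap.comp_apply, smul_apply]
      rw [h2, map_smul, smul_eq_mul, smul_eq_mul, mul_comm]
    rw [h1]
    exact DD.smul_mem _ (ev_mem_DD t)

theorem finite_mem (F : Finset Node) : ∀ lam : B →L[ℝ] ℝ,
    ((lam.comp (indB (⋃ t ∈ F, Set.Iic t))).comp inc : X →L[ℝ] ℝ) ∈ DD := by
  classical
  induction F using Finset.induction_on with
  | empty =>
    intro lam
    have : (lam.comp (indB (⋃ t ∈ (∅ : Finset Node), Set.Iic t))).comp inc =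
        (0 : X →L[ℝ] ℝ) := by
      ext f
      have h2 : indB (⋃ t ∈ (∅ : Finset Node), Set.Iic t) (inc f) = 0 := by
        ext s
        rw [indB_not (by simp)]; rfl
      simp only [ContinuousLinearMap.comp_apply, zero_apply]
      rw [h2, map_zero]
    rw [this]
    exact DD.zero_mem
  | insert a F ha ih =>
    intro lam
    have h1 : (lam.comp (indB (⋃ t ∈ insert a F, Set.Iic t))).comp inc =
        (lam.comp (indB (Set.Iic a))).comp inc +
        ((lam.comp (indB (Set.Iic a)ᶜ)).comp (indB (⋃ t ∈ F, Set.Iic t))).comp inc := by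
      ext f
      simp only [ContinuousLinearMap.comp_apply, add_apply]
      rw [indB_indB, ← map_add, ← indB_add]
      · have hset : (⋃ t ∈ insert a F, Set.Iic t) =
            Set.Iic a ∪ ((Set.Iic a)ᶜ ∩ ⋃ t ∈ F, Set.Iic t) := by
          rw [Finset.set_biUnion_insert]
          ext u
          rw [Set.mem_union, Set.mem_union, Set.mem_inter_iff, Set.mem_compl_iff]
          tauto
        rw [hset]
      · rw [Set.disjoint_left]
        intro u h1 h2
        exact h2.1 h1
    rw [h1]
    exact DD.add_mem (branch_mem a lam) (ih _)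

/-- Elements of the span are supported on finitely many branches. -/
theorem span_support (g : B) (hg : g ∈ Submodule.span ℝ (Set.range chiB)) :
    ∃ F : Finset Node, ∀ s, s ∉ (⋃ t ∈ F, Set.Iic t) → g s = 0 := by
  classical
  induction hg using Submodule.span_induction with
  | mem x hx =>
    obtain ⟨r, rfl⟩ := hx
    refine ⟨{r}, fun s hs => ?_⟩
    rw [chiB_apply, if_neg]
    intro h
    apply hs
    simp only [Finset.mem_singleton, Set.iUnion_iUnion_eq_left]
    exact h
  | zero => exact ⟨∅, fun s _ => rfl⟩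
  | add x y _ _ hx hy =>
    obtain ⟨F1, h1⟩ := hx
    obtain ⟨F2, h2⟩ := hy
    refine ⟨F1 ∪ F2, fun s hs => ?_⟩
    rw [B_add_apply, h1 s, h2 s, add_zero]
    · intro h
      apply hs
      rw [Finset.set_biUnion_union]
      exact Or.inr h
    · intro h
      apply hs
      rw [Finset.set_biUnion_union]
      exact Or.inl h
  | smul c x _ hx =>
    obtain ⟨F1, h1⟩ := hx
    refine ⟨F1, fun s hs => ?_⟩
    rw [B_smul_apply, h1 s hs, mul_zero]

/-- The dual of the tree space is the closed span of the evaluations. -/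
theorem dual_eq (xi : X →L[ℝ] ℝ) : xi ∈ DD := by
  obtain ⟨lam, hlam1, hlam2⟩ := exists_extension_norm_eq XS xi
  have hl1 : ∀ f : X, lam (inc f) = xi f := fun f => hlam1 f
  have hl2 : ‖lam‖ = ‖xi‖ := hlam2
  rw [← SetLike.mem_coe, Metric.mem_of_closed' DD_closed]
  intro ε hε
  set η : ℝ := ε / 2 / (1 + 2 * ‖xi‖) with hη
  have hpos : 0 < 1 + 2 * ‖xi‖ := by positivity
  have hη0 : 0 < η := by positivity
  obtain ⟨f, hf1, hf2⟩ := xi.exists_lt_apply_of_lt_opNorm (show ‖xi‖ - η < ‖xi‖ by linarith)
  have hmem : inc f ∈ closure ((Submodule.span ℝ (Set.range chiB) : Submodule ℝ B) : Set B) :=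
    f.2
  obtain ⟨g, hg, hfg⟩ := Metric.mem_closure_iff.1 hmem η hη0
  obtain ⟨F, hF⟩ := span_support g hg
  set K : Set Node := ⋃ t ∈ F, Set.Iic t with hK
  have hgK : indB K g = g := by
    ext s
    by_cases hs : s ∈ K
    · rw [indB_mem hs]
    · rw [indB_not hs, hF s hs]
  rw [dist_eq_norm] at hfg
  have h1 : ‖lam g‖ ≤ ‖lam.comp (indB K)‖ * (1 + η) := by
    have h2 := (lam.comp (indB K)).le_opNorm g
    rw [ContinuousLinearMap.comp_apply, hgK] at h2
    refine h2.trans (mul_le_mul_of_nonneg_left ?_ (norm_nonneg _))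
    have h3 : ‖g‖ ≤ ‖inc f‖ + ‖inc f - g‖ := by
      have := norm_sub_le (inc f) (inc f - g)
      rwa [sub_sub_cancel] at this
    rw [inc_norm] at h3
    linarith
  have h2 : ‖xi‖ - η - ‖xi‖ * η ≤ ‖lam g‖ := by
    have h3 : lam (inc f) = lam g + lam (inc f - g) := by
      rw [← map_add]; congr 1; abel
    have h4 : ‖lam (inc f - g)‖ ≤ ‖xi‖ * η := by
      refine (lam.le_opNorm _).trans ?_
      rw [hl2]
      exact mul_le_mul_of_nonneg_left hfg.le (norm_nonneg _)
    have h5 : ‖xi f‖ ≤ ‖lam g‖ + ‖lam (inc f - g)‖ := by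
      rw [← hl1, h3]; exact norm_add_le _ _
    linarith
  have hcK : ‖lam.comp (indB K)‖ ≤ ‖xi‖ := by
    rw [← hl2]
    apply ContinuousLinearMap.opNorm_le_bound _ (norm_nonneg _)
    intro h
    refine (lam.le_opNorm _).trans (mul_le_mul_of_nonneg_left ?_ (norm_nonneg _))
    apply B_norm_le (norm_nonneg _)
    intro s
    change |indB K h s| ≤ ‖h‖
    by_cases hs : s ∈ K
    · rw [indB_mem hs]; exact abs_B_le h s
    · rw [indB_not hs, abs_zero]; exact norm_nonneg _
  have h3 : ‖xi‖ - η * (1 + 2 * ‖xi‖) ≤ ‖lam.comp (indB K)‖ := by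
    have : ‖lam.comp (indB K)‖ * (1 + η) ≤ ‖lam.comp (indB K)‖ + ‖xi‖ * η := by
      nlinarith
    linarith
  have h4 : ‖lam.comp (indB Kᶜ)‖ ≤ ε / 2 := by
    have h5 := norm_add_norm_le lam (disjoint_compl_right (a := K))
    rw [show K ∪ Kᶜ = Set.univ from Set.union_compl_self K] at h5
    have h6 : ‖lam.comp (indB Set.univ)‖ ≤ ‖xi‖ := by
      rw [← hl2]
      apply ContinuousLinearMap.opNorm_le_bound _ (norm_nonneg _)
      intro h
      rw [ContinuousLinearMap.comp_apply]
      have : indB Set.univ h = h := by ext s; rw [indB_mem (Set.mem_univ s)]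
      rw [this]
      exact lam.le_opNorm h
    have h7 : η * (1 + 2 * ‖xi‖) = ε / 2 := by
      rw [hη]; field_simp
    linarith
  refine ⟨(lam.comp (indB K)).comp inc, finite_mem F lam, ?_⟩
  rw [dist_eq_norm]
  have h5 : ‖xi - (lam.comp (indB K)).comp inc‖ ≤ ε / 2 := by
    apply ContinuousLinearMap.opNorm_le_bound _ (by linarith)
    intro h
    have h6 : (xi - (lam.comp (indB K)).comp inc) h = lam.comp (indB Kᶜ) (inc h) := by
      have h7 : inc h = indB K (inc h) + indB Kᶜ (inc h) := by
        rw [← indB_add disjoint_compl_right, Set.union_compl_self]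
        ext s; rw [indB_mem (Set.mem_univ s)]
      simp only [sub_apply, ContinuousLinearMap.comp_apply]
      rw [← hl1, sub_eq_iff_eq_add, ← map_add, add_comm, ← h7]
    rw [h6]
    refine ((lam.comp (indB Kᶜ)).le_opNorm _).trans ?_
    rw [inc_norm]
    exact mul_le_mul_of_nonneg_right h4 (norm_nonneg _)
  linarith

/-- Every element of the space has countable support. -/
theorem countable_support (f : X) : {t | ev t f ≠ 0}.Countable := by
  have hmem : inc f ∈ closure ((Submodule.span ℝ (Set.range chiB) : Submodule ℝ B) : Set B) :=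
    f.2
  obtain ⟨g, hg, hlim⟩ := mem_closure_iff_seq_limit.1 hmem
  have hsupp : ∀ n, ({t | g n t ≠ 0} : Set Node).Countable := by
    intro n
    obtain ⟨F, hF⟩ := span_support (g n) (hg n)
    have : ({t | g n t ≠ 0} : Set Node) ⊆ ⋃ t ∈ F, Set.Iic t := by
      intro s hs
      by_contra h
      exact hs (hF s h)
    refine Set.Countable.mono this ?_
    exact F.countable_toSet.biUnion fun t _ => countable_Iic_node t
  refine (Set.countable_iUnion hsupp).mono ?_
  intro t ht
  by_contra h
  simp only [Set.mem_iUnion, Set.mem_ofPred_eq, not_exists, not_not] at h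
  apply ht
  have h1 : Tendsto (fun n => g n t) atTop (𝓝 (inc f t)) :=
    ((BoundedContinuousFunction.evalCLM ℝ t).continuous.tendsto (inc f)).comp hlim
  have h2 : Tendsto (fun n => g n t) atTop (𝓝 0) := by
    simp only [h]; exact tendsto_const_nhds
  exact tendsto_nhds_unique h1 h2

/-- The tree space is Asplund: each separable subspace has separable dual. -/
theorem asplund (Y : Submodule ℝ X) (hY : TopologicalSpace.SeparableSpace Y) :
    TopologicalSpace.SeparableSpace (Y →L[ℝ] ℝ) := by
  obtain ⟨D, hDc, hDd⟩ := hY.exists_countable_dense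
  let S : Set Node := ⋃ y ∈ D, {t | ev t (y : X) ≠ 0}
  have hS : S.Countable := hDc.biUnion fun y _ => countable_support _
  let r : (X →L[ℝ] ℝ) →L[ℝ] (Y →L[ℝ] ℝ) := ContinuousLinearMap.precomp ℝ Y.subtypeL
  have hr : ∀ xi (y : Y), r xi y = xi (y : X) := fun xi y => rfl
  have hzero : ∀ t, t ∉ S → r (ev t) = 0 := by
    intro t ht
    have h1 : ∀ y ∈ D, r (ev t) y = 0 := by
      intro y hy
      by_contra h
      apply ht
      exact Set.mem_biUnion hy h
    apply ContinuousLinearMap.ext
    have h2 : (⇑(r (ev t)) : Y → ℝ) = fun _ => 0 :=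
      Continuous.ext_on hDd (r (ev t)).continuous continuous_const h1
    intro y
    rw [h2]; rfl
  have hsurj : ∀ ze : Y →L[ℝ] ℝ, ∃ xi, r xi = ze := by
    intro ze
    obtain ⟨xi, hxi, -⟩ := exists_extension_norm_eq Y ze
    exact ⟨xi, by ext y; exact hxi y⟩
  let E : Set (Y →L[ℝ] ℝ) := insert 0 ((fun t => r (ev t)) '' S)
  have hE : E.Countable := (hS.image _).insert 0
  have hsep : TopologicalSpace.IsSeparable
      (closure ((Submodule.span ℝ E : Submodule ℝ (Y →L[ℝ] ℝ)) : Set (Y →L[ℝ] ℝ))) :=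
    (hE.isSeparable.span (R := ℝ)).closure
  rw [← TopologicalSpace.isSeparable_univ_iff]
  refine hsep.mono ?_
  intro ze _
  obtain ⟨xi, rfl⟩ := hsurj ze
  have hxi : xi ∈ closure ((Submodule.span ℝ (Set.range ev) : Submodule ℝ (X →L[ℝ] ℝ)) :
      Set (X →L[ℝ] ℝ)) := dual_eq xi
  have h1 : r xi ∈ closure (r '' ((Submodule.span ℝ (Set.range ev) : Submodule ℝ (X →L[ℝ] ℝ)) :
      Set (X →L[ℝ] ℝ))) := image_closure_subset_closure_image r.continuous ⟨xi, hxi, rfl⟩
  refine closure_mono ?_ h1
  rintro _ ⟨z, hz, rfl⟩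
  show r z ∈ Submodule.span ℝ E
  have hz' : z ∈ Submodule.span ℝ (Set.range ev) := hz
  induction hz' using Submodule.span_induction with
  | mem x hx =>
    obtain ⟨t, rfl⟩ := hx
    apply Submodule.subset_span
    by_cases ht : t ∈ S
    · exact Or.inr ⟨t, ht, rfl⟩
    · exact Or.inl (hzero t ht)
  | zero => rw [map_zero]; exact Submodule.zero_mem _
  | add x y hx hy h1 h2 => rw [map_add]; exact Submodule.add_mem _ (h1 hx) (h2 hy)
  | smul c x hx h1 => rw [map_smul]; exact Submodule.smul_mem _ _ (h1 hx)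

end Pool.Agent.Helper570.Tree
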