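import Pool.Agent.Helper570.Asplund

set_option autoImplicit false

namespace Pool.Agent.Helper570.Tree

open Set Filter Topology

instance : Nonempty Node := by
  obtain ⟨b0⟩ : Nonempty W := inferInstance
  exact ⟨⟨b0, fun _ => 0, fun _ _ => rfl⟩⟩

theorem exists_child {t t' : Node} (h : t < t') : ∃ k, child t k ≤ t' := by
  refine ⟨t'.val t.len, Order.succ_le_of_lt (len_lt h), ?_⟩
  intro c hc
  simp only [child] at hc ⊢
  split_ifs with h1
  · rw [h1]
  · have h2 : c < t.len := lt_of_le_of_ne (Order.lt_succ_iff.1 hc) h1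
    exact h.le.2 c h2

/-- the drop of a function at a node -/
noncomputable def jmp (t : Node) (f : X) : ℝ :=
  min (|ev t f| / 2) (⨅ n : ℕ, |ev t f - ev (child t n) f|)

theorem jmp_bdd (t : Node) (f : X) :
    BddBelow (Set.range fun n : ℕ => |ev t f - ev (child t n) f|) :=
  ⟨0, by rintro _ ⟨n, rfl⟩; exact abs_nonneg _⟩

theorem jmp_nonneg (t : Node) (f : X) : 0 ≤ jmp t f :=
  le_min (by positivity) (Real.iInf_nonneg fun n => abs_nonneg _)

theorem jmp_le_half (t : Node) (f : X) : jmp t f ≤ |ev t f| / 2 := min_le_left _ _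

theorem jmp_le (t : Node) (f : X) (n : ℕ) : jmp t f ≤ |ev t f - ev (child t n) f| :=
  (min_le_right _ _).trans (ciInf_le (jmp_bdd t f) n)

theorem le_jmp {t : Node} {f : X} {r : ℝ} (h1 : r ≤ |ev t f| / 2)
    (h2 : ∀ n, r ≤ |ev t f - ev (child t n) f|) : r ≤ jmp t f :=
  le_min h1 (le_ciInf h2)

theorem abs_ev_sub_le (s : Node) (f g : X) : |ev s f - ev s g| ≤ ‖f - g‖ := by
  rw [← ev_sub]; exact abs_ev_le _ _

theorem jmp_lip (t : Node) (f g : X) : jmp t f ≤ jmp t g + 2 * ‖f - g‖ := by
  have h0 := norm_nonneg (f - g)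
  rw [← sub_le_iff_le_add]
  apply le_jmp
  · have h1 := jmp_le_half t f
    have h2 := abs_ev_sub_le t f g
    have h3 := abs_sub_abs_le_abs_sub (ev t f) (ev t g)
    linarith
  · intro n
    have h1 := jmp_le t f n
    have h2 := abs_ev_sub_le t f g
    have h3 := abs_ev_sub_le (child t n) f g
    have h4 : |ev t f - ev (child t n) f| ≤ |ev t g - ev (child t n) g| + |ev t f - ev t g|
        + |ev (child t n) f - ev (child t n) g| := by
      have h5 : ev t f - ev (child t n) f = (ev t g - ev (child t n) g) + (ev t f - ev t g)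
        - (ev (child t n) f - ev (child t n) g) := by ring
      rw [h5]
      refine (abs_sub _ _).trans ?_
      have := abs_add_le (ev t g - ev (child t n) g) (ev t f - ev t g)
      linarith
    linarith

/-- the modified norm -/
noncomputable def MM (f : X) : ℝ := ⨆ t, (|ev t f| + jmp t f)

theorem MM_bdd (f : X) : BddAbove (Set.range fun t => |ev t f| + jmp t f) :=
  ⟨2 * ‖f‖, by
    rintro _ ⟨t, rfl⟩
    have h1 := abs_ev_le t f
    have h2 := jmp_le_half t f
    have h3 := norm_nonneg f
    show |ev t f| + jmp t f ≤ _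
    linarith⟩

theorem le_MM (t : Node) (f : X) : |ev t f| + jmp t f ≤ MM f := le_ciSup (MM_bdd f) t

theorem MM_le {f : X} {r : ℝ} (h : ∀ t, |ev t f| + jmp t f ≤ r) : MM f ≤ r := ciSup_le h

theorem norm_le_MM (f : X) : ‖f‖ ≤ MM f := by
  have h0 : ∀ t, |ev t f| ≤ MM f := fun t => by
    have := le_MM t f
    have := jmp_nonneg t f
    linarith
  obtain ⟨t⟩ : Nonempty Node := inferInstance
  exact norm_le_of ((abs_nonneg _).trans (h0 t)) h0

theorem MM_le_norm (f : X) : MM f ≤ 2 * ‖f‖ := by
  apply MM_le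
  intro t
  have h1 := abs_ev_le t f
  have h2 := jmp_le_half t f
  have h3 := norm_nonneg f
  linarith

theorem MM_lip (f g : X) : MM f ≤ MM g + 3 * ‖f - g‖ := by
  apply MM_le
  intro t
  have h1 := le_MM t g
  have h2 := jmp_lip t f g
  have h3 := abs_ev_sub_le t f g
  have h4 := abs_sub_abs_le_abs_sub (ev t f) (ev t g)
  linarith

theorem MM_continuous : Continuous MM := by
  have h : LipschitzWith 3 MM := by
    apply LipschitzWith.of_dist_le_mul
    intro f g
    rw [Real.dist_eq, dist_eq_norm, abs_le]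
    have h1 := MM_lip f g
    have h2 := MM_lip g f
    rw [norm_sub_rev g f] at h2
    simp only [NNReal.coe_ofNat]
    constructor <;> linarith
  exact h.continuous

theorem drop_branch (f : X) {m : ℝ} (hm : ∀ x, |ev x f| ≤ m) (s : Node) :
    (∃ δ : ℝ, 0 < δ ∧ ∀ x, x ≤ s → |ev x f| ≤ m - δ) ∨
    (∃ t, t ≤ s ∧ |ev t f| = m ∧ ∃ δ : ℝ, 0 < δ ∧ ∀ x, t < x → x ≤ s → |ev x f| ≤ m - δ) := by
  induction s using WellFoundedLT.induction with
  | ind s ih =>
  rcases (hm s).eq_or_lt with h1 | h1
  · exact Or.inr ⟨s, le_rfl, h1, 1, one_pos, fun x h2 h3 => absurd h3 (not_le_of_gt h2)⟩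
  · set η : ℝ := (m - |ev s f|) / 2 with hη
    have hη0 : 0 < η := by rw [hη]; linarith
    by_cases hs : ∃ s', s' < s
    · obtain ⟨s', hs', h2⟩ := left_cont_X f hs hη0
      have h3 : ∀ x, s' < x → x ≤ s → |ev x f| ≤ m - η := by
        intro x hx1 hx2
        have h4 := h2 x hx1 hx2
        have h5 := abs_sub_abs_le_abs_sub (ev x f) (ev s f)
        rw [hη] at h4 ⊢
        linarith
      rcases ih s' hs' with ⟨δ, hδ, h4⟩ | ⟨t, ht, h4, δ, hδ, h5⟩
      · refine Or.inl ⟨min δ η, lt_min hδ hη0, fun x hx => ?_⟩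
        rcases comparable hx hs'.le with h6 | h6
        · have := h4 x h6
          have := min_le_left δ η
          linarith
        · rcases h6.eq_or_lt with h7 | h7
          · subst h7
            have := h4 s' le_rfl
            have := min_le_left δ η
            linarith
          · have := h3 x h7 hx
            have := min_le_right δ η
            linarith
      · refine Or.inr ⟨t, ht.trans hs'.le, h4, min δ η, lt_min hδ hη0, fun x hx1 hx2 => ?_⟩
        rcases comparable hx2 hs'.le with h6 | h6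
        · have := h5 x hx1 h6
          have := min_le_left δ η
          linarith
        · rcases h6.eq_or_lt with h7 | h7
          · subst h7
            have := h5 s' hx1 le_rfl
            have := min_le_left δ η
            linarith
          · have := h3 x h7 hx2
            have := min_le_right δ η
            linarith
    · push Not at hs
      refine Or.inl ⟨η, hη0, fun x hx => ?_⟩
      rcases hx.eq_or_lt with h2 | h2
      · rw [h2, hη]; linarith
      · exact absurd h2 (hs x)

theorem approx (f : X) {r : ℝ} (hr : 0 < r) :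
    ∃ g ∈ Submodule.span ℝ (Set.range chiB), ∀ s, |ev s f - g s| ≤ r := by
  have hmem : inc f ∈ closure ((Submodule.span ℝ (Set.range chiB) : Submodule ℝ B) : Set B) :=
    f.2
  obtain ⟨g, hg, hfg⟩ := Metric.mem_closure_iff.1 hmem r hr
  refine ⟨g, hg, fun s => ?_⟩
  rw [dist_eq_norm] at hfg
  exact (abs_B_le (inc f - g) s).trans hfg.le

theorem small_off (f : X) {r : ℝ} (hr : 0 < r) :
    ∃ F : Finset Node, ∀ x, (∀ s ∈ F, ¬ x ≤ s) → |ev x f| ≤ r := by
  obtain ⟨g, hg, h⟩ := approx f hr
  obtain ⟨F, hF⟩ := span_support g hg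
  refine ⟨F, fun x hx => ?_⟩
  have h1 : g x = 0 := by
    apply hF
    simp only [Set.mem_iUnion, Set.mem_Iic, not_exists]
    exact hx
  have h2 := h x
  rwa [h1, sub_zero] at h2

theorem exists_pos_le {α : Type*} (F : Finset α) (δ : α → ℝ) (h : ∀ s ∈ F, 0 < δ s) :
    ∃ d : ℝ, 0 < d ∧ ∀ s ∈ F, d ≤ δ s := by
  classical
  induction F using Finset.induction_on with
  | empty => exact ⟨1, one_pos, by simp⟩
  | insert a F ha ih =>
    obtain ⟨d, hd, h1⟩ := ih fun s hs => h s (Finset.mem_insert_of_mem hs)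
    refine ⟨min d (δ a), lt_min hd (h a (Finset.mem_insert_self _ _)), ?_⟩
    intro s hs
    rcases Finset.mem_insert.1 hs with h2 | h2
    · rw [h2]; exact min_le_right _ _
    · exact (min_le_left _ _).trans (h1 s h2)

theorem exists_top (f : X) (hf : f ≠ 0) : ∃ (t : Node) (δ : ℝ), 0 < δ ∧ |ev t f| = ‖f‖ ∧
    ∀ x, t < x → |ev x f| ≤ ‖f‖ - δ := by
  classical
  set m := ‖f‖ with hm
  have hm0 : 0 < m := norm_pos_iff.2 hf
  obtain ⟨F, hF⟩ := small_off f (half_pos hm0)
  have hbr := drop_branch f (m := m) (fun x => abs_ev_le x f)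
  -- data
  have hdata : ∀ s : Node, ∃ (δ : ℝ) (t : Node), 0 < δ ∧ ((∀ x, x ≤ s → |ev x f| ≤ m - δ) ∨
      (t ≤ s ∧ |ev t f| = m ∧ ∀ x, t < x → x ≤ s → |ev x f| ≤ m - δ)) := by
    intro s
    rcases hbr s with ⟨δ, hδ, h4⟩ | ⟨t, ht, h4, δ, hδ, h5⟩
    · exact ⟨δ, s, hδ, Or.inl h4⟩
    · exact ⟨δ, t, hδ, Or.inr ⟨ht, h4, h5⟩⟩
  choose δ t hδ ht using hdata
  obtain ⟨δ0, hδ0, hδF⟩ := exists_pos_le F δ (fun s _ => hδ s)
  set δ1 := min δ0 (m / 2) with hδ1
  have hδ1pos : 0 < δ1 := lt_min hδ0 (half_pos hm0)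
  have hδ1a : δ1 ≤ δ0 := min_le_left _ _
  have hδ1b : δ1 ≤ m / 2 := min_le_right _ _
  let F2 : Finset Node := (F.filter fun s => |ev (t s) f| = m ∧ t s ≤ s ∧
    ∀ x, t s < x → x ≤ s → |ev x f| ≤ m - δ s).image t
  have hne : F2.Nonempty := by
    by_contra hcon
    rw [Finset.not_nonempty_iff_eq_empty] at hcon
    have h1 : ∀ x, |ev x f| ≤ m - δ1 := by
      intro x
      by_cases hx : ∃ s ∈ F, x ≤ s
      · obtain ⟨s, hs, hxs⟩ := hx
        rcases ht s with h2 | h2
        · have := h2 x hxs
          have := hδF s hs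
          linarith
        · exfalso
          have h3 : t s ∈ F2 := Finset.mem_image_of_mem _ (Finset.mem_filter.2 ⟨hs, h2.2.1, h2.1,
            h2.2.2⟩)
          rw [hcon] at h3
          exact absurd h3 (Finset.notMem_empty _)
      · push Not at hx
        have := hF x hx
        linarith
    have h2 := norm_le_of (by linarith) h1
    linarith
  obtain ⟨t0, ht0, hmax⟩ := F2.exists_maximal hne
  obtain ⟨s0, hs0, rfl⟩ := Finset.mem_image.1 ht0
  have hs0' := (Finset.mem_filter.1 hs0).2
  refine ⟨t s0, δ1, hδ1pos, hs0'.1, fun x hx => ?_⟩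
  by_cases hxF : ∃ s ∈ F, x ≤ s
  · obtain ⟨s, hs, hxs⟩ := hxF
    rcases ht s with h2 | h2
    · have := h2 x hxs
      have := hδF s hs
      linarith
    · have h3 : t s ∈ F2 := Finset.mem_image_of_mem _ (Finset.mem_filter.2 ⟨hs, h2.2.1, h2.1,
            h2.2.2⟩)
      rcases comparable hxs h2.1 with h4 | h4
      · exfalso
        have h5 : t s0 < t s := hx.trans_le h4
        exact absurd (hmax h3 h5.le) (not_le_of_gt h5)
      · rcases h4.eq_or_lt with h5 | h5
        · exfalso
          rw [← h5] at hx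
          exact absurd (hmax h3 hx.le) (not_le_of_gt hx)
        · have := h2.2.2 x h5 hxs
          have := hδF s hs
          linarith
  · push Not at hxF
    have := hF x hxF
    linarith

/-- finite sums are constant across most edges -/
theorem span_edges (g : B) (hg : g ∈ Submodule.span ℝ (Set.range chiB)) :
    ∃ F : Finset Node, ∀ t n, (∀ s ∈ F, t ≤ s → child t n ≤ s) → g t = g (child t n) := by
  classical
  induction hg using Submodule.span_induction with
  | mem x hx =>
    obtain ⟨r, rfl⟩ := hx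
    refine ⟨{r}, fun t n h => ?_⟩
    rw [chiB_apply, chiB_apply]
    by_cases htr : t ≤ r
    · rw [if_pos htr, if_pos (h r (Finset.mem_singleton_self r) htr)]
    · rw [if_neg htr, if_neg fun h1 => htr ((lt_child t n).le.trans h1)]
  | zero => exact ⟨∅, fun t n _ => rfl⟩
  | add x y _ _ hx hy =>
    obtain ⟨F1, h1⟩ := hx
    obtain ⟨F2, h2⟩ := hy
    refine ⟨F1 ∪ F2, fun t n h => ?_⟩
    rw [B_add_apply, B_add_apply, h1 t n fun s hs => h s (Finset.mem_union_left _ hs),
      h2 t n fun s hs => h s (Finset.mem_union_right _ hs)]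
  | smul c x _ hx =>
    obtain ⟨F1, h1⟩ := hx
    refine ⟨F1, fun t n h => ?_⟩
    rw [B_smul_apply, B_smul_apply, h1 t n h]

theorem finite_branching (F : Finset Node) :
    {t : Node | ∀ n, ∃ s ∈ F, t ≤ s ∧ ¬ child t n ≤ s}.Finite := by
  have hsub : ∀ s s' : Node,
      {t : Node | ∃ n, child t n ≤ s ∧ t ≤ s' ∧ ¬ child t n ≤ s'}.Subsingleton := by
    intro s s' t ht t' ht'
    obtain ⟨n, h1, h2, h3⟩ := ht
    obtain ⟨n', h1', h2', h3'⟩ := ht'
    by_contra hne
    rcases comparable ((lt_child t n).le.trans h1) ((lt_child t' n').le.trans h1') with h | h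
    · have hlt : t < t' := lt_of_le_of_ne h hne
      obtain ⟨k, hk⟩ := exists_child hlt
      have h4 := child_inj (hk.trans ((lt_child t' n').le.trans h1')) h1
      rw [h4] at hk
      exact h3 (hk.trans h2')
    · have hlt : t' < t := lt_of_le_of_ne h (Ne.symm hne)
      obtain ⟨k, hk⟩ := exists_child hlt
      have h4 := child_inj (hk.trans ((lt_child t n).le.trans h1)) h1'
      rw [h4] at hk
      exact h3' (hk.trans h2)
  have hfin : ((F : Set Node) ∪ ⋃ s ∈ F, ⋃ s' ∈ F,
      {t : Node | ∃ n, child t n ≤ s ∧ t ≤ s' ∧ ¬ child t n ≤ s'}).Finite := by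
    apply Set.Finite.union F.finite_toSet
    apply F.finite_toSet.biUnion
    intro s _
    apply F.finite_toSet.biUnion
    intro s' _
    exact (hsub s s').finite
  apply hfin.subset
  intro t ht
  obtain ⟨s, hs, h1, h2⟩ := ht 0
  rcases h1.eq_or_lt with h3 | h3
  · left; rw [h3]; exact hs
  · right
    obtain ⟨k, hk⟩ := exists_child h3
    obtain ⟨s', hs', h4, h5⟩ := ht k
    simp only [Set.mem_iUnion]
    exact ⟨s, hs, s', hs', k, hk, h4, h5⟩

theorem finite_jmp (f : X) {r : ℝ} (hr : 0 < r) : {t : Node | r ≤ jmp t f}.Finite := by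
  obtain ⟨g, hg, h⟩ := approx f (show 0 < r / 4 by linarith)
  obtain ⟨F, hF⟩ := span_edges g hg
  apply (finite_branching F).subset
  intro t ht n
  by_contra hcon
  push Not at hcon
  have h1 := hF t n hcon
  have h2 : r ≤ |ev t f - ev (child t n) f| := (show r ≤ jmp t f from ht).trans (jmp_le t f n)
  have h3 := h t
  have h4 := h (child t n)
  rw [h1] at h3
  have h5 : |ev t f - ev (child t n) f| ≤ r / 4 + r / 4 := by
    have h6 : ev t f - ev (child t n) f = (ev t f - g (child t n))
      - (ev (child t n) f - g (child t n)) := by ring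
    rw [h6]
    exact (abs_sub _ _).trans (add_le_add h3 h4)
  linarith

theorem finite_children (f : X) (t : Node) {r : ℝ} (hr : 0 < r) :
    {n : ℕ | r < |ev (child t n) f|}.Finite := by
  obtain ⟨F, hF⟩ := small_off f hr
  have hfin : (⋃ s ∈ F, {n : ℕ | child t n ≤ s}).Finite := by
    apply F.finite_toSet.biUnion
    intro s _
    apply Set.Subsingleton.finite
    intro n hn n' hn'
    exact child_inj hn hn'
  apply hfin.subset
  intro n hn
  by_contra hcon
  simp only [Set.mem_iUnion, not_exists] at hcon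
  have h1 := hF (child t n) hcon
  exact absurd hn (not_lt.2 h1)

/-- `MM` depends locally on finitely many coordinates. -/
theorem MM_local (f : X) (hf : f ≠ 0) : ∃ η : ℝ, 0 < η ∧ ∃ Φ : Finset Node, ∀ y y' : X,
    ‖y - f‖ < η → ‖y' - f‖ < η → (∀ s ∈ Φ, ev s y = ev s y') → MM y ≤ MM y' := by
  classical
  obtain ⟨t0, δ, hδ, ht0, hdrop⟩ := exists_top f hf
  have hm0 : 0 < ‖f‖ := norm_pos_iff.2 hf
  have hj0 : 0 < jmp t0 f := by
    have h1 : min (‖f‖ / 2) δ ≤ jmp t0 f := by
      apply le_jmp
      · rw [ht0]; exact min_le_left _ _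
      · intro n
        have h2 := hdrop _ (lt_child t0 n)
        have h3 := abs_sub_abs_le_abs_sub (ev t0 f) (ev (child t0 n) f)
        rw [ht0] at h3
        have h4 := min_le_right (‖f‖ / 2) δ
        linarith
    exact (lt_min (half_pos hm0) hδ).trans_le h1
  set κ : ℝ := jmp t0 f / 4 with hκ
  have hκ0 : 0 < κ := by positivity
  have hfin := finite_jmp f (half_pos hκ0)
  have hfin2 : ∀ t : Node, {n : ℕ | κ / 8 < |ev (child t n) f|}.Finite := fun t =>
    finite_children f t (by positivity)
  let N : Node → Finset ℕ := fun t => (hfin2 t).toFinset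
  have hN : ∀ t n, n ∉ N t → |ev (child t n) f| ≤ κ / 8 := by
    intro t n hn
    simp only [N, Set.Finite.mem_toFinset, Set.mem_ofPred_eq, not_lt] at hn
    exact hn
  let Φ : Finset Node := hfin.toFinset ∪ hfin.toFinset.biUnion fun t => (N t).image (child t)
  refine ⟨κ / 8, by positivity, Φ, ?_⟩
  intro y y' hy hy' hΦ
  apply MM_le
  intro t
  rcases lt_or_ge (jmp t y) κ with h1 | h1
  · have h2 := le_MM t0 y'
    have h3 := jmp_lip t0 f y'
    have h4 := abs_ev_sub_le t0 f y'
    have h5 := abs_sub_abs_le_abs_sub (ev t0 f) (ev t0 y')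
    rw [norm_sub_rev] at h3 h4
    have h6 := abs_ev_le t f
    have h7 := abs_ev_sub_le t y f
    have h8 := abs_sub_abs_le_abs_sub (ev t y) (ev t f)
    linarith
  · have h2 := jmp_lip t y f
    have h3 : t ∈ hfin.toFinset := by
      simp only [Set.Finite.mem_toFinset, Set.mem_ofPred_eq]
      linarith
    have h4 : ev t y = ev t y' := hΦ t (Finset.mem_union_left _ h3)
    have h5 : jmp t y ≤ jmp t y' := by
      apply le_jmp
      · rw [← h4]; exact jmp_le_half t y
      · intro n
        by_cases hn : n ∈ N t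
        · have h6 : ev (child t n) y = ev (child t n) y' := by
            apply hΦ
            apply Finset.mem_union_right
            exact Finset.mem_biUnion.2 ⟨t, h3, Finset.mem_image_of_mem _ hn⟩
          rw [← h4, ← h6]
          exact jmp_le t y n
        · have h6 := hN t n hn
          have h7 := abs_ev_sub_le (child t n) y' f
          have h8 := abs_sub_abs_le_abs_sub (ev (child t n) y') (ev (child t n) f)
          have h9 := abs_sub_abs_le_abs_sub (ev t y') (ev (child t n) y')
          have h10 := jmp_le_half t y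
          rw [h4] at h10
          linarith
    have h6 := le_MM t y'
    rw [h4]
    linarith

/-- the bump -/
noncomputable def bump (f : X) : ℝ := max 0 (min 1 (2 - MM f))

theorem bump_continuous : Continuous bump :=
  continuous_const.max (continuous_const.min (continuous_const.sub MM_continuous))

theorem bump_zero : bump 0 = 1 := by
  have h : MM 0 = 0 := le_antisymm (by simpa using MM_le_norm 0) (by
    have := norm_le_MM 0
    simpa using this)
  unfold bump
  rw [h]
  norm_num

theorem bump_supp {f : X} (h : bump f ≠ 0) : ‖f‖ ≤ 2 := by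
  by_contra hcon
  push Not at hcon
  apply h
  have h1 := norm_le_MM f
  unfold bump
  apply max_eq_left
  refine (min_le_right _ _).trans ?_
  linarith

theorem bump_local (f : X) : ∃ η : ℝ, 0 < η ∧ ∃ Φ : Finset Node, ∀ y y' : X,
    ‖y - f‖ < η → ‖y' - f‖ < η → (∀ s ∈ Φ, ev s y = ev s y') → bump y = bump y' := by
  by_cases hf : f = 0
  · subst hf
    refine ⟨1 / 2, by norm_num, ∅, ?_⟩
    intro y y' hy hy' _
    have h : ∀ y : X, ‖y - 0‖ < 1 / 2 → bump y = 1 := by
      intro y hy
      rw [sub_zero] at hy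
      have h1 := MM_le_norm y
      unfold bump
      rw [min_eq_left (by linarith)]
      norm_num
    rw [h y hy, h y' hy']
  · obtain ⟨η, hη, Φ, h⟩ := MM_local f hf
    refine ⟨η, hη, Φ, fun y y' hy hy' hs => ?_⟩
    unfold bump
    rw [le_antisymm (h y y' hy hy' hs) (h y' y hy' hy fun s hs' => (hs s hs').symm)]

/-- the bump depends locally on finitely many coordinates -/
theorem bump_lfc (x : X) : ∃ O : Set X, IsOpen O ∧ x ∈ O ∧ ∃ (n : ℕ) (φ : Fin n → X →L[ℝ] ℝ)
    (g : (Fin n → ℝ) → ℝ), ∀ y ∈ O, bump y = g (fun i => φ i y) := by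
  classical
  obtain ⟨η, hη, Φ, h⟩ := bump_local x
  refine ⟨Metric.ball x η, Metric.isOpen_ball, Metric.mem_ball_self hη, Φ.card,
    fun i => ev (Φ.equivFin.symm i), ?_⟩
  let V : X → (Fin Φ.card → ℝ) := fun y i => ev (Φ.equivFin.symm i) y
  refine ⟨fun v => if hv : ∃ y ∈ Metric.ball x η, V y = v then bump hv.choose else 0, ?_⟩
  intro y hy
  have hv : ∃ y' ∈ Metric.ball x η, V y' = V y := ⟨y, hy, rfl⟩
  show bump y = if hv : ∃ y' ∈ Metric.ball x η, V y' = V y then bump hv.choose else 0
  rw [dif_pos hv]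
  obtain ⟨h1, h2⟩ := hv.choose_spec
  rw [Metric.mem_ball, dist_eq_norm] at hy h1
  apply h y _ hy h1
  intro s hs
  have h3 := congrFun h2 (Φ.equivFin ⟨s, hs⟩)
  simp only [V, Equiv.symm_apply_apply] at h3
  exact h3.symm

end Pool.Agent.Helper570.Tree
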