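import Pool.Agent.Helper570.Smooth

set_option autoImplicit false

namespace Pool.Agent.Helper570.Tree

open Set Filter Topology

variable {p : Seminorm ℝ X} {R C H ε : ℝ}

/-- Good pairs for the climb. -/
structure Good (p : Seminorm ℝ X) (R H : ℝ) (q : X × Node) : Prop where
  fin : End q.1 q.2
  stab : Stab p R q.1 q.2
  pos : 0 < ev q.2 q.1
  le : ev q.2 q.1 ≤ H

/-- The climbing relation. -/
structure Rel (p : Seminorm ℝ X) (ε : ℝ) (a b : X × Node) : Prop where
  le : a.2 ≤ b.2
  out : ∀ s, ¬ (a.2 < s ∧ s ≤ b.2) → ev s b.1 = ev s a.1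
  low : ∀ s, a.2 < s → s ≤ b.2 → ev a.2 a.1 ≤ ev s b.1
  upp : ∀ s, a.2 < s → s ≤ b.2 → ev s b.1 ≤ ev b.2 b.1
  val : ev a.2 a.1 ≤ ev b.2 b.1
  cost : p b.1 ≤ p a.1 + ε * (ev b.2 b.1 - ev a.2 a.1)

theorem Rel.refl (a : X × Node) : Rel p ε a a where
  le := le_rfl
  out := fun _ _ => rfl
  low := fun s h1 h2 => absurd h2 (not_le_of_gt h1)
  upp := fun s h1 h2 => absurd h2 (not_le_of_gt h1)
  val := le_rfl
  cost := by simp

theorem Rel.trans {a b c : X × Node} (h : Rel p ε a b) (h' : Rel p ε b c) : Rel p ε a c where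
  le := h.le.trans h'.le
  out := by
    intro s hs
    rw [h'.out s (fun h1 => hs ⟨h.le.trans_lt h1.1, h1.2⟩)]
    exact h.out s (fun h1 => hs ⟨h1.1, h1.2.trans h'.le⟩)
  low := by
    intro s h1 h2
    rcases comparable h2 h'.le with h3 | h3
    · rw [h'.out s (fun h4 => absurd h3 (not_le_of_gt h4.1))]
      exact h.low s h1 h3
    · rcases eq_or_lt_of_le h3 with h4 | h4
      · subst h4
        rw [h'.out _ (fun h4 => absurd h4.1 (lt_irrefl _))]
        exact h.val
      · exact h.val.trans (h'.low s h4 h2)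
  upp := by
    intro s h1 h2
    rcases comparable h2 h'.le with h3 | h3
    · rw [h'.out s (fun h4 => absurd h3 (not_le_of_gt h4.1))]
      exact (h.upp s h1 h3).trans h'.val
    · rcases eq_or_lt_of_le h3 with h4 | h4
      · subst h4
        rw [h'.out _ (fun h4 => absurd h4.1 (lt_irrefl _))]
        exact h'.val
      · exact h'.upp s h4 h2
  val := h.val.trans h'.val
  cost := by
    have h1 := h.cost
    have h2 := h'.cost
    linarith

theorem Good.ext {a : X × Node} (h : Good p R H a) (hR : H ≤ R) {u : Node} (hu : a.2 ≤ u) :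
    Good p R H (ext a.1 a.2 u, u) where
  fin := End_ext h.fin hu
  stab := h.stab.ext h.fin hu (by rw [abs_of_pos h.pos]; exact h.le.trans hR)
  pos := by
    show 0 < ev u (Tree.ext a.1 a.2 u)
    rw [ev_ext_top h.fin hu]; exact h.pos
  le := by
    show ev u (Tree.ext a.1 a.2 u) ≤ H
    rw [ev_ext_top h.fin hu]; exact h.le

theorem ev_ext_out {f : X} {t u s : Node} (htu : t ≤ u) (h : ¬ (t < s ∧ s ≤ u)) :
    ev s (ext f t u) = ev s f := by
  unfold ext
  rw [ev_add, ev_smul, ev_chi_sub_zero htu h]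
  simp

theorem ev_ext_in {f : X} {t u s : Node} (hf : End f t) (h1 : t < s) (h2 : s ≤ u) :
    ev s (ext f t u) = ev t f := by
  unfold ext
  rw [ev_add, ev_smul, ev_chi_sub h1 h2, hf s h1]
  simp

theorem Good.rel_ext {a : X × Node} (h : Good p R H a) {u : Node} (hu : a.2 ≤ u) :
    Rel p ε a (Tree.ext a.1 a.2 u, u) where
  le := hu
  out := fun s hs => ev_ext_out hu hs
  low := fun s h1 h2 => (ev_ext_in h.fin h1 h2).ge
  upp := fun s h1 h2 => by
    show ev s (Tree.ext a.1 a.2 u) ≤ ev u (Tree.ext a.1 a.2 u)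
    rw [ev_ext_in h.fin h1 h2, ev_ext_top h.fin hu]
  val := (ev_ext_top h.fin hu).ge
  cost := by
    show p (Tree.ext a.1 a.2 u) ≤ p a.1 + ε * (ev u (Tree.ext a.1 a.2 u) - ev a.2 a.1)
    rw [ev_ext_top h.fin hu, h.stab.const u hu]
    simp

theorem norm_ext_sub {a b : X × Node} {w : Node} (ha : End a.1 a.2) (hb : End b.1 b.2)
    (h : Rel p ε a b) (hw : b.2 ≤ w) :
    ‖ext b.1 b.2 w - ext a.1 a.2 w‖ ≤ ev b.2 b.1 - ev a.2 a.1 := by
  have h0 : 0 ≤ ev b.2 b.1 - ev a.2 a.1 := by linarith [h.val]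
  apply norm_le_of h0
  intro s
  rw [ev_sub]
  by_cases h1 : a.2 < s ∧ s ≤ w
  · rw [ev_ext_in ha h1.1 h1.2]
    by_cases h2 : b.2 < s
    · rw [ev_ext_in hb h2 h1.2, abs_of_nonneg h0]
    · rw [ev_ext_out hw (fun h3 => h2 h3.1)]
      have h3 : s ≤ b.2 := by
        rcases comparable h1.2 hw with h3 | h3
        · exact h3
        · rcases eq_or_lt_of_le h3 with h4 | h4
          · exact h4.ge
          · exact absurd h4 h2
      rw [abs_of_nonneg (by linarith [h.low s h1.1 h3])]
      linarith [h.upp s h1.1 h3]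
  · rw [ev_ext_out (h.le.trans hw) h1, ev_ext_out hw, h.out s, sub_self, abs_zero]
    · exact h0
    · exact fun h2 => h1 ⟨h2.1, h2.2.trans hw⟩
    · exact fun h2 => h1 ⟨h.le.trans_lt h2.1, h2.2⟩

/-- stability is a closed condition -/
theorem stab_closed (hC : 0 ≤ C) (hp : ∀ x, p x ≤ C * ‖x‖) {h : ℕ → X} {g : X} {w : Node}
    (hlim : Tendsto h atTop (𝓝 g)) (hs : ∀ n, Stab p R (h n) w) : Stab p R g w := by
  have hpc := p_continuous hC hp
  constructor
  · intro u hu
    have h1 : Tendsto (fun n => ext (h n) w u) atTop (𝓝 (ext g w u)) := by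
      unfold ext
      exact hlim.add ((((ev w).continuous.tendsto g).comp hlim).smul_const _)
    have h2 := (hpc.tendsto _).comp h1
    have h3 := (hpc.tendsto _).comp hlim
    refine tendsto_nhds_unique h2 (h3.congr fun n => ?_)
    exact ((hs n).const u hu).symm
  · intro φ h1 h2
    have h3 := (hpc.tendsto _).comp hlim
    have h4 := (hpc.tendsto _).comp (hlim.add_const φ)
    exact le_of_tendsto_of_tendsto' h3 h4 fun n => (hs n).min φ h1 h2

theorem climb_sigma (hC : 0 ≤ C) (hp : ∀ x, p x ≤ C * ‖x‖) (hR : H ≤ R)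
    (q : ℕ → X × Node) (hg : ∀ n, Good p R H (q n)) (hq : ∀ n, Rel p ε (q n) (q (n + 1))) :
    ∃ a : X × Node, Good p R H a ∧ ∀ n, Rel p ε (q n) a := by
  have hmon : ∀ n m, n ≤ m → Rel p ε (q n) (q m) := by
    intro n m hnm
    induction m, hnm using Nat.le_induction with
    | base => exact Rel.refl _
    | succ m _ ih => exact ih.trans (hq m)
  obtain ⟨w, hw⟩ := exists_ub_node (fun n => (q n).2) (fun n => (hq n).le)
  let b : ℕ → ℝ := fun n => ev (q n).2 (q n).1
  have hbm : Monotone b := fun n m hnm => (hmon n m hnm).val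
  have hbb : BddAbove (Set.range b) := ⟨H, by rintro x ⟨n, rfl⟩; exact (hg n).le⟩
  have hbt : Tendsto b atTop (𝓝 (⨆ n, b n)) := tendsto_atTop_ciSup hbm hbb
  have hble : ∀ n, b n ≤ ⨆ n, b n := fun n => le_ciSup hbb n
  let h : ℕ → X := fun n => ext (q n).1 (q n).2 w
  have hdist : ∀ n m, n ≤ m → dist (h n) (h m) ≤ (⨆ n, b n) - b n := by
    intro n m hnm
    rw [dist_comm, dist_eq_norm]
    refine (norm_ext_sub (hg n).fin (hg m).fin (hmon n m hnm) (hw m)).trans ?_
    have := hble m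
    show b m - b n ≤ _
    linarith
  have hcau : CauchySeq h := by
    apply cauchySeq_of_le_tendsto_0' _ hdist
    have := hbt.const_sub (⨆ n, b n)
    simpa using this
  obtain ⟨g, hglim⟩ := cauchySeq_tendsto_of_complete hcau
  have hev : ∀ s, Tendsto (fun n => ev s (h n)) atTop (𝓝 (ev s g)) := fun s =>
    ((ev s).continuous.tendsto g).comp hglim
  have hgood : ∀ n, Good p R H (h n, w) := fun n => (hg n).ext hR (hw n)
  have hrel : ∀ n m, n ≤ m → Rel p ε (q n) (h m, w) := fun n m hnm =>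
    (hmon n m hnm).trans ((hg m).rel_ext (hw m))
  have hpc := p_continuous hC hp
  refine ⟨(g, w), ⟨?_, ?_, ?_, ?_⟩, ?_⟩
  · intro s hs
    refine tendsto_nhds_unique (hev s) ?_
    refine tendsto_const_nhds.congr fun n => ?_
    exact ((hgood n).fin s hs).symm
  · exact stab_closed hC hp hglim fun n => (hgood n).stab
  · have h1 : ev (q 0).2 (q 0).1 ≤ ev w g :=
      ge_of_tendsto' (hev w) fun n => (hrel 0 n (Nat.zero_le n)).val
    exact (hg 0).pos.trans_le h1
  · exact le_of_tendsto' (hev w) fun n => (hgood n).le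
  · intro n
    refine ⟨hw n, ?_, ?_, ?_, ?_, ?_⟩
    · intro s hs
      refine tendsto_nhds_unique (hev s) ?_
      refine tendsto_const_nhds.congr' ?_
      filter_upwards [eventually_ge_atTop n] with m hm
      exact ((hrel n m hm).out s hs).symm
    · intro s h1 h2
      refine ge_of_tendsto (hev s) ?_
      filter_upwards [eventually_ge_atTop n] with m hm
      exact (hrel n m hm).low s h1 h2
    · intro s h1 h2
      refine le_of_tendsto_of_tendsto (hev s) (hev w) ?_
      filter_upwards [eventually_ge_atTop n] with m hm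
      exact (hrel n m hm).upp s h1 h2
    · refine ge_of_tendsto (hev w) ?_
      filter_upwards [eventually_ge_atTop n] with m hm
      exact (hrel n m hm).val
    · have h1 : Tendsto (fun m => p (h m)) atTop (𝓝 (p g)) := (hpc.tendsto _).comp hglim
      have h2 : Tendsto (fun m => p (q n).1 + ε * (ev w (h m) - ev (q n).2 (q n).1)) atTop
          (𝓝 (p (q n).1 + ε * (ev w g - ev (q n).2 (q n).1))) :=
        (((hev w).sub_const _).const_mul ε).const_add _
      refine le_of_tendsto_of_tendsto h1 h2 ?_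
      filter_upwards [eventually_ge_atTop n] with m hm
      exact (hrel n m hm).cost

/-- The climbing lemma. -/
theorem climb (hC : 0 ≤ C) (hp : ∀ x, p x ≤ C * ‖x‖)
    (hd : ∀ x : X, x ≠ 0 → DifferentiableAt ℝ p x) (hR : H < R) (hε : 0 < ε)
    {a : X × Node} (ha : Good p R H a) :
    ∃ b : X × Node, Good p R H b ∧ Rel p ε a b ∧ ev b.2 b.1 = H := by
  obtain ⟨⟨b, hb⟩, h1, h2⟩ := mono_principle (Q := {q : X × Node // Good p R H q})
    (fun x y => Rel p ε x.1 y.1) (fun x => Rel.refl _) (fun x y z => Rel.trans)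
    (fun q hq => by
      obtain ⟨b, hb1, hb2⟩ := climb_sigma hC hp hR.le (fun n => (q n).1) (fun n => (q n).2) hq
      exact ⟨⟨b, hb1⟩, hb2⟩)
    (fun x => ev x.1.2 x.1.1) H (fun x y h => h.val) (fun x => x.2.le) ⟨a, ha⟩
  refine ⟨b, hb, h1, ?_⟩
  rcases eq_or_lt_of_le hb.le with h3 | h3
  · exact h3
  exfalso
  obtain ⟨u, c, htu, hc1, hc2, hst, hco⟩ := one_step hC hp hd hb.fin hb.stab hb.pos h3 hR hε
  have hev : ev u (b.1 + c • (chi u - chi b.2)) = c := ev_add_smul_top c hb.fin htu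
  have hg : Good p R H (b.1 + c • (chi u - chi b.2), u) :=
    ⟨End_add_smul c hb.fin htu.le, hst, by
      show 0 < ev u (b.1 + c • (chi u - chi b.2))
      rw [hev]; exact hb.pos.trans hc1, by
      show ev u (b.1 + c • (chi u - chi b.2)) ≤ H
      rw [hev]; exact hc2⟩
  have hin : ∀ s, b.2 < s → s ≤ u → ev s (b.1 + c • (chi u - chi b.2)) = c := by
    intro s h1 h2
    rw [ev_add, ev_smul, hb.fin s h1, ev_chi_sub h1 h2]
    simp
  have hr : Rel p ε b (b.1 + c • (chi u - chi b.2), u) := by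
    refine ⟨htu.le, ?_, ?_, ?_, ?_, ?_⟩
    · intro s hs
      show ev s (b.1 + c • (chi u - chi b.2)) = ev s b.1
      rw [ev_add, ev_smul, ev_chi_sub_zero htu.le hs]
      simp
    · intro s h1 h2
      show _ ≤ ev s (b.1 + c • (chi u - chi b.2))
      rw [hin s h1 h2]; exact hc1.le
    · intro s h1 h2
      show ev s (b.1 + c • (chi u - chi b.2)) ≤ ev u (b.1 + c • (chi u - chi b.2))
      rw [hin s h1 h2, hev]
    · show _ ≤ ev u (b.1 + c • (chi u - chi b.2))
      rw [hev]; exact hc1.le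
    · show p (b.1 + c • (chi u - chi b.2)) ≤ p b.1 + ε * (ev u (b.1 + c • (chi u - chi b.2)) - ev b.2 b.1)
      rw [hev]; exact hco
  have h4 := h2 ⟨_, hg⟩ hr
  have h5 : ev u (b.1 + c • (chi u - chi b.2)) = ev b.2 b.1 := h4
  rw [hev] at h5
  linarith

/-- Far out, differences of indicators have small seminorm. -/
theorem small_diff (hC : 0 ≤ C) (hp : ∀ x, p x ≤ C * ‖x‖)
    (hd : ∀ x : X, x ≠ 0 → DifferentiableAt ℝ p x) (t : Node) {δ : ℝ} (hδ : 0 < δ) :
    ∃ u, t ≤ u ∧ ∀ v, u ≤ v → p (chi v - chi u) ≤ δ := by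
  -- parameters
  set H : ℝ := max 1 (4 * C / δ) with hH
  have hH1 : 1 ≤ H := le_max_left _ _
  have hH2 : 4 * C / δ ≤ H := le_max_right _ _
  have hH3 : 4 * C ≤ H * δ := by rwa [div_le_iff₀ hδ] at hH2
  have hend : End (chi t) t := fun s hs => ev_chi_not (not_le_of_gt hs)
  obtain ⟨t1, ht1, hst⟩ := stab_exists (p := p) (R := H + 1) hC hp hend (by
    rw [ev_chi_le le_rfl, abs_one]; linarith)
  have hext : ext (chi t) t t1 = chi t1 := by
    unfold ext
    rw [ev_chi_le le_rfl]
    module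
  rw [hext] at hst
  have hgood : Good p (H + 1) H (chi t1, t1) :=
    ⟨fun s hs => ev_chi_not (not_le_of_gt hs), hst, by
      show 0 < ev t1 (chi t1)
      rw [ev_chi_le le_rfl]; exact one_pos, by
      show ev t1 (chi t1) ≤ H
      rw [ev_chi_le le_rfl]; exact hH1⟩
  obtain ⟨b, hb1, hb2, hb3⟩ := climb (ε := δ / 4) hC hp hd (by linarith) (by positivity) hgood
  have hpb : p b.1 ≤ C + δ / 4 * (H - 1) := by
    have h1 := hb2.cost
    rw [hb3] at h1
    have h2 : ev t1 (chi t1) = 1 := ev_chi_le le_rfl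
    have h3 : p (chi t1) ≤ C := (hp _).trans (by
      have := norm_chi_le t1
      nlinarith)
    simp only [h2] at h1
    linarith
  refine ⟨b.2, ht1.trans hb2.le, fun v hv => ?_⟩
  have h1 : H • (chi v - chi b.2) = ext b.1 b.2 v - b.1 := by
    unfold ext
    rw [hb3]
    module
  have h2 : H * p (chi v - chi b.2) = p (H • (chi v - chi b.2)) := by
    rw [map_smul_eq_mul, Real.norm_of_nonneg (by linarith)]
  have h3 : p (H • (chi v - chi b.2)) ≤ p b.1 + p b.1 := by
    rw [h1]
    refine (map_sub_le_add p _ _).trans ?_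
    rw [hb1.stab.const v hv]
  have h4 : H * p (chi v - chi b.2) ≤ H * δ := by
    rw [h2]
    refine h3.trans ?_
    nlinarith
  exact le_of_mul_le_mul_left h4 (by linarith)

/-- No continuous norm on the tree space is differentiable away from the origin. -/
theorem no_smooth_norm (hC : 0 ≤ C) (hp : ∀ x, p x ≤ C * ‖x‖)
    (hd : ∀ x : X, x ≠ 0 → DifferentiableAt ℝ p x) (h0 : ∀ x, p x = 0 → x = 0) : False := by
  obtain ⟨b⟩ : Nonempty W := inferInstance
  let t0 : Node := ⟨b, fun _ => 0, fun _ _ => rfl⟩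
  obtain ⟨u, -, hu⟩ := sigma_principle
    (fun n u => ∀ v w, u ≤ v → v ≤ w → p (chi w - chi v) ≤ 1 / ((n : ℝ) + 1))
    (fun n s t hst h v w h1 h2 => h v w (hst.trans h1) h2) t0
    (fun n s _ => by
      obtain ⟨u, hu1, hu2⟩ := small_diff (δ := 1 / ((n : ℝ) + 1) / 2) hC hp hd s (by positivity)
      refine ⟨u, hu1, fun v w h1 h2 => ?_⟩
      have h3 : chi w - chi v = (chi w - chi u) - (chi v - chi u) := by module
      rw [h3]
      refine (map_sub_le_add p _ _).trans ?_
      have h4 := hu2 w (h1.trans h2)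
      have h5 := hu2 v h1
      linarith)
  have h1 : p (chi (child u 0) - chi u) ≤ 0 := by
    have h2 : Tendsto (fun n : ℕ => 1 / ((n : ℝ) + 1)) atTop (𝓝 0) :=
      tendsto_one_div_add_atTop_nhds_zero_nat
    exact ge_of_tendsto' h2 fun n => hu n u (child u 0) le_rfl (lt_child u 0).le
  have h2 : p (chi (child u 0) - chi u) = 0 := le_antisymm h1 (apply_nonneg p _)
  have h3 := h0 _ h2
  have h4 : ev (child u 0) (chi (child u 0) - chi u) = 1 := ev_chi_sub (lt_child u 0) le_rfl
  rw [h3, map_zero] at h4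
  exact zero_ne_one h4

end Pool.Agent.Helper570.Tree
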