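import Pool.Agent.Helper570.Coherent

set_option autoImplicit false

namespace Pool.Agent.Helper570.Tree

open Set

/-- The countable discrete set. -/
abbrev Dt : Type := ℕ × Finset (ℕ × ℕ)

noncomputable def rk (k : ℕ) (a : W) (x : W) : ℕ := ((SS a k).filter (· < x)).card

noncomputable def PP (k : ℕ) (t : Node) (a : W) : Finset (ℕ × ℕ) :=
  ((SS t.len k).filter (· < a)).image (fun x => (rk k t.len x, t.val x))

/-- The set of codes of a node. -/
def AA (t : Node) : Set Dt := {d | ∃ a, d.2 = PP d.1 t a}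

theorem mem_PP {k : ℕ} {t : Node} {a : W} {z : ℕ × ℕ} :
    z ∈ PP k t a ↔ ∃ x, x ∈ SS t.len k ∧ x < a ∧ (rk k t.len x, t.val x) = z := by
  unfold PP
  rw [Finset.mem_image]
  constructor
  · rintro ⟨x, hx, h⟩
    rw [Finset.mem_filter] at hx
    exact ⟨x, hx.1, hx.2, h⟩
  · rintro ⟨x, h1, h2, h3⟩
    exact ⟨x, Finset.mem_filter.2 ⟨h1, h2⟩, h3⟩

theorem PP_subset (k : ℕ) (t : Node) (a : W) : PP k t a ⊆ PP k t t.len := by
  intro z hz
  rw [mem_PP] at hz ⊢
  obtain ⟨x, h1, h2, h3⟩ := hz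
  exact ⟨x, h1, (mem_SS.1 h1).1, h3⟩

theorem PP_ge {k : ℕ} {t : Node} {a : W} (h : t.len ≤ a) : PP k t a = PP k t t.len := by
  apply Finset.Subset.antisymm (PP_subset k t a)
  intro z hz
  rw [mem_PP] at hz ⊢
  obtain ⟨x, h1, h2, h3⟩ := hz
  exact ⟨x, h1, h2.trans_le h, h3⟩

theorem rk_congr {k : ℕ} {a b c : W} (h : ∀ x, x < c → (x ∈ SS a k ↔ x ∈ SS b k)) :
    rk k a c = rk k b c := by
  unfold rk
  congr 1
  ext x
  rw [Finset.mem_filter, Finset.mem_filter]
  constructor
  · rintro ⟨h1, h2⟩; exact ⟨(h x h2).1 h1, h2⟩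
  · rintro ⟨h1, h2⟩; exact ⟨(h x h2).2 h1, h2⟩

theorem rk_inj {k : ℕ} {a x y : W} (hx : x ∈ SS a k) (hy : y ∈ SS a k) (h : rk k a x = rk k a y) :
    x = y := by
  have key : ∀ x y : W, x ∈ SS a k → x < y → rk k a x < rk k a y := by
    intro x y hx hxy
    unfold rk
    apply Finset.card_lt_card
    rw [Finset.ssubset_iff_of_subset]
    · exact ⟨x, Finset.mem_filter.2 ⟨hx, hxy⟩, fun h => lt_irrefl _ (Finset.mem_filter.1 h).2⟩
    · intro z hz
      rw [Finset.mem_filter] at hz ⊢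
      exact ⟨hz.1, hz.2.trans hxy⟩
  rcases lt_trichotomy x y with h1 | h1 | h1
  · exact absurd h (key x y hx h1).ne
  · exact h1
  · exact absurd h (key y x hy h1).ne'

theorem PP_restrict {k : ℕ} {s t : Node} {a : W} (hst : s ≤ t)
    (h : ∀ x, x < s.len → (x ∈ SS s.len k ↔ x ∈ SS t.len k)) (ha : a ≤ s.len) :
    PP k s a = PP k t a := by
  have hr : ∀ x, x < s.len → rk k s.len x = rk k t.len x := fun x hx =>
    rk_congr fun y hy => h y (hy.trans hx)
  ext z
  rw [mem_PP, mem_PP]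
  constructor
  · rintro ⟨x, h1, h2, h3⟩
    have hx : x < s.len := h2.trans_le ha
    refine ⟨x, (h x hx).1 h1, h2, ?_⟩
    rw [← hr x hx, ← hst.2 x hx]; exact h3
  · rintro ⟨x, h1, h2, h3⟩
    have hx : x < s.len := h2.trans_le ha
    refine ⟨x, (h x hx).2 h1, h2, ?_⟩
    rw [hr x hx, hst.2 x hx]; exact h3

theorem PP_card (k : ℕ) (t : Node) : (PP k t t.len).card = (SS t.len k).card := by
  unfold PP
  have h1 : (SS t.len k).filter (· < t.len) = SS t.len k := by
    rw [Finset.filter_eq_self]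
    intro x hx
    exact (mem_SS.1 hx).1
  rw [h1]
  apply Finset.card_image_of_injOn
  intro x hx y hy hxy
  exact rk_inj hx hy (congrArg Prod.fst hxy)

theorem AA_low (t : Node) (K : ℕ) : {d | d ∈ AA t ∧ d.1 < K}.Finite := by
  have hfin : (⋃ k ∈ Set.Iio K, (fun P : Finset (ℕ × ℕ) => ((k, P) : Dt)) ''
      {P | P ⊆ PP k t t.len}).Finite := by
    apply (Set.finite_Iio K).biUnion
    intro k _
    apply Set.Finite.image
    apply ((PP k t t.len).powerset.finite_toSet).subset
    intro P hP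
    exact Finset.mem_coe.2 (Finset.mem_powerset.2 hP)
  apply hfin.subset
  rintro ⟨k, P⟩ ⟨⟨a, ha⟩, hk⟩
  simp only [Set.mem_iUnion]
  refine ⟨k, hk, P, ?_, rfl⟩
  simp only at ha
  rw [Set.mem_ofPred_eq, ha]
  exact PP_subset k t a

theorem finite_of_low {S : Set Dt} {t : Node} (h : S ⊆ AA t) (K : ℕ)
    (hK : ∀ d ∈ S, K ≤ d.1 → False) : S.Finite := by
  apply (AA_low t K).subset
  intro d hd
  exact ⟨h hd, not_le.1 fun h1 => hK d hd h1⟩

theorem AA_mono {s t : Node} (h : s ≤ t) : (AA s \ AA t).Finite := by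
  obtain ⟨K, hK⟩ := SS_eventually s.len t.len
  apply finite_of_low (t := s) (fun d hd => hd.1) K
  rintro ⟨k, P⟩ ⟨⟨a, ha⟩, h2⟩ hk
  apply h2
  simp only at ha hk
  have hS : ∀ x, x < s.len → (x ∈ SS s.len k ↔ x ∈ SS t.len k) := fun x hx =>
    hK k hk x hx (hx.trans_le h.1)
  rcases le_total a s.len with h3 | h3
  · exact ⟨a, by simp only; rw [ha]; exact PP_restrict h hS h3⟩
  · exact ⟨s.len, by simp only; rw [ha, PP_ge h3]; exact PP_restrict h hS le_rfl⟩

theorem exists_meet (t u : Node) : ∃ v, v ≤ t ∧ v ≤ u ∧ ((AA t ∩ AA u) \ AA v).Finite := by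
  by_cases h1 : t ≤ u
  · refine ⟨t, le_rfl, h1, ?_⟩
    convert Set.finite_empty (α := Dt)
    ext d
    simp only [Set.mem_sdiff, Set.mem_inter_iff, Set.mem_empty_iff_false, iff_false]
    tauto
  by_cases h2 : u ≤ t
  · refine ⟨u, h2, le_rfl, ?_⟩
    convert Set.finite_empty (α := Dt)
    ext d
    simp only [Set.mem_sdiff, Set.mem_inter_iff, Set.mem_empty_iff_false, iff_false]
    tauto
  -- first difference
  have hex : ∃ c, c < t.len ∧ c < u.len ∧ t.val c ≠ u.val c := by
    by_contra hcon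
    push Not at hcon
    rcases le_total t.len u.len with h | h
    · exact h1 ⟨h, fun c hc => hcon c hc (hc.trans_le h)⟩
    · exact h2 ⟨h, fun c hc => (hcon c (hc.trans_le h) hc).symm⟩
  obtain ⟨c, ⟨hc1, hc2, hc3⟩, hcmin⟩ := WellFounded.has_min (wellFounded_lt (α := W))
    {c | c < t.len ∧ c < u.len ∧ t.val c ≠ u.val c} hex
  have hagree : ∀ x, x < c → t.val x = u.val x := by
    intro x hx
    by_contra h
    exact hcmin x ⟨hx.trans hc1, hx.trans hc2, h⟩ hx
  set v := res t c with hv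
  have hvlen : v.len = c := rfl
  have hvt : v ≤ t := res_le hc1.le
  have hvu : v ≤ u := ⟨hc2.le, fun x hx => by
    have hx' : x < c := hx
    rw [hvt.2 x hx, hagree x hx']⟩
  refine ⟨v, hvt, hvu, ?_⟩
  obtain ⟨K1, hK1⟩ := SS_eventually v.len t.len
  obtain ⟨K2, hK2⟩ := SS_eventually v.len u.len
  obtain ⟨K3, hK3⟩ := SS_eventually t.len u.len
  apply finite_of_low (t := t) (fun d hd => hd.1.1) (max (max K1 K2) (max K3 (max (cg t.len c)
    (cg u.len c))))
  rintro ⟨k, P⟩ ⟨⟨⟨a, ha⟩, ⟨b, hb⟩⟩, hnot⟩ hk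
  simp only at ha hb hk
  have hkK1 : K1 ≤ k := (le_max_left _ _).trans ((le_max_left _ _).trans hk)
  have hkK2 : K2 ≤ k := (le_max_right _ _).trans ((le_max_left _ _).trans hk)
  have hk' := (le_max_right _ _).trans hk
  have hkK3 : K3 ≤ k := (le_max_left _ _).trans hk'
  have hk'' := (le_max_right _ _).trans hk'
  have hct : c ∈ SS t.len k := mem_SS.2 ⟨hc1, (le_max_left _ _).trans hk''⟩
  have hcu : c ∈ SS u.len k := mem_SS.2 ⟨hc2, (le_max_right _ _).trans hk''⟩
  have hSt : ∀ x, x < v.len → (x ∈ SS v.len k ↔ x ∈ SS t.len k) := fun x hx =>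
    hK1 k hkK1 x hx (hx.trans_le hvt.1)
  have hSu : ∀ x, x < v.len → (x ∈ SS v.len k ↔ x ∈ SS u.len k) := fun x hx =>
    hK2 k hkK2 x hx (hx.trans_le hvu.1)
  rcases le_or_gt a c with h3 | h3
  · exact hnot ⟨a, by simp only; rw [ha]; exact (PP_restrict hvt hSt h3).symm⟩
  rcases le_or_gt b c with h4 | h4
  · exact hnot ⟨b, by simp only; rw [hb]; exact (PP_restrict hvu hSu h4).symm⟩
  have h5 : (rk k t.len c, t.val c) ∈ PP k t a := mem_PP.2 ⟨c, hct, h3, rfl⟩
  rw [← ha, hb, mem_PP] at h5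
  obtain ⟨x, hx1, hx2, hx3⟩ := h5
  have h6 : rk k t.len c = rk k u.len c := rk_congr fun y hy =>
    hK3 k hkK3 y (hy.trans hc1) (hy.trans hc2)
  have h7 : rk k u.len x = rk k u.len c := by
    rw [← h6]; exact congrArg Prod.fst hx3
  have h8 : x = c := rk_inj hx1 hcu h7
  have h9 : u.val x = t.val c := congrArg Prod.snd hx3
  rw [h8] at h9
  exact hc3 h9.symm

theorem AA_top_mem (t : Node) (k : ℕ) : ((k, PP k t t.len) : Dt) ∈ AA t := ⟨t.len, rfl⟩

theorem AA_infinite (t : Node) : (AA t).Infinite := by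
  have h : Function.Injective (fun k : ℕ => ((k, PP k t t.len) : Dt)) := fun a b hab =>
    congrArg Prod.fst hab
  apply (Set.infinite_range_of_injective h).mono
  rintro _ ⟨k, rfl⟩
  exact AA_top_mem t k

theorem AA_diff_infinite {s t : Node} (h : s < t) : (AA t \ AA s).Infinite := by
  obtain ⟨K, hK⟩ := SS_eventually s.len t.len
  set K0 := max K (cg t.len s.len) with hK0
  have hinj : Function.Injective (fun k : ℕ => ((k + K0, PP (k + K0) t t.len) : Dt)) := by
    intro a b hab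
    have := congrArg Prod.fst hab
    simp only at this
    omega
  apply (Set.infinite_range_of_injective hinj).mono
  rintro _ ⟨j, rfl⟩
  refine ⟨AA_top_mem t _, ?_⟩
  rintro ⟨a, ha⟩
  simp only at ha
  set k := j + K0 with hk
  have hkK : K ≤ k := (le_max_left _ _).trans (Nat.le_add_left _ _)
  have hkc : cg t.len s.len ≤ k := (le_max_right _ _).trans (Nat.le_add_left _ _)
  have hlen : s.len < t.len := len_lt h
  have h1 : (PP k s a).card ≤ (SS s.len k).card := by
    rw [← PP_card]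
    exact Finset.card_le_card (PP_subset k s a)
  have h2 : (SS s.len k).card < (SS t.len k).card := by
    apply Finset.card_lt_card
    rw [Finset.ssubset_iff_of_subset]
    · exact ⟨s.len, mem_SS.2 ⟨hlen, hkc⟩, fun h3 => lt_irrefl _ (mem_SS.1 h3).1⟩
    · intro x hx
      have hx' : x < s.len := (mem_SS.1 hx).1
      exact (hK k hkK x hx' (hx'.trans hlen)).1 hx
  rw [← ha, PP_card] at h1
  exact absurd h1 (not_le.2 h2)

/-- Away from a finite set every code behaves like a node with respect to finitely many nodes. -/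
theorem approx_node (F : Finset Node) : ∃ E : Set Dt, E.Finite ∧ ∀ d, d ∉ E →
    (∃ s, ∀ t ∈ F, d ∈ AA t ↔ s ≤ t) ∨ (∀ t ∈ F, d ∉ AA t) := by
  classical
  choose m hm1 hm2 hm3 using exists_meet
  set M : Finset Node := F ∪ (F ×ˢ F).image (fun z => m z.1 z.2) with hM
  set E : Set Dt := (⋃ t ∈ F, ⋃ u ∈ F, ((AA t ∩ AA u) \ AA (m t u))) ∪
    (⋃ s ∈ M, ⋃ t ∈ M, if s ≤ t then AA s \ AA t else ∅) with hE
  refine ⟨E, ?_, ?_⟩
  · apply Set.Finite.union
    · apply F.finite_toSet.biUnion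
      intro t _
      apply F.finite_toSet.biUnion
      intro u _
      exact hm3 t u
    · apply M.finite_toSet.biUnion
      intro s _
      apply M.finite_toSet.biUnion
      intro t _
      split_ifs with h
      · exact AA_mono h
      · exact Set.finite_empty
  · intro d hd
    have hE1 : ∀ t ∈ F, ∀ u ∈ F, d ∈ AA t → d ∈ AA u → d ∈ AA (m t u) := by
      intro t ht u hu h1 h2
      by_contra h3
      apply hd
      left
      simp only [Set.mem_iUnion]
      exact ⟨t, ht, u, hu, ⟨h1, h2⟩, h3⟩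
    have hE2 : ∀ s ∈ M, ∀ t ∈ M, s ≤ t → d ∈ AA s → d ∈ AA t := by
      intro s hs t ht hst h1
      by_contra h2
      apply hd
      right
      simp only [Set.mem_iUnion]
      refine ⟨s, hs, t, ht, ?_⟩
      rw [if_pos hst]
      exact ⟨h1, h2⟩
    by_cases hI : ∃ t0 ∈ F, d ∈ AA t0
    · left
      obtain ⟨t0, ht0, hdt0⟩ := hI
      have ht0M : t0 ∈ M := Finset.mem_union_left _ ht0
      obtain ⟨s, ⟨hs1, hs2, hs3⟩, hmin⟩ := WellFounded.has_min (wellFounded_lt (α := Node))
        {v | v ∈ M ∧ v ≤ t0 ∧ d ∈ AA v} ⟨t0, ht0M, le_rfl, hdt0⟩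
      refine ⟨s, fun t ht => ⟨fun h1 => ?_, fun h1 => ?_⟩⟩
      · have h2 := hE1 t0 ht0 t ht hdt0 h1
        have h3 : m t0 t ∈ M := Finset.mem_union_right _
          (Finset.mem_image.2 ⟨(t0, t), Finset.mem_product.2 ⟨ht0, ht⟩, rfl⟩)
        rcases comparable hs2 (hm1 t0 t) with h4 | h4
        · exact h4.trans (hm2 t0 t)
        · rcases h4.eq_or_lt with h5 | h5
          · rw [← h5]; exact hm2 t0 t
          · exact absurd h5 (hmin _ ⟨h3, hm1 t0 t, h2⟩)
      · exact hE2 s hs1 t (Finset.mem_union_left _ ht) h1 hs3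
    · right
      push Not at hI
      exact hI

/-- Codes accumulate at every node. -/
theorem dense_node (F : Finset Node) (t : Node) (E : Set Dt) (hE : E.Finite) :
    ∃ d, d ∉ E ∧ ∀ u ∈ F, d ∈ AA u ↔ t ≤ u := by
  classical
  choose m hm1 hm2 hm3 using exists_meet
  -- bad nodes
  set G : Finset Node := (F.filter fun u => ¬ t ≤ u).image (m t) with hG
  have hGlt : ∀ s ∈ G, s < t := by
    intro s hs
    obtain ⟨u, hu, rfl⟩ := Finset.mem_image.1 hs
    have h1 := (Finset.mem_filter.1 hu).2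
    refine lt_of_le_of_ne (hm1 t u) fun h2 => h1 ?_
    have h3 := hm2 t u
    rw [h2] at h3
    exact h3
  have hinf : (AA t \ (⋃ s ∈ G, AA s)).Infinite := by
    rcases G.eq_empty_or_nonempty with h0 | h0
    · rw [h0]
      simpa using AA_infinite t
    · obtain ⟨s, hs, hmax⟩ := G.exists_maximal h0
      intro hcon
      apply AA_diff_infinite (hGlt s hs)
      have hfin : ((AA t \ (⋃ s ∈ G, AA s)) ∪ ⋃ s' ∈ G, (AA s' \ AA s)).Finite := by
        apply hcon.union
        apply G.finite_toSet.biUnion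
        intro s' hs'
        apply AA_mono
        rcases comparable (hGlt s hs).le (hGlt s' hs').le with h1 | h1
        · exact hmax hs' h1
        · exact h1
      apply hfin.subset
      rintro d ⟨h1, h2⟩
      by_cases h3 : ∃ s' ∈ G, d ∈ AA s'
      · right
        obtain ⟨s', hs', h4⟩ := h3
        simp only [Set.mem_iUnion]
        exact ⟨s', hs', h4, h2⟩
      · left
        refine ⟨h1, ?_⟩
        simp only [Set.mem_iUnion, not_exists]
        intro s' hs' h4
        exact h3 ⟨s', hs', h4⟩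
  set E' : Set Dt := E ∪ (⋃ u ∈ F, ((AA t ∩ AA u) \ AA (m t u))) ∪
    (⋃ u ∈ F, if t ≤ u then AA t \ AA u else ∅) with hE'
  have hE'fin : E'.Finite := by
    apply Set.Finite.union
    · apply hE.union
      apply F.finite_toSet.biUnion
      intro u _
      exact hm3 t u
    · apply F.finite_toSet.biUnion
      intro u _
      split_ifs with h
      · exact AA_mono h
      · exact Set.finite_empty
  obtain ⟨d, ⟨hd1, hd2⟩, hd3⟩ := (hinf.sdiff hE'fin).nonempty
  refine ⟨d, fun h => hd3 (Or.inl (Or.inl h)), fun u hu => ⟨fun h1 => ?_, fun h1 => ?_⟩⟩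
  · by_contra h2
    apply hd2
    have h3 : d ∈ AA (m t u) := by
      by_contra h4
      apply hd3
      left; right
      simp only [Set.mem_iUnion]
      exact ⟨u, hu, ⟨hd1, h1⟩, h4⟩
    simp only [Set.mem_iUnion]
    exact ⟨m t u, Finset.mem_image_of_mem _ (Finset.mem_filter.2 ⟨hu, h2⟩), h3⟩
  · by_contra h2
    apply hd3
    right
    simp only [Set.mem_iUnion]
    refine ⟨u, hu, ?_⟩
    rw [if_pos h1]
    exact ⟨hd1, h2⟩

end Pool.Agent.Helper570.Tree
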