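import Pool.Agent.Helper570.Tree

set_option autoImplicit false

namespace Pool.Agent.Helper570.Tree

open Set

/-- Requirement on the new function at level `a`. -/
structure CG (a : W) (g : W → ℕ) (prev : ∀ b, b < a → (W → ℕ)) : Prop where
  fin : ∀ m, {x | x < a ∧ g x ≤ m}.Finite
  coh : ∀ b (hb : b < a), {x | x < b ∧ g x ≠ prev b hb x}.Finite

theorem CG_exists (a : W) (g : W → W → ℕ) (hfin : ∀ b, b < a → ∀ m, {x | x < b ∧ g b x ≤ m}.Finite)
    (hcoh : ∀ b, b < a → ∀ c, c < b → {x | x < c ∧ g b x ≠ g c x}.Finite) :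
    ∃ g', CG a g' (fun b _ => g b) := by
  classical
  rcases (Set.Iio a).eq_empty_or_nonempty with h0 | h0
  · refine ⟨fun _ => 0, ?_, ?_⟩
    · intro m
      have : {x | x < a ∧ (0 : ℕ) ≤ m} = (∅ : Set W) := by
        ext x
        simp only [Set.mem_ofPred_eq, Set.mem_empty_iff_false, iff_false, not_and]
        intro hx
        have : x ∈ Set.Iio a := hx
        rw [h0] at this
        exact absurd this (Set.notMem_empty _)
      rw [this]; exact Set.finite_empty
    · intro b hb
      have : b ∈ Set.Iio a := hb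
      rw [h0] at this
      exact absurd this (Set.notMem_empty _)
  obtain ⟨e, he⟩ := (countable_Iio a).exists_eq_range h0
  have hea : ∀ n, e n < a := fun n => by
    have : e n ∈ Set.Iio a := he ▸ Set.mem_range_self n
    exact this
  let s : ℕ → W := fun n => Nat.rec (motive := fun _ => W) (e 0) (fun k r => max r (e (k + 1))) n
  have hs0 : s 0 = e 0 := rfl
  have hs1 : ∀ n, s (n + 1) = max (s n) (e (n + 1)) := fun n => rfl
  have hsa : ∀ n, s n < a := by
    intro n
    induction n with
    | zero => exact hea 0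
    | succ n ih => rw [hs1]; exact max_lt ih (hea _)
  have hse : ∀ n, e n ≤ s n := by
    intro n
    cases n with
    | zero => exact le_rfl
    | succ n => rw [hs1]; exact le_max_right _ _
  have hcof : ∀ x, x < a → ∃ n, x ≤ s n := by
    intro x hx
    have : x ∈ Set.range e := he ▸ hx
    obtain ⟨n, rfl⟩ := this
    exact ⟨n, hse n⟩
  let N : W → ℕ := fun x => sInf {n : ℕ | x ≤ s n}
  have hN : ∀ x, x < a → x ≤ s (N x) := fun x hx => Nat.sInf_mem (hcof x hx)
  have hNle : ∀ x n, x ≤ s n → N x ≤ n := fun x n hx => Nat.sInf_le hx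
  obtain ⟨g', hg'⟩ : ∃ g' : W → ℕ, ∀ x : W, g' x =
      max (N x) (@ite ℕ (x = s (N x)) (Classical.propDecidable _) 0 (g (s (N x)) x)) :=
    ⟨_, fun x => rfl⟩
  have hD : ∀ b c, b < a → c < a → {x | x < b ∧ x < c ∧ g b x ≠ g c x}.Finite := by
    intro b c hb hc
    rcases lt_trichotomy b c with h | h | h
    · apply (hcoh c hc b h).subset
      rintro x ⟨h1, h2, h3⟩
      exact ⟨h1, fun h4 => h3 h4.symm⟩
    · subst h
      convert Set.finite_empty (α := W)
      ext x
      simp
    · apply (hcoh b hb c h).subset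
      rintro x ⟨h1, h2, h3⟩
      exact ⟨h2, h3⟩
  refine ⟨g', ?_, ?_⟩
  · intro m
    have hfin2 : (⋃ n ∈ Set.Iic m, ({s n} ∪ {x | x < s n ∧ g (s n) x ≤ m})).Finite := by
      apply (Set.finite_Iic m).biUnion
      intro n _
      exact (Set.finite_singleton _).union (hfin (s n) (hsa n) m)
    apply hfin2.subset
    rintro x ⟨hx, hgx⟩
    rw [hg'] at hgx
    have h1 : N x ≤ m := (le_max_left _ _).trans hgx
    have h2 := (le_max_right _ _).trans hgx
    simp only [Set.mem_iUnion]
    refine ⟨N x, h1, ?_⟩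
    rcases Classical.em (x = s (N x)) with h3 | h3
    · left; exact h3
    · right
      rw [if_neg h3] at h2
      exact ⟨lt_of_le_of_ne (hN x hx) h3, h2⟩
  · intro b hb
    obtain ⟨n0, hn0⟩ := hcof b hb
    have hfin2 : (⋃ n ∈ Set.Iic n0, ({s n} ∪ {x | x < s n ∧ g (s n) x ≤ n} ∪
        {x | x < s n ∧ x < b ∧ g (s n) x ≠ g b x})).Finite := by
      apply (Set.finite_Iic n0).biUnion
      intro n _
      exact ((Set.finite_singleton _).union (hfin (s n) (hsa n) n)).union
        (hD (s n) b (hsa n) hb)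
    apply hfin2.subset
    rintro x ⟨hx, hgx⟩
    have hxa : x < a := hx.trans hb
    have h1 : N x ≤ n0 := hNle x n0 (hx.le.trans hn0)
    simp only [Set.mem_iUnion]
    refine ⟨N x, h1, ?_⟩
    rcases Classical.em (x = s (N x)) with h3 | h3
    · left; left; exact h3
    have h4 : x < s (N x) := lt_of_le_of_ne (hN x hxa) h3
    rcases le_or_gt (g (s (N x)) x) (N x) with h5 | h5
    · left; right; exact ⟨h4, h5⟩
    · right
      refine ⟨h4, hx, ?_⟩
      rw [hg', if_neg h3, max_eq_right h5.le] at hgx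
      exact hgx

open Classical in
/-- A coherent family of finite-to-one functions on the countable ordinals. -/
noncomputable def cg : W → (W → ℕ) :=
  (wellFounded_lt (α := W)).fix (fun a prev => if h : ∃ g', CG a g' prev then h.choose else fun _ => 0)

open Classical in
theorem cg_eq (a : W) : cg a =
    if h : ∃ g', CG a g' (fun b _ => cg b) then h.choose else fun _ => 0 :=
  (wellFounded_lt (α := W)).fix_eq
    (fun a prev => if h : ∃ g', CG a g' prev then h.choose else fun _ => 0) a

theorem cg_spec (a : W) : CG a (cg a) (fun b _ => cg b) := by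
  classical
  induction a using WellFoundedLT.induction with
  | ind a ih =>
  have h : ∃ g', CG a g' (fun b _ => cg b) :=
    CG_exists a cg (fun b hb => (ih b hb).fin) (fun b hb => (ih b hb).coh)
  rw [cg_eq, dif_pos h]
  exact h.choose_spec

theorem cg_fin (a : W) (m : ℕ) : {x | x < a ∧ cg a x ≤ m}.Finite := (cg_spec a).fin m

theorem cg_coh (a b : W) : {x | x < a ∧ x < b ∧ cg a x ≠ cg b x}.Finite := by
  rcases lt_trichotomy a b with h | h | h
  · apply ((cg_spec b).coh a h).subset
    rintro x ⟨h1, h2, h3⟩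
    exact ⟨h1, fun h4 => h3 h4.symm⟩
  · subst h
    convert Set.finite_empty (α := W)
    ext x
    simp
  · apply ((cg_spec a).coh b h).subset
    rintro x ⟨h1, h2, h3⟩
    exact ⟨h2, h3⟩

/-- The finite approximations. -/
noncomputable def SS (a : W) (k : ℕ) : Finset W := (cg_fin a k).toFinset

theorem mem_SS {a : W} {k : ℕ} {x : W} : x ∈ SS a k ↔ x < a ∧ cg a x ≤ k := by
  rw [SS, Set.Finite.mem_toFinset]; rfl

theorem SS_eventually (a b : W) :
    ∃ K, ∀ k, K ≤ k → ∀ x, x < a → x < b → (x ∈ SS a k ↔ x ∈ SS b k) := by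
  classical
  set E := (cg_coh a b).toFinset with hE
  refine ⟨E.sup fun x => max (cg a x) (cg b x), fun k hk x hx hx' => ?_⟩
  rw [mem_SS, mem_SS]
  by_cases h : cg a x = cg b x
  · rw [h]; simp [hx, hx']
  · have h1 : x ∈ E := by
      rw [hE, Set.Finite.mem_toFinset]; exact ⟨hx, hx', h⟩
    have h2 : max (cg a x) (cg b x) ≤ k :=
      (Finset.le_sup (f := fun x => max (cg a x) (cg b x)) h1).trans hk
    exact ⟨fun _ => ⟨hx', (le_max_right _ _).trans h2⟩, fun _ => ⟨hx, (le_max_left _ _).trans h2⟩⟩

end Pool.Agent.Helper570.Tree
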