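import Pool.Agent.Helper570.Climb

set_option autoImplicit false

namespace Pool.Agent.Helper570.Tree

open Set Filter Topology

variable {p : Seminorm ℝ X} {C H ε : ℝ}

/-- Stability without radius. -/
structure St (p : Seminorm ℝ X) (f : X) (t : Node) : Prop where
  fin : End f t
  const : ∀ u, t ≤ u → p (ext f t u) = p f
  min : ∀ φ : X, Above φ t → p f ≤ p (f + φ)

theorem St.of_stab {f : X} {t : Node} {R : ℝ} (hR : 0 < R) (hf : End f t) (h : Stab p R f t) :
    St p f t := by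
  refine ⟨hf, h.const, ?_⟩
  intro φ hφ
  set l : ℝ := R / (‖φ‖ + R) with hl
  have hpos : 0 < ‖φ‖ + R := by positivity
  have hl0 : 0 < l := div_pos hR hpos
  have hl1 : l ≤ 1 := (div_le_one hpos).2 (by linarith [norm_nonneg φ])
  have h1 : ‖l • φ‖ ≤ R := by
    rw [norm_smul, Real.norm_of_nonneg hl0.le, hl, div_mul_eq_mul_div, div_le_iff₀ hpos]
    nlinarith [norm_nonneg φ]
  have h2 : Above (l • φ) t := by
    intro s hs
    rw [ev_smul, hφ s hs, mul_zero]
  have h3 := h.min _ h2 h1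
  have h4 : f + l • φ = (1 - l) • f + l • (f + φ) := by module
  have h5 : p (f + l • φ) ≤ (1 - l) * p f + l * p (f + φ) := by
    rw [h4]
    refine (map_add_le_add p _ _).trans ?_
    rw [map_smul_eq_mul, map_smul_eq_mul, Real.norm_of_nonneg (by linarith),
      Real.norm_of_nonneg hl0.le]
  have h6 : l * p f ≤ l * p (f + φ) := by linarith
  exact le_of_mul_le_mul_left h6 hl0

theorem St.stab {f : X} {t : Node} (h : St p f t) (R : ℝ) : Stab p R f t :=
  ⟨h.const, fun φ hφ _ => h.min φ hφ⟩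

theorem St.ext {f : X} {t u : Node} (h : St p f t) (htu : t ≤ u) : St p (ext f t u) u := by
  refine ⟨End_ext h.fin htu, ?_, ?_⟩
  · intro v huv
    rw [ext_ext h.fin htu, h.const v (htu.trans huv), h.const u htu]
  · intro φ hφ
    rw [h.const u htu]
    unfold Tree.ext
    rw [add_assoc]
    exact h.min _ (Above_const htu hφ _)

theorem st_exists (hC : 0 ≤ C) (hp : ∀ x, p x ≤ C * ‖x‖) {f : X} {t : Node} (hf : End f t) :
    ∃ u, t ≤ u ∧ St p (ext f t u) u := by
  obtain ⟨u, h1, h2⟩ := stab_exists (p := p) (R := |ev t f| + 1) hC hp hf (by linarith)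
  exact ⟨u, h1, St.of_stab (by positivity) (End_ext hf h1) h2⟩

theorem End_closed {h : ℕ → X} {g : X} {w : Node} (hlim : Tendsto h atTop (𝓝 g))
    (hs : ∀ n, End (h n) w) : End g w := by
  intro s hsw
  have h1 : Tendsto (fun n => ev s (h n)) atTop (𝓝 (ev s g)) :=
    ((ev s).continuous.tendsto g).comp hlim
  refine tendsto_nhds_unique h1 ?_
  exact tendsto_const_nhds.congr fun n => (hs n s hsw).symm

theorem st_closed (hC : 0 ≤ C) (hp : ∀ x, p x ≤ C * ‖x‖) {h : ℕ → X} {g : X} {w : Node}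
    (hlim : Tendsto h atTop (𝓝 g)) (hs : ∀ n, St p (h n) w) : St p g w := by
  have h1 := stab_closed (R := 1) hC hp hlim (fun n => (hs n).stab 1)
  exact St.of_stab one_pos (End_closed hlim fun n => (hs n).fin) h1

/-- extension as a linear map -/
noncomputable def extL (t u : Node) : X →L[ℝ] X :=
  ContinuousLinearMap.id ℝ X + (ev t).smulRight (chi u - chi t)

theorem extL_apply (t u : Node) (f : X) : extL t u f = ext f t u := rfl

theorem st_exists_sep (hC : 0 ≤ C) (hp : ∀ x, p x ≤ C * ‖x‖) {W : Submodule ℝ X}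
    (hW : TopologicalSpace.IsSeparable (W : Set X)) {t : Node} (hf : ∀ F ∈ W, End F t) :
    ∃ u, t ≤ u ∧ ∀ F ∈ W, St p (ext F t u) u := by
  obtain ⟨D, hDW, hDc, hDd⟩ := hW.exists_countable_dense_subset
  have hDne : D.Nonempty := by
    by_contra h
    rw [Set.not_nonempty_iff_eq_empty] at h
    rw [h, closure_empty] at hDd
    exact hDd W.zero_mem
  obtain ⟨e, he⟩ := hDc.exists_eq_range hDne
  have heW : ∀ n, e n ∈ W := fun n => hDW (he ▸ Set.mem_range_self n)
  obtain ⟨u, h1, h2⟩ := sigma_principle (fun n u => t ≤ u ∧ St p (ext (e n) t u) u)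
    (fun n s u hsu h => ⟨h.1.trans hsu, by
      have h3 := h.2.ext hsu
      rwa [ext_ext (hf _ (heW n)) h.1] at h3⟩) t
    (fun n s hs => by
      obtain ⟨u, h1, h2⟩ := st_exists (p := p) hC hp (End_ext (hf _ (heW n)) hs)
      refine ⟨u, h1, hs.trans h1, ?_⟩
      rwa [ext_ext (hf _ (heW n)) hs] at h2)
  refine ⟨u, h1, fun F hF => ?_⟩
  obtain ⟨y, hy, hlim⟩ := mem_closure_iff_seq_limit.1 (hDd hF)
  have hlim' : Tendsto (fun n => ext (y n) t u) atTop (𝓝 (ext F t u)) :=
    ((extL t u).continuous.tendsto F).comp hlim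
  apply st_closed hC hp hlim'
  intro n
  have : y n ∈ Set.range e := he ▸ hy n
  obtain ⟨k, hk⟩ := this
  rw [← hk]
  exact (h2 k).2

/-- Good pairs, version without radius. -/
structure GoodS (p : Seminorm ℝ X) (H : ℝ) (q : X × Node) : Prop where
  st : St p q.1 q.2
  pos : 0 < ev q.2 q.1
  le : ev q.2 q.1 ≤ H

theorem GoodS.good {q : X × Node} (h : GoodS p H q) (R : ℝ) : Good p R H q :=
  ⟨h.st.fin, h.st.stab R, h.pos, h.le⟩

theorem Good.goodS {q : X × Node} {R : ℝ} (hR : 0 < R) (h : Good p R H q) : GoodS p H q :=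
  ⟨St.of_stab hR h.fin h.stab, h.pos, h.le⟩

theorem GoodS.ext {a : X × Node} (h : GoodS p H a) {u : Node} (hu : a.2 ≤ u) :
    GoodS p H (Tree.ext a.1 a.2 u, u) where
  st := h.st.ext hu
  pos := by
    show 0 < ev u (Tree.ext a.1 a.2 u)
    rw [ev_ext_top h.st.fin hu]; exact h.pos
  le := by
    show ev u (Tree.ext a.1 a.2 u) ≤ H
    rw [ev_ext_top h.st.fin hu]; exact h.le

theorem GoodS.rel_ext {a : X × Node} (h : GoodS p H a) {u : Node} (hu : a.2 ≤ u) :
    Rel p ε a (Tree.ext a.1 a.2 u, u) :=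
  (h.good (0 : ℝ)).rel_ext hu

theorem GoodS.Hpos {a : X × Node} (h : GoodS p H a) : 0 < H := h.pos.trans_le h.le

/-- limits of climbing sequences, with convergence of the values -/
theorem climb_sigma' (hC : 0 ≤ C) (hp : ∀ x, p x ≤ C * ‖x‖)
    (q : ℕ → X × Node) (hg : ∀ n, GoodS p H (q n)) (hq : ∀ n, Rel p ε (q n) (q (n + 1))) :
    ∃ a : X × Node, GoodS p H a ∧ (∀ n, Rel p ε (q n) a) ∧
      Tendsto (fun n => ev (q n).2 (q n).1) atTop (𝓝 (ev a.2 a.1)) := by
  have hH : 0 < H := (hg 0).Hpos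
  have hmon : ∀ n m, n ≤ m → Rel p ε (q n) (q m) := by
    intro n m hnm
    induction m, hnm using Nat.le_induction with
    | base => exact Rel.refl _
    | succ m _ ih => exact ih.trans (hq m)
  obtain ⟨w, hw⟩ := exists_ub_node (fun n => (q n).2) (fun n => (hq n).le)
  let b : ℕ → ℝ := fun n => ev (q n).2 (q n).1
  have hbm : Monotone b := fun n m hnm => (hmon n m hnm).val
  have hbb : BddAbove (Set.range b) := ⟨H, by rintro x ⟨n, rfl⟩; exact (hg n).le⟩
  have hbt : Tendsto b atTop (𝓝 (⨆ n, b n)) := tendsto_atTop_ciSup hbm hbb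
  have hble : ∀ n, b n ≤ ⨆ n, b n := fun n => le_ciSup hbb n
  let h : ℕ → X := fun n => ext (q n).1 (q n).2 w
  have hdist : ∀ n m, n ≤ m → dist (h n) (h m) ≤ (⨆ n, b n) - b n := by
    intro n m hnm
    rw [dist_comm, dist_eq_norm]
    refine (norm_ext_sub (hg n).st.fin (hg m).st.fin (hmon n m hnm) (hw m)).trans ?_
    have := hble m
    show b m - b n ≤ _
    linarith
  have hcau : CauchySeq h := by
    apply cauchySeq_of_le_tendsto_0' _ hdist
    have := hbt.const_sub (⨆ n, b n)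
    simpa using this
  obtain ⟨g, hglim⟩ := cauchySeq_tendsto_of_complete hcau
  have hev : ∀ s, Tendsto (fun n => ev s (h n)) atTop (𝓝 (ev s g)) := fun s =>
    ((ev s).continuous.tendsto g).comp hglim
  have hgood : ∀ n, GoodS p H (h n, w) := fun n => (hg n).ext (hw n)
  have hrel : ∀ n m, n ≤ m → Rel p ε (q n) (h m, w) := fun n m hnm =>
    (hmon n m hnm).trans ((hg m).rel_ext (hw m))
  have hpc := p_continuous hC hp
  have hbw : ∀ n, ev w (h n) = b n := fun n => ev_ext_top (hg n).st.fin (hw n)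
  have hval : ev w g = ⨆ n, b n := by
    refine tendsto_nhds_unique (hev w) ?_
    simpa only [hbw] using hbt
  refine ⟨(g, w), ⟨?_, ?_, ?_⟩, ?_, ?_⟩
  · exact st_closed hC hp hglim fun n => (hgood n).st
  · have h1 : ev (q 0).2 (q 0).1 ≤ ev w g :=
      ge_of_tendsto' (hev w) fun n => (hrel 0 n (Nat.zero_le n)).val
    exact (hg 0).pos.trans_le h1
  · exact le_of_tendsto' (hev w) fun n => (hgood n).le
  · intro n
    refine ⟨hw n, ?_, ?_, ?_, ?_, ?_⟩
    · intro s hs
      refine tendsto_nhds_unique (hev s) ?_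
      refine tendsto_const_nhds.congr' ?_
      filter_upwards [eventually_ge_atTop n] with m hm
      exact ((hrel n m hm).out s hs).symm
    · intro s h1 h2
      refine ge_of_tendsto (hev s) ?_
      filter_upwards [eventually_ge_atTop n] with m hm
      exact (hrel n m hm).low s h1 h2
    · intro s h1 h2
      refine le_of_tendsto_of_tendsto (hev s) (hev w) ?_
      filter_upwards [eventually_ge_atTop n] with m hm
      exact (hrel n m hm).upp s h1 h2
    · refine ge_of_tendsto (hev w) ?_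
      filter_upwards [eventually_ge_atTop n] with m hm
      exact (hrel n m hm).val
    · have h1 : Tendsto (fun m => p (h m)) atTop (𝓝 (p g)) := (hpc.tendsto _).comp hglim
      have h2 : Tendsto (fun m => p (q n).1 + ε * (ev w (h m) - ev (q n).2 (q n).1)) atTop
          (𝓝 (p (q n).1 + ε * (ev w g - ev (q n).2 (q n).1))) :=
        (((hev w).sub_const _).const_mul ε).const_add _
      refine le_of_tendsto_of_tendsto h1 h2 ?_
      filter_upwards [eventually_ge_atTop n] with m hm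
      exact (hrel n m hm).cost
  · show Tendsto b atTop (𝓝 (ev w g))
    rw [hval]; exact hbt

/-- Pairs from which every climb costs at least slope `ε`. -/
structure SP (p : Seminorm ℝ X) (H ε : ℝ) (q : X × Node) : Prop where
  good : GoodS p H q
  slope : ∀ (K : ℝ) (q' : X × Node), GoodS p H q' → Rel p K q q' →
    p q.1 + ε * (ev q'.2 q'.1 - ev q.2 q.1) ≤ p q'.1

theorem SP.ext {q : X × Node} (h : SP p H ε q) {u : Node} (hu : q.2 ≤ u) :
    SP p H ε (Tree.ext q.1 q.2 u, u) := by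
  refine ⟨h.good.ext hu, ?_⟩
  intro K q' hq' hr
  have h1 := h.slope K q' hq' ((h.good.rel_ext hu).trans hr)
  show p (Tree.ext q.1 q.2 u) + ε * (ev q'.2 q'.1 - ev u (Tree.ext q.1 q.2 u)) ≤ p q'.1
  rw [ev_ext_top h.good.st.fin hu, h.good.st.const u hu]
  exact h1

theorem above_of_out {a b : X × Node} (h : ∀ s, ¬ (a.2 < s ∧ s ≤ b.2) → ev s b.1 = ev s a.1) :
    Above (b.1 - a.1) a.2 := by
  intro s hs
  rw [ev_sub, h s (fun h1 => hs h1.1), sub_self]

theorem reach (hC : 0 ≤ C) (hp : ∀ x, p x ≤ C * ‖x‖) {a : X × Node} (ha : GoodS p H a) :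
    ∃ b, SP p H ε b ∧ Rel p ε a b := by
  obtain ⟨⟨b, hb⟩, h1, h2⟩ := mono_principle (Q := {q : X × Node // GoodS p H q})
    (fun x y => Rel p ε x.1 y.1) (fun x => Rel.refl _) (fun x y z => Rel.trans)
    (fun q hq => by
      obtain ⟨b, hb1, hb2, -⟩ := climb_sigma' hC hp (fun n => (q n).1) (fun n => (q n).2) hq
      exact ⟨⟨b, hb1⟩, hb2⟩)
    (fun x => ev x.1.2 x.1.1) H (fun x y h => h.val) (fun x => x.2.le) ⟨a, ha⟩
  refine ⟨b, ⟨hb, ?_⟩, h1⟩
  intro K q' hq' hr
  by_contra hlt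
  push Not at hlt
  have hr' : Rel p ε b q' := ⟨hr.le, hr.out, hr.low, hr.upp, hr.val, hlt.le⟩
  have h3 : ev q'.2 q'.1 = ev b.2 b.1 := h2 ⟨q', hq'⟩ hr'
  rw [h3, sub_self, mul_zero, add_zero] at hlt
  have h4 := hb.st.min _ (above_of_out hr.out)
  rw [add_sub_cancel] at h4
  linarith

theorem jump (hC : 0 ≤ C) (hp : ∀ x, p x ≤ C * ‖x‖) {a : X × Node} (ha : GoodS p H a) {x : ℝ}
    (hx : 0 < x) (hxH : ev a.2 a.1 + x ≤ H) :
    ∃ b, GoodS p H b ∧ Rel p C a b ∧ ev b.2 b.1 = ev a.2 a.1 + x := by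
  set c : ℝ := ev a.2 a.1 + x with hc
  set t := a.2 with ht
  set s := child t 0 with hs
  have hts : t < s := lt_child t 0
  obtain ⟨u, hsu, hu⟩ := st_exists (p := p) hC hp
    (End_add_smul c ha.st.fin hts.le : End (a.1 + c • (chi s - chi t)) s)
  rw [ext_add_smul _ ha.st.fin hts] at hu
  have htu : t < u := hts.trans_le hsu
  have hev : ev u (a.1 + c • (chi u - chi t)) = c := ev_add_smul_top c ha.st.fin htu
  have hin : ∀ s, t < s → s ≤ u → ev s (a.1 + c • (chi u - chi t)) = c := by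
    intro s h1 h2
    rw [ev_add, ev_smul, ha.st.fin s h1, ev_chi_sub h1 h2]
    simp
  refine ⟨(a.1 + c • (chi u - chi t), u), ⟨hu, ?_, ?_⟩, ⟨htu.le, ?_, ?_, ?_, ?_, ?_⟩, hev⟩
  · show 0 < ev u (a.1 + c • (chi u - chi t))
    rw [hev]; linarith [ha.pos]
  · show ev u (a.1 + c • (chi u - chi t)) ≤ H
    rw [hev]; exact hxH
  · intro s hs
    show ev s (a.1 + c • (chi u - chi t)) = ev s a.1
    rw [ev_add, ev_smul, ev_chi_sub_zero htu.le hs]
    simp
  · intro s h1 h2
    show ev a.2 a.1 ≤ ev s (a.1 + c • (chi u - chi t))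
    rw [hin s h1 h2]; linarith
  · intro s h1 h2
    show ev s (a.1 + c • (chi u - chi t)) ≤ ev u (a.1 + c • (chi u - chi t))
    rw [hin s h1 h2, hev]
  · show ev a.2 a.1 ≤ ev u (a.1 + c • (chi u - chi t))
    rw [hev]; linarith
  · show p (a.1 + c • (chi u - chi t)) ≤ p a.1 + C * (ev u (a.1 + c • (chi u - chi t)) - ev a.2 a.1)
    rw [hev]
    have h1 : a.1 + c • (chi u - chi t) = ext a.1 t u + x • (chi u - chi t) := by
      unfold ext; rw [hc]; module
    rw [h1]
    refine (map_add_le_add p _ _).trans ?_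
    rw [ha.st.const u htu.le, map_smul_eq_mul, Real.norm_of_nonneg hx.le]
    have h2 : p (chi u - chi t) ≤ C := (hp _).trans (by
      have := norm_chi_sub_le htu.le
      nlinarith)
    have h3 : x * p (chi u - chi t) ≤ x * C := mul_le_mul_of_nonneg_left h2 hx.le
    have h4 : c - ev a.2 a.1 = x := by rw [hc]; ring
    rw [h4]
    linarith

end Pool.Agent.Helper570.Tree
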