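import Pool.Agent.Helper570.Twist

set_option autoImplicit false

namespace Pool.Agent.Helper570.Tree

open Set Filter Topology

variable {p : Seminorm ℝ Y} {C c : ℝ}

/-- Elements extending the indicator of the branch up to `u` by something supported above `u`. -/
def Cls (u : Node) (z : Y) : Prop := ∀ s, ¬ u < s → eP (.nd s) z = eP (.nd s) (chiT u)

theorem Cls_mono {u u' : Node} (h : u ≤ u') {z : Y} (hz : Cls u' z) : Cls u z := by
  classical
  intro s hs
  have h1 : ¬ u' < s := fun h2 => hs (h.trans_lt h2)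
  rw [hz s h1, eP_nd_chiT, eP_nd_chiT]
  by_cases h2 : s ≤ u
  · rw [if_pos h2, if_pos (h2.trans h)]
  · rw [if_neg h2, if_neg]
    intro h3
    rcases comparable h3 h with h4 | h4
    · exact h2 h4
    · rcases h4.eq_or_lt with h5 | h5
      · exact h2 h5.ge
      · exact hs h5

theorem Cls_chiT (u : Node) : Cls u (chiT u) := fun _ _ => rfl

/-- finite sums of code indicators -/
noncomputable def fs (F : Finset Dt) (a : Dt → ℝ) : Y := ∑ d ∈ F, a d • eD d

theorem eP_nd_fs (F : Finset Dt) (a : Dt → ℝ) (s : Node) : eP (.nd s) (fs F a) = 0 := by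
  unfold fs
  rw [map_sum]
  apply Finset.sum_eq_zero
  intro d _
  rw [eP_smul, eP_nd_eD, mul_zero]

theorem eP_ct_fs (F : Finset Dt) (a : Dt → ℝ) {d : Dt} (hd : d ∈ F) :
    eP (.ct d) (fs F a) = a d := by
  classical
  unfold fs
  rw [map_sum, Finset.sum_eq_single d]
  · rw [eP_smul, eP_ct_eD, if_pos rfl, mul_one]
  · intro d' _ hne
    rw [eP_smul, eP_ct_eD, if_neg hne.symm, mul_zero]
  · intro h; exact absurd hd h

theorem eP_ct_fs_not (F : Finset Dt) (a : Dt → ℝ) {d : Dt} (hd : d ∉ F) :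
    eP (.ct d) (fs F a) = 0 := by
  classical
  unfold fs
  rw [map_sum]
  apply Finset.sum_eq_zero
  intro d' hd'
  rw [eP_smul, eP_ct_eD, if_neg (fun h : d = d' => hd (h ▸ hd')), mul_zero]

/-- the set of norms -/
def GS (p : Seminorm ℝ Y) (F : Finset Dt) (σ : Dt → ℝ) (u : Node) : Set ℝ :=
  {r | ∃ z, Cls u z ∧ (∀ d ∈ F, eP (.ct d) z = σ d) ∧ p z = r}

noncomputable def GG (p : Seminorm ℝ Y) (F : Finset Dt) (σ : Dt → ℝ) (u : Node) : ℝ :=
  sInf (GS p F σ u)

theorem GS_bdd (F : Finset Dt) (σ : Dt → ℝ) (u : Node) : BddBelow (GS p F σ u) :=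
  ⟨0, by rintro _ ⟨z, -, -, rfl⟩; exact apply_nonneg p z⟩

theorem norm_chiT_le (u : Node) : ‖chiT u‖ ≤ 1 := by
  classical
  apply normY_le zero_le_one
  intro z
  cases z with
  | nd s => rw [eP_nd_chiT]; split_ifs <;> simp
  | ct d => rw [eP_ct_chiT]; split_ifs <;> simp

theorem norm_eD_le (d : Dt) : ‖eD d‖ ≤ 1 := by
  classical
  apply normY_le zero_le_one
  intro z
  cases z with
  | nd s => rw [eP_nd_eD]; simp
  | ct d' => rw [eP_ct_eD]; split_ifs <;> simp

theorem GS_mem (hC : 0 ≤ C) (hp : ∀ x, p x ≤ C * ‖x‖) (F : Finset Dt) (σ : Dt → ℝ) (u : Node) :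
    ∃ r ∈ GS p F σ u, r ≤ C * (1 + ∑ d ∈ F, (|σ d| + 1)) := by
  refine ⟨_, ⟨chiT u + fs F (fun d => σ d - eP (.ct d) (chiT u)), ?_, ?_, rfl⟩, ?_⟩
  · intro s _
    rw [eP_add, eP_nd_fs, add_zero]
  · intro d hd
    rw [eP_add, eP_ct_fs F _ hd]; ring
  · refine (hp _).trans (mul_le_mul_of_nonneg_left ?_ hC)
    refine (norm_add_le _ _).trans (add_le_add (norm_chiT_le u) ?_)
    refine (norm_sum_le _ _).trans (Finset.sum_le_sum fun d _ => ?_)
    rw [norm_smul]
    have h1 : ‖σ d - eP (.ct d) (chiT u)‖ ≤ |σ d| + 1 := by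
      rw [Real.norm_eq_abs]
      refine (abs_sub _ _).trans ?_
      have := (abs_eP_le (.ct d) (chiT u)).trans (norm_chiT_le u)
      linarith
    have h2 := norm_eD_le d
    have h3 := norm_nonneg (eD d)
    have h4 := norm_nonneg (σ d - eP (.ct d) (chiT u))
    nlinarith

theorem GG_mono (hC : 0 ≤ C) (hp : ∀ x, p x ≤ C * ‖x‖) (F : Finset Dt) (σ : Dt → ℝ)
    {u u' : Node} (h : u ≤ u') : GG p F σ u ≤ GG p F σ u' := by
  apply csInf_le_csInf (GS_bdd F σ u)
  · obtain ⟨r, hr, -⟩ := GS_mem hC hp F σ u'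
    exact ⟨r, hr⟩
  · rintro _ ⟨z, h1, h2, rfl⟩
    exact ⟨z, Cls_mono h h1, h2, rfl⟩

open Classical in
/-- half integer data -/
noncomputable def sg (F1 F2 : Finset Dt) (d : Dt) : ℝ :=
  (1 / 2) * ((if d ∈ F1 then 1 else 0) + (if d ∈ F2 then 1 else 0))

theorem stable_exists (hC : 0 ≤ C) (hp : ∀ x, p x ≤ C * ‖x‖) : ∃ u0 : Node,
    ∀ (F F1 F2 : Finset Dt) (u : Node), u0 ≤ u → GG p F (sg F1 F2) u = GG p F (sg F1 F2) u0 := by
  obtain ⟨s0⟩ : Nonempty Node := by
    obtain ⟨b0⟩ : Nonempty W := inferInstance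
    exact ⟨⟨b0, fun _ => 0, fun _ _ => rfl⟩⟩
  obtain ⟨idx, hidx⟩ := exists_surjective_nat (Finset Dt × Finset Dt × Finset Dt)
  obtain ⟨t, -, ht⟩ := sigma_principle
    (fun n t => ∀ u, t ≤ u → GG p (idx n).1 (sg (idx n).2.1 (idx n).2.2) u
      = GG p (idx n).1 (sg (idx n).2.1 (idx n).2.2) t)
    (fun n s t hst h u hu => by rw [h u (hst.trans hu), h t hst]) s0
    (fun n s _ => by
      obtain ⟨t, h1, h2⟩ := mono_principle (Q := Node) (fun a b => a ≤ b) (fun _ => le_rfl)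
        (fun _ _ _ => le_trans) exists_ub_node
        (fun u => GG p (idx n).1 (sg (idx n).2.1 (idx n).2.2) u)
        (C * (1 + ∑ d ∈ (idx n).1, (|sg (idx n).2.1 (idx n).2.2 d| + 1)))
        (fun a b h => GG_mono hC hp _ _ h)
        (fun a => by
          obtain ⟨r, hr, hr'⟩ := GS_mem hC hp (idx n).1 (sg (idx n).2.1 (idx n).2.2) a
          exact (csInf_le (GS_bdd _ _ _) hr).trans hr') s
      exact ⟨t, h1, h2⟩)
  refine ⟨t, fun F F1 F2 u hu => ?_⟩
  obtain ⟨n, hn⟩ := hidx (F, F1, F2)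
  have := ht n u hu
  rw [hn] at this
  exact this

/-- Gliding hump. -/
theorem glide {R δ : ℝ} (hδ : 0 < δ) (Z : ℕ → Y → Prop)
    (hZ : ∀ (i : ℕ) (F : Finset Dt), ∃ ζ, Z i ζ ∧ (∀ d ∈ F, eP (.ct d) ζ = 0) ∧ ‖ζ‖ ≤ R)
    (hdisj : ∀ i j, i ≠ j → ∀ ζ ζ', Z i ζ → Z j ζ' → ∀ s, eP (.nd s) ζ = 0 ∨ eP (.nd s) ζ' = 0) :
    ∃ (ζ : ℕ → Y) (i : ℕ → ℕ), (∀ n, Z (i n) (ζ n)) ∧
      ∀ m : ℕ, ‖∑ n ∈ Finset.range m, ζ n‖ ≤ 2 * R + m * δ := by
  classical
  have hbad : ∀ ζ ζ' : Y, (∀ s, eP (.nd s) ζ = 0 ∨ eP (.nd s) ζ' = 0) →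
      {d : Dt | δ < |eP (.ct d) ζ| ∧ δ < |eP (.ct d) ζ'|}.Finite := by
    intro ζ ζ' h
    obtain ⟨E, hE, hE'⟩ := near_node ζ ζ' hδ
    apply hE.subset
    rintro d ⟨h1, h2⟩
    by_contra hd
    rcases hE' d hd with ⟨s, h3, h4⟩ | ⟨h3, h4⟩
    · rcases h s with h5 | h5
      · rw [h5, sub_zero] at h3; exact absurd h1 (not_lt.2 h3)
      · rw [h5, sub_zero] at h4; exact absurd h2 (not_lt.2 h4)
    · exact absurd h1 (not_lt.2 h3)
  obtain ⟨f, hf1, hf2⟩ := exists_seq_of_forall_finset_exists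
    (fun x : ℕ × Y × Finset Dt => Z x.1 x.2.1 ∧ ‖x.2.1‖ ≤ R)
    (fun x y => x.1 ≠ y.1 ∧ (∀ d ∈ x.2.2, eP (.ct d) y.2.1 = 0) ∧
      (∀ d, δ < |eP (.ct d) x.2.1| → δ < |eP (.ct d) y.2.1| → d ∈ y.2.2))
    (by
      intro s hs
      obtain ⟨i, hi⟩ : ∃ i : ℕ, i ∉ s.image Prod.fst := Infinite.exists_notMem_finset _
      obtain ⟨ζ, h1, h2, h3⟩ := hZ i (s.biUnion fun x => x.2.2)
      have hne : ∀ x ∈ s, x.1 ≠ i := fun x hx h => hi (h ▸ Finset.mem_image_of_mem _ hx)
      have hfin : (⋃ x ∈ s, {d : Dt | δ < |eP (.ct d) x.2.1| ∧ δ < |eP (.ct d) ζ|}).Finite := by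
        apply s.finite_toSet.biUnion
        intro x hx
        exact hbad _ _ (hdisj x.1 i (hne x hx) _ _ (hs x hx).1 h1)
      refine ⟨(i, ζ, hfin.toFinset), ⟨h1, h3⟩, fun x hx => ⟨hne x hx, ?_, ?_⟩⟩
      · intro d hd
        exact h2 d (Finset.mem_biUnion.2 ⟨x, hx, hd⟩)
      · intro d hd1 hd2
        simp only [Set.Finite.mem_toFinset, Set.mem_iUnion]
        exact ⟨x, hx, hd1, hd2⟩)
  have hR : 0 ≤ R := (norm_nonneg _).trans (hf1 0).2
  refine ⟨fun n => (f n).2.1, fun n => (f n).1, fun n => (hf1 n).1, fun m => ?_⟩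
  apply normY_le (by positivity)
  intro z
  rw [map_sum]
  refine (Finset.abs_sum_le_sum_abs _ _).trans ?_
  set Bz := (Finset.range m).filter fun n => δ < |eP z (f n).2.1| with hBz
  have hcard : Bz.card ≤ 2 := by
    by_contra hcon
    rw [not_le, Finset.two_lt_card] at hcon
    obtain ⟨a, ha, b, hb, e, he, hab, hae, hbe⟩ := hcon
    have hall : ∀ n ∈ Bz, δ < |eP z (f n).2.1| := fun n hn => (Finset.mem_filter.1 hn).2
    have key : ∀ a b e : ℕ, a < b → b < e → a ∈ Bz → b ∈ Bz → e ∈ Bz → False := by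
      intro a b e hab hbe ha hb he
      cases z with
      | nd s =>
        rcases hdisj _ _ (hf2 a b hab).1 _ _ (hf1 a).1 (hf1 b).1 s with h | h
        · have := hall a ha
          rw [h, abs_zero] at this
          linarith
        · have := hall b hb
          rw [h, abs_zero] at this
          linarith
      | ct d =>
        have h1 := (hf2 a b hab).2.2 d (hall a ha) (hall b hb)
        have h2 := (hf2 b e hbe).2.1 d h1
        have := hall e he
        rw [h2, abs_zero] at this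
        linarith
    rcases lt_trichotomy a b with h1 | h1 | h1
    · rcases lt_trichotomy b e with h2 | h2 | h2
      · exact key a b e h1 h2 ha hb he
      · exact hbe h2
      · rcases lt_trichotomy a e with h3 | h3 | h3
        · exact key a e b h3 h2 ha he hb
        · exact hae h3
        · exact key e a b h3 h1 he ha hb
    · exact hab h1
    · rcases lt_trichotomy a e with h2 | h2 | h2
      · exact key b a e h1 h2 hb ha he
      · exact hae h2
      · rcases lt_trichotomy b e with h3 | h3 | h3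
        · exact key b e a h3 h2 hb he ha
        · exact hbe h3
        · exact key e b a h3 h1 he hb ha
  rw [← Finset.sum_filter_add_sum_filter_not (Finset.range m) (fun n => δ < |eP z (f n).2.1|)]
  apply add_le_add
  · refine (Finset.sum_le_card_nsmul _ _ R fun n _ => (abs_eP_le _ _).trans (hf1 n).2).trans ?_
    rw [nsmul_eq_mul]
    have : (Bz.card : ℝ) ≤ 2 := by exact_mod_cast hcard
    exact mul_le_mul_of_nonneg_right this hR
  · refine (Finset.sum_le_card_nsmul _ _ δ fun n hn => not_lt.1 (Finset.mem_filter.1 hn).2).trans ?_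
    rw [nsmul_eq_mul]
    apply mul_le_mul_of_nonneg_right _ hδ.le
    have := Finset.card_filter_le (Finset.range m) (fun n => ¬ δ < |eP z (f n).2.1|)
    rw [Finset.card_range] at this
    exact_mod_cast this

theorem child_incomp {t : Node} {i j : ℕ} (h : i ≠ j) {u : Node} (h1 : child t i ≤ u) :
    ¬ child t j ≤ u := fun h2 => h (child_inj h1 h2)

/-- midpoint points which are not strongly extreme -/
theorem not_strongly_extreme (hc : 0 < c) (hC : 0 ≤ C) (hp : ∀ x, p x ≤ C * ‖x‖)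
    (hpl : ∀ x, c * ‖x‖ ≤ p x) : ∃ y : Y, 0 < p y ∧ ∀ ε : ℝ, 0 < ε → ∃ ψ : Y,
      p (y + ψ) ≤ p y + ε ∧ p (y - ψ) ≤ p y + ε ∧ c / 2 ≤ p ψ := by
  classical
  obtain ⟨u0, hu0⟩ := stable_exists (p := p) hC hp
  set w : ℕ → Node := fun j => child u0 j with hw
  set y : Y := (1 / 2 : ℝ) • (chiT (w 0) + chiT (w 1)) with hy
  have hynd : ∀ s, eP (.nd s) y = (1 / 2) * ((if s ≤ w 0 then 1 else 0) + (if s ≤ w 1 then 1 else 0)) := by
    intro s
    rw [hy, eP_smul, eP_add, eP_nd_chiT, eP_nd_chiT]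
  have hyct : ∀ d, eP (.ct d) y =
      (1 / 2) * ((if d ∈ AA (w 0) then 1 else 0) + (if d ∈ AA (w 1) then 1 else 0)) := by
    intro d
    rw [hy, eP_smul, eP_add, eP_ct_chiT, eP_ct_chiT]
  have hle_iff : ∀ j s, ¬ u0 < s → (s ≤ w j ↔ s ≤ u0) := by
    intro j s hs
    constructor
    · intro h1
      rcases comparable h1 (lt_child u0 j).le with h2 | h2
      · exact h2
      · rcases h2.eq_or_lt with h3 | h3
        · exact h3.ge
        · exact absurd h3 hs
    · intro h1; exact h1.trans (lt_child u0 j).le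
  have hCls : Cls u0 y := by
    intro s hs
    rw [hynd, eP_nd_chiT]
    simp only [hle_iff 0 s hs, hle_iff 1 s hs]
    split_ifs <;> norm_num
  have hyv : eP (.nd u0) y = 1 := by
    rw [hCls u0 (lt_irrefl _), eP_nd_chiT, if_pos le_rfl]
  have hy1 : 1 ≤ ‖y‖ := by
    have := abs_eP_le (.nd u0) y
    rw [hyv, abs_one] at this
    exact this
  have hpy : 0 < p y := lt_of_lt_of_le (by nlinarith) (hpl y)
  -- near minimisers
  have hmin : ∀ (j i : ℕ) (F : Finset Dt) (η : ℝ), 0 < η → ∃ z, Cls (child (w j) i) z ∧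
      (∀ d ∈ F, eP (.ct d) z = eP (.ct d) y) ∧ p z ≤ p y + η := by
    intro j i F η hη
    set F1 := F.filter fun d => d ∈ AA (w 0) with hF1
    set F2 := F.filter fun d => d ∈ AA (w 1) with hF2
    have hsg : ∀ d ∈ F, sg F1 F2 d = eP (.ct d) y := by
      intro d hd
      rw [hyct]
      unfold sg
      have e1 : d ∈ F1 ↔ d ∈ AA (w 0) := by rw [hF1, Finset.mem_filter]; simp [hd]
      have e2 : d ∈ F2 ↔ d ∈ AA (w 1) := by rw [hF2, Finset.mem_filter]; simp [hd]
      simp only [e1, e2]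
    have h1 : GG p F (sg F1 F2) u0 ≤ p y :=
      csInf_le (GS_bdd _ _ _) ⟨y, hCls, fun d hd => (hsg d hd).symm, rfl⟩
    have h2 : GG p F (sg F1 F2) (child (w j) i) < p y + η := by
      rw [hu0 F F1 F2 _ ((lt_child u0 j).le.trans (lt_child _ i).le)]
      linarith
    obtain ⟨r0, hr0, -⟩ := GS_mem hC hp F (sg F1 F2) (child (w j) i)
    obtain ⟨_, ⟨z, hz1, hz2, rfl⟩, hlt⟩ := exists_lt_of_csInf_lt ⟨r0, hr0⟩ h2
    exact ⟨z, hz1, fun d hd => (hz2 d hd).trans (hsg d hd), hlt.le⟩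
  refine ⟨y, hpy, fun ε hε => ?_⟩
  set η : ℝ := min 1 (ε / 2) with hη
  have hη0 : 0 < η := lt_min one_pos (half_pos hε)
  have hη1 : η ≤ 1 := min_le_left _ _
  have hη2 : η ≤ ε / 2 := min_le_right _ _
  set R : ℝ := 2 * ((p y + 1) / c) with hR
  have hnorm : ∀ z : Y, p z ≤ p y + η → ‖z‖ ≤ (p y + 1) / c := by
    intro z hz
    rw [le_div_iff₀ hc]
    have := hpl z
    linarith
  have hynorm : ‖y‖ ≤ (p y + 1) / c := by
    rw [le_div_iff₀ hc]
    have := hpl y
    linarith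
  set δ : ℝ := ε / (4 * (C + 1)) with hδ
  have hδ0 : 0 < δ := by positivity
  obtain ⟨ζ, i, hζ1, hζ2⟩ := glide (R := R) hδ0
    (fun i ζ => ∃ z1 z2, Cls (child (w 0) i) z1 ∧ Cls (child (w 1) i) z2 ∧ p z1 ≤ p y + η ∧
      p z2 ≤ p y + η ∧ ζ = (1 / 2 : ℝ) • (z1 + z2) - y)
    (by
      intro i F
      obtain ⟨z1, a1, a2, a3⟩ := hmin 0 i F η hη0
      obtain ⟨z2, b1, b2, b3⟩ := hmin 1 i F η hη0
      refine ⟨_, ⟨z1, z2, a1, b1, a3, b3, rfl⟩, ?_, ?_⟩
      · intro d hd
        rw [eP_sub, eP_smul, eP_add, a2 d hd, b2 d hd]; ring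
      · have n1 := hnorm z1 a3
        have n2 := hnorm z2 b3
        have e1 := norm_sub_le ((1 / 2 : ℝ) • (z1 + z2)) y
        have e2 := norm_add_le z1 z2
        rw [norm_smul, Real.norm_of_nonneg (by norm_num)] at e1
        rw [hR]
        linarith)
    (by
      rintro i j hij ζ ζ' ⟨z1, z2, a1, a2, -, -, rfl⟩ ⟨z1', z2', b1, b2, -, -, rfl⟩ s
      -- support of an element of class i
      have key : ∀ (i : ℕ) (z1 z2 : Y), Cls (child (w 0) i) z1 → Cls (child (w 1) i) z2 →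
          (¬ child (w 0) i ≤ s) → (¬ child (w 1) i ≤ s) →
          eP (.nd s) ((1 / 2 : ℝ) • (z1 + z2) - y) = 0 := by
        intro i z1 z2 h1 h2 h3 h4
        have e1 : eP (.nd s) z1 = if s ≤ w 0 then 1 else 0 := by
          rw [h1 s fun h => h3 h.le, eP_nd_chiT]
          by_cases h5 : s ≤ w 0
          · rw [if_pos h5, if_pos (h5.trans (lt_child _ _).le)]
          · rw [if_neg h5, if_neg]
            intro h6
            exact h3 (eq_child h6 h5).ge
        have e2 : eP (.nd s) z2 = if s ≤ w 1 then 1 else 0 := by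
          rw [h2 s fun h => h4 h.le, eP_nd_chiT]
          by_cases h5 : s ≤ w 1
          · rw [if_pos h5, if_pos (h5.trans (lt_child _ _).le)]
          · rw [if_neg h5, if_neg]
            intro h6
            exact h4 (eq_child h6 h5).ge
        rw [eP_sub, eP_smul, eP_add, e1, e2, hynd]
        ring
      by_cases hi : child (w 0) i ≤ s ∨ child (w 1) i ≤ s
      · right
        apply key j z1' z2' b1 b2
        · intro h
          rcases hi with h1 | h1
          · exact hij (child_inj h1 h)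
          · exact absurd (child_inj ((lt_child _ _).le.trans h1) ((lt_child _ _).le.trans h))
              (by norm_num)
        · intro h
          rcases hi with h1 | h1
          · exact absurd (child_inj ((lt_child _ _).le.trans h1) ((lt_child _ _).le.trans h))
              (by norm_num)
          · exact hij (child_inj h1 h)
      · left
        push Not at hi
        exact key i z1 z2 a1 a2 hi.1 hi.2)
  choose z1 z2 hz1 hz2 hp1 hp2 hζ using hζ1
  obtain ⟨m, hm⟩ := exists_nat_gt (2 * R / δ)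
  have hR0 : 0 ≤ R := by positivity
  have hm0 : (0 : ℝ) < m := lt_of_le_of_lt (by positivity) hm
  have hmR : 2 * R ≤ m * δ := by
    rw [div_lt_iff₀ hδ0] at hm
    exact hm.le
  set a : Y := (m : ℝ)⁻¹ • ∑ n ∈ Finset.range m, z1 n with ha
  set b : Y := (m : ℝ)⁻¹ • ∑ n ∈ Finset.range m, z2 n with hb
  have hpavg : ∀ z : ℕ → Y, (∀ n, p (z n) ≤ p y + η) →
      p ((m : ℝ)⁻¹ • ∑ n ∈ Finset.range m, z n) ≤ p y + η := by
    intro z hz
    rw [map_smul_eq_mul, Real.norm_of_nonneg (by positivity), inv_mul_le_iff₀ hm0]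
    refine (Finset.le_sum_of_subadditive p (map_zero p).le (map_add_le_add p) _ _).trans ?_
    refine (Finset.sum_le_card_nsmul _ _ (p y + η) fun n _ => hz n).trans ?_
    rw [Finset.card_range, nsmul_eq_mul]
  have hpa : p a ≤ p y + η := hpavg z1 hp1
  have hpb : p b ≤ p y + η := hpavg z2 hp2
  have hmid : (1 / 2 : ℝ) • (a + b) - y = (m : ℝ)⁻¹ • ∑ n ∈ Finset.range m, ζ n := by
    have h1 : ∑ n ∈ Finset.range m, ζ n = (1 / 2 : ℝ) • (∑ n ∈ Finset.range m, z1 n +
        ∑ n ∈ Finset.range m, z2 n) - (m : ℝ) • y := by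
      rw [← Finset.sum_add_distrib, Finset.smul_sum]
      rw [Finset.sum_congr rfl fun n _ => hζ n, Finset.sum_sub_distrib, Finset.sum_const,
        Finset.card_range, Nat.cast_smul_eq_nsmul]
    have h2 : (m : ℝ)⁻¹ • ((m : ℝ) • y) = y := by
      rw [smul_smul, inv_mul_cancel₀ hm0.ne', one_smul]
    rw [h1, smul_sub, h2, ha, hb]
    module
  have hmidn : p ((1 / 2 : ℝ) • (a + b) - y) ≤ ε / 2 := by
    refine (hp _).trans ?_
    have h1 : ‖(1 / 2 : ℝ) • (a + b) - y‖ ≤ 2 * δ := by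
      rw [hmid, norm_smul, norm_inv, Real.norm_of_nonneg hm0.le, inv_mul_le_iff₀ hm0]
      have := hζ2 m
      linarith
    have h2 : C * (2 * δ) ≤ ε / 2 := by
      rw [hδ]
      have : C * (2 * (ε / (4 * (C + 1)))) = (ε / 2) * (C / (C + 1)) := by
        field_simp; ring
      rw [this]
      have h3 : C / (C + 1) ≤ 1 := (div_le_one (by linarith)).2 (by linarith)
      nlinarith
    exact (mul_le_mul_of_nonneg_left h1 hC).trans h2
  refine ⟨(1 / 2 : ℝ) • (a - b), ?_, ?_, ?_⟩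
  · have h1 : y + (1 / 2 : ℝ) • (a - b) = a - ((1 / 2 : ℝ) • (a + b) - y) := by module
    rw [h1]
    have h2 := map_sub_le_add p a ((1 / 2 : ℝ) • (a + b) - y)
    linarith
  · have h1 : y - (1 / 2 : ℝ) • (a - b) = b - ((1 / 2 : ℝ) • (a + b) - y) := by module
    rw [h1]
    have h2 := map_sub_le_add p b ((1 / 2 : ℝ) • (a + b) - y)
    linarith
  · have hva : eP (.nd (w 0)) a = 1 := by
      rw [ha, eP_smul, map_sum, Finset.sum_congr rfl (g := fun _ => (1 : ℝ))]
      · rw [Finset.sum_const, Finset.card_range, nsmul_eq_mul, mul_one, inv_mul_cancel₀ hm0.ne']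
      · intro n _
        rw [hz1 n _ (fun h => absurd h (not_lt_of_ge (lt_child _ _).le)), eP_nd_chiT,
          if_pos (lt_child _ _).le]
    have hvb : eP (.nd (w 0)) b = 0 := by
      rw [hb, eP_smul, map_sum, Finset.sum_eq_zero, mul_zero]
      intro n _
      have h01 : ¬ w 0 ≤ child (w 1) (i n) := fun h =>
        absurd (child_inj h (lt_child (w 1) (i n)).le) (by norm_num)
      rw [hz2 n _ (fun h => ?_), eP_nd_chiT, if_neg h01]
      exact absurd (child_inj (le_refl (w 0)) ((lt_child _ _).le.trans h.le)) (by norm_num)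
    have h1 : |eP (.nd (w 0)) ((1 / 2 : ℝ) • (a - b))| = 1 / 2 := by
      rw [eP_smul, eP_sub, hva, hvb]; norm_num
    have h2 := abs_eP_le (.nd (w 0)) ((1 / 2 : ℝ) • (a - b))
    rw [h1] at h2
    have h3 := hpl ((1 / 2 : ℝ) • (a - b))
    nlinarith

/-- No equivalent norm on `Y` is midpoint locally uniformly rotund. -/
theorem no_mlur (hc : 0 < c) (hC : 0 ≤ C) (hp : ∀ x, p x ≤ C * ‖x‖)
    (hpl : ∀ x, c * ‖x‖ ≤ p x)
    (hmlur : ∀ x : Y, p x = 1 → ∀ u : ℕ → Y, (∀ n, p (u n) ≤ 1) →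
      Tendsto (fun n => p (x + u n)) atTop (𝓝 1) →
      Tendsto (fun n => p (x - u n)) atTop (𝓝 1) →
      Tendsto (fun n => p (u n)) atTop (𝓝 0)) : False := by
  obtain ⟨y, hy, hyψ⟩ := not_strongly_extreme (p := p) hc hC hp hpl
  have hex : ∀ n : ℕ, ∃ ψ : Y, p (y + ψ) ≤ p y + 1 / ((n : ℝ) + 1) ∧
      p (y - ψ) ≤ p y + 1 / ((n : ℝ) + 1) ∧ c / 2 ≤ p ψ := fun n => hyψ _ (by positivity)
  choose ψ h1 h2 h3 using hex
  set e : ℕ → ℝ := fun n => 1 / ((n : ℝ) + 1) with he
  have he0 : ∀ n, 0 < e n := fun n => by simp only [he]; positivity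
  have he1 : ∀ n, e n ≤ 1 := fun n => by
    simp only [he]
    rw [div_le_one (by positivity)]
    have : (0 : ℝ) ≤ n := Nat.cast_nonneg n
    linarith
  have helim : Tendsto e atTop (𝓝 0) := tendsto_one_div_add_atTop_nhds_zero_nat
  set x : Y := (p y)⁻¹ • y with hx
  have hx1 : p x = 1 := by
    rw [hx, map_smul_eq_mul, Real.norm_of_nonneg (inv_nonneg.2 hy.le), inv_mul_cancel₀ hy.ne']
  let u : ℕ → Y := fun n => (p y + e n)⁻¹ • ψ n
  have hpos : ∀ n, 0 < p y + e n := fun n => by have := he0 n; linarith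
  have hψle : ∀ n, p (ψ n) ≤ p y + e n := by
    intro n
    have h4 : ψ n = (1 / 2 : ℝ) • ((y + ψ n) - (y - ψ n)) := by module
    rw [h4, map_smul_eq_mul, Real.norm_of_nonneg (by norm_num)]
    have h5 := map_sub_le_add p (y + ψ n) (y - ψ n)
    have := h1 n
    have := h2 n
    simp only [he] at *
    linarith
  have hu1 : ∀ n, p (u n) ≤ 1 := by
    intro n
    show p ((p y + e n)⁻¹ • ψ n) ≤ 1
    rw [map_smul_eq_mul, Real.norm_of_nonneg (inv_nonneg.2 (hpos n).le), inv_mul_le_iff₀ (hpos n)]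
    linarith [hψle n]
  -- upper bound
  let U : ℕ → ℝ := fun n => 1 + (1 - (p y + e n)⁻¹ * p y)
  have hUlim : Tendsto U atTop (𝓝 1) := by
    have h4 : Tendsto (fun n => (p y + e n)⁻¹ * p y) atTop (𝓝 ((p y + 0)⁻¹ * p y)) :=
      ((helim.const_add (p y)).inv₀ (by rw [add_zero]; exact hy.ne')).mul_const _
    rw [add_zero, inv_mul_cancel₀ hy.ne'] at h4
    have h5 := (h4.const_sub 1).const_add 1
    rw [sub_self, add_zero] at h5
    exact h5
  have hcoef : ∀ n, 0 ≤ 1 - (p y + e n)⁻¹ * p y := by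
    intro n
    rw [sub_nonneg, inv_mul_le_iff₀ (hpos n)]
    have := he0 n
    linarith
  have hup : ∀ n (v : Y), p (y + v) ≤ p y + e n → p (x + (p y + e n)⁻¹ • v) ≤ U n := by
    intro n v hv
    have h4 : x + (p y + e n)⁻¹ • v = (p y + e n)⁻¹ • (y + v) +
        (1 - (p y + e n)⁻¹ * p y) • x := by
      rw [hx, sub_smul, one_smul, smul_smul, mul_assoc, mul_inv_cancel₀ hy.ne', mul_one]
      module
    rw [h4]
    refine (map_add_le_add p _ _).trans ?_
    rw [map_smul_eq_mul, map_smul_eq_mul, hx1, mul_one,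
      Real.norm_of_nonneg (inv_nonneg.2 (hpos n).le), Real.norm_of_nonneg (hcoef n)]
    have h5 : (p y + e n)⁻¹ * p (y + v) ≤ 1 := by
      rw [inv_mul_le_iff₀ (hpos n)]; linarith
    show _ ≤ 1 + (1 - (p y + e n)⁻¹ * p y)
    linarith
  have hup1 : ∀ n, p (x + u n) ≤ U n := fun n => hup n (ψ n) (h1 n)
  have hup2 : ∀ n, p (x - u n) ≤ U n := by
    intro n
    have h4 : x - u n = x + (p y + e n)⁻¹ • (-ψ n) := by
      show x - (p y + e n)⁻¹ • ψ n = _
      module
    rw [h4]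
    apply hup n (-ψ n)
    rw [← sub_eq_add_neg]; exact h2 n
  have hsum : ∀ n, 2 ≤ p (x + u n) + p (x - u n) := by
    intro n
    have h4 : (2 : ℝ) • x = (x + u n) + (x - u n) := by module
    have h5 : p ((2 : ℝ) • x) = 2 := by
      rw [map_smul_eq_mul, hx1]; norm_num
    rw [← h5, h4]
    exact map_add_le_add p _ _
  have hlowlim : Tendsto (fun n => 2 - U n) atTop (𝓝 1) := by
    have := hUlim.const_sub 2
    norm_num at this
    exact this
  have ht1 : Tendsto (fun n => p (x + u n)) atTop (𝓝 1) :=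
    tendsto_of_tendsto_of_tendsto_of_le_of_le hlowlim hUlim
      (fun n => by have := hup2 n; have := hsum n; show 2 - U n ≤ _; linarith) hup1
  have ht2 : Tendsto (fun n => p (x - u n)) atTop (𝓝 1) :=
    tendsto_of_tendsto_of_tendsto_of_le_of_le hlowlim hUlim
      (fun n => by have := hup1 n; have := hsum n; show 2 - U n ≤ _; linarith) hup2
  have ht3 := hmlur x hx1 u hu1 ht1 ht2
  have hlow : ∀ n, (p y + 1)⁻¹ * (c / 2) ≤ p (u n) := by
    intro n
    show _ ≤ p ((p y + e n)⁻¹ • ψ n)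
    rw [map_smul_eq_mul, Real.norm_of_nonneg (inv_nonneg.2 (hpos n).le)]
    apply mul_le_mul _ (h3 n) (by positivity) (inv_nonneg.2 (hpos n).le)
    apply inv_anti₀ (hpos n)
    have := he1 n
    linarith
  have h4 := ge_of_tendsto' ht3 hlow
  have h5 : 0 < (p y + 1)⁻¹ * (c / 2) := by positivity
  linarith

end Pool.Agent.Helper570.Tree
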