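import Pool.Agent.Helper570.Space

set_option autoImplicit false

namespace Pool.Agent.Helper570.Tree

theorem one_le_norm_chi_sub {s t : Node} (h : s ≠ t) : 1 ≤ ‖chi s - chi t‖ := by
  have key : ∀ s t : Node, ¬ s ≤ t → 1 ≤ ‖chi s - chi t‖ := by
    intro s t hst
    have h1 := abs_ev_le s (chi s - chi t)
    rw [ev_sub, ev_chi_le le_rfl, ev_chi_not hst] at h1
    simpa using h1
  by_cases h1 : s ≤ t
  · have h2 : ¬ t ≤ s := fun h3 => h (le_antisymm h1 h3)
    rw [norm_sub_rev]
    exact key t s h2
  · exact key s t h1

theorem uncountable_Node : ¬ Countable Node := by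
  intro hc
  apply uncountable_W
  have h : Function.Surjective (Node.len) := fun c => ⟨⟨c, fun _ => 0, fun _ _ => rfl⟩, rfl⟩
  have := h.countable
  exact Set.countable_univ

theorem not_separable : ¬ TopologicalSpace.SeparableSpace X := by
  intro hsep
  obtain ⟨D, hDc, hDd⟩ := hsep.exists_countable_dense
  have h : ∀ t : Node, ∃ d : D, ‖chi t - d‖ < 1 / 2 := by
    intro t
    obtain ⟨d, hd, hd'⟩ := Metric.dense_iff.1 hDd (chi t) (1 / 2) (by norm_num)
    refine ⟨⟨d, hd'⟩, ?_⟩
    rw [Metric.mem_ball, dist_eq_norm, norm_sub_rev] at hd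
    exact hd
  choose d hd using h
  apply uncountable_Node
  have hinj : Function.Injective d := by
    intro s t hst
    by_contra hne
    have h1 := one_le_norm_chi_sub hne
    have h2 := hd s
    have h3 := hd t
    rw [← hst] at h3
    have h4 : chi s - chi t = (chi s - (d s : X)) - (chi t - (d s : X)) := by abel
    rw [h4] at h1
    have h5 := norm_sub_le (chi s - (d s : X)) (chi t - (d s : X))
    linarith
  have : Countable D := hDc.to_subtype
  exact hinj.countable

end Pool.Agent.Helper570.Tree
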