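import Pool.Agent.Helper570.Seq

set_option autoImplicit false

namespace Pool.Agent.Helper570.Tree

open Set Filter Topology

variable {p : Seminorm ℝ X} {C c : ℝ}

theorem above_mono {φ : X} {t u : Node} (h : t ≤ u) (hφ : Above φ u) : Above φ t :=
  fun s hs => hφ s fun h' => hs (lt_of_le_of_lt h h')

theorem Above.add {φ ψ : X} {t : Node} (h : Above φ t) (h' : Above ψ t) : Above (φ + ψ) t := by
  intro s hs
  rw [ev_add, h s hs, h' s hs, add_zero]

theorem Above.sub {φ ψ : X} {t : Node} (h : Above φ t) (h' : Above ψ t) : Above (φ - ψ) t := by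
  intro s hs
  rw [ev_sub, h s hs, h' s hs, sub_zero]

theorem Above.smul {φ : X} {t : Node} (r : ℝ) (h : Above φ t) : Above (r • φ) t := by
  intro s hs
  rw [ev_smul, h s hs, mul_zero]

theorem Above.zero {t : Node} : Above 0 t := by
  intro s _
  exact map_zero _

theorem Above.sum {t : Node} {ι : Type*} (F : Finset ι) (φ : ι → X)
    (h : ∀ i ∈ F, Above (φ i) t) : Above (∑ i ∈ F, φ i) t := by
  classical
  induction F using Finset.induction_on with
  | empty => simpa using Above.zero
  | insert a F ha ih =>
    rw [Finset.sum_insert ha]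
    exact (h a (Finset.mem_insert_self _ _)).add
      (ih fun i hi => h i (Finset.mem_insert_of_mem hi))

theorem Above.lim {t : Node} {φ : ℕ → X} {g : X} (hlim : Tendsto φ atTop (𝓝 g))
    (h : ∀ᶠ n in atTop, Above (φ n) t) : Above g t := by
  intro s hs
  have h1 : Tendsto (fun n => ev s (φ n)) atTop (𝓝 (ev s g)) :=
    ((ev s).continuous.tendsto g).comp hlim
  refine tendsto_nhds_unique h1 ?_
  refine tendsto_const_nhds.congr' ?_
  filter_upwards [h] with n hn
  exact (hn s hs).symm

/-- The core of the non-polyhedrality: there is a point and a direction such that no linear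
functional supporting the ball at the point computes the norm at any point of the ray. -/
theorem poly_core (hc : 0 < c) (hC : 0 < C) (hp : ∀ x, p x ≤ C * ‖x‖) (hpl : ∀ x, c * ‖x‖ ≤ p x) :
    ∃ f d : X, 0 < p f ∧ ∀ g : X →ₗ[ℝ] ℝ, (∀ x, g x ≤ p x) → g f = p f → ∀ t : ℝ, 0 < t →
      p (f + t • d) ≤ p f + t * g d → False := by
  classical
  obtain ⟨f, w, q, W, ho⟩ := exists_outcome hc hC.le hp hpl
  set ε : ℝ := c / 2 with hε
  have hε0 : 0 < ε := by positivity
  -- gap
  let h : ℕ → ℝ := fun n => ev w f - ev (q n).2 (q n).1
  have hh : ∀ n, 0 < h n := fun n => by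
    have := ho.lt n
    simp only [h]; linarith
  have hhlim : Tendsto h atTop (𝓝 0) := by
    have := ho.lim.const_sub (ev w f)
    simpa [h] using this
  set A : ℝ := 1 + 2 * C / ε with hA
  have hA0 : 0 < 2 * C / ε := by positivity
  have hA1 : 1 < A := by linarith
  have hApos : 0 < A := by linarith
  obtain ⟨k, hk, hkA⟩ := Filter.extraction_forall_of_eventually
    (P := fun n m => h m ≤ ((1 / 2) / A) ^ n) (fun n => by
      have h1 : (0 : ℝ) < ((1 / 2) / A) ^ n := by positivity
      exact (hhlim.eventually_lt_const h1).mono fun m hm => hm.le)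
  -- directions
  let e : ℕ → X := fun n => ext (q (k n)).1 (q (k n)).2 w - f
  have he : ∀ n, ‖e n‖ ≤ h (k n) := fun n => ho.near (k n)
  have hfe : ∀ n, p (f + e n) = p (q (k n)).1 := by
    intro n
    show p (f + (ext (q (k n)).1 (q (k n)).2 w - f)) = _
    rw [add_sub_cancel, (ho.st _).const w (ho.le _)]
  have hsl : ∀ n, p (q n).1 + ε * h n ≤ p f := ho.slope
  have hnorm : ∀ n, ‖(A ^ n) • e n‖ ≤ (1 / 2) ^ n := by
    intro n
    rw [norm_smul, Real.norm_of_nonneg (by positivity)]
    calc A ^ n * ‖e n‖ ≤ A ^ n * ((1 / 2) / A) ^ n :=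
          mul_le_mul_of_nonneg_left ((he n).trans (hkA n)) (by positivity)
      _ = (1 / 2) ^ n := by
          rw [← mul_pow]; congr 1; field_simp
  have hsum : Summable fun n => (A ^ n) • e n :=
    Summable.of_norm_bounded (summable_geometric_of_lt_one (by norm_num) (by norm_num)) hnorm
  obtain ⟨d, hd⟩ := hsum
  let D : ℕ → X := fun K => ∑ n ∈ Finset.range K, (A ^ n) • e n
  have hD : Tendsto D atTop (𝓝 d) := hd.tendsto_sum_nat
  have heab : ∀ n, Above (e n) (q (k n)).2 := by
    intro n s hs
    have ha := ho.above (k n) s hs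
    show ev s (ext (q (k n)).1 (q (k n)).2 w - f) = 0
    rw [ev_sub] at ha ⊢
    rw [ev_ext_out (ho.le _) (fun h => hs h.1)]
    linarith
  refine ⟨f, d, ?_, ?_⟩
  · have h1 := hsl 0
    have h2 := mul_pos hε0 (hh 0)
    have h3 := apply_nonneg p (q 0).1
    linarith
  intro g hg hgf t ht hlin
  -- slopes
  have hge : ∀ n, g (e n) ≤ - (ε * h (k n)) := by
    intro n
    have h1 := hg (f + e n)
    rw [map_add, hgf, hfe] at h1
    have h2 := hsl (k n)
    linarith
  have hgabs : ∀ x, |g x| ≤ C * ‖x‖ := by
    intro x
    rw [abs_le]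
    constructor
    · have h1 := (hg (-x)).trans (hp (-x))
      rw [map_neg, norm_neg] at h1
      linarith
    · exact (hg x).trans (hp x)
  have hgc : Continuous g := by
    apply AddMonoidHomClass.continuous_of_bound g C
    intro x
    rw [Real.norm_eq_abs]
    exact hgabs x
  have hgD : Tendsto (fun K => g (D K)) atTop (𝓝 (g d)) := (hgc.tendsto d).comp hD
  -- upper bound of `g d`
  have hgd : ∀ K, g d ≤ g (D K) - A ^ K * (ε * h (k K)) := by
    intro K
    refine le_of_tendsto hgD ?_
    filter_upwards [eventually_ge_atTop (K + 1)] with M hM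
    induction M, hM using Nat.le_induction with
    | base =>
      show g (∑ n ∈ Finset.range (K + 1), (A ^ n) • e n) ≤ _
      rw [Finset.sum_range_succ, map_add, map_smul, smul_eq_mul]
      have h1 := mul_le_mul_of_nonneg_left (hge K) (show 0 ≤ A ^ K by positivity)
      show g (D K) + _ ≤ _
      linarith
    | succ M _ ih =>
      refine le_trans ?_ ih
      show g (∑ n ∈ Finset.range (M + 1), (A ^ n) • e n) ≤ _
      rw [Finset.sum_range_succ, map_add, map_smul, smul_eq_mul]
      have h1 := mul_le_mul_of_nonneg_left (hge M) (show 0 ≤ A ^ M by positivity)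
      have h2 : 0 ≤ A ^ M * (ε * h (k M)) :=
        mul_nonneg (by positivity) (mul_nonneg hε0.le (hh _).le)
      show g (D M) + _ ≤ _
      linarith
  -- stability
  have hstab : ∀ K, p (f + t • D K) ≤
      p (f + t • d) + C * ((1 + t * ∑ n ∈ Finset.range K, A ^ n) * h (k K)) := by
    intro K
    set m := k K with hm
    set S : ℝ := ∑ n ∈ Finset.range K, A ^ n with hS
    have hS0 : 0 ≤ S := Finset.sum_nonneg fun n _ => by positivity
    set F : X := (q m).1 + t • ∑ n ∈ Finset.range K,
      (A ^ n) • (ext (q (k n)).1 (q (k n)).2 (q m).2 - (q m).1) with hF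
    have hkm : ∀ n ∈ Finset.range K, k n ≤ m := by
      intro n hn
      exact hk.monotone (Finset.mem_range.1 hn).le
    have hmemq : (q m).1 ∈ W m := by
      have := ho.memW m m le_rfl
      rwa [ext_self] at this
    have hFW : F ∈ W m := by
      refine (W m).add_mem hmemq ((W m).smul_mem _ ((W m).sum_mem fun n hn => ?_))
      exact (W m).smul_mem _ ((W m).sub_mem (ho.memW _ _ (hkm n hn)) hmemq)
    have hst := ho.stW m F hFW
    -- difference is above
    have hab : Above (f + t • d - F) (q m).2 := by
      have hlim : Tendsto (fun M => f + t • D M - F) atTop (𝓝 (f + t • d - F)) :=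
        ((hD.const_smul t).const_add f).sub_const F
      refine Above.lim hlim ?_
      filter_upwards [eventually_ge_atTop K] with M hM
      induction M, hM using Nat.le_induction with
      | base =>
        have h1 : f + t • D K - F = (f - (q m).1) + t • ∑ n ∈ Finset.range K,
            (A ^ n) • ((ext (q (k n)).1 (q (k n)).2 w
              - ext (q (k n)).1 (q (k n)).2 (q m).2) - (f - (q m).1)) := by
          rw [hF]
          show f + t • (∑ n ∈ Finset.range K, (A ^ n) • e n) - _ = _
          have h2 : ∑ n ∈ Finset.range K, (A ^ n) • ((ext (q (k n)).1 (q (k n)).2 w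
              - ext (q (k n)).1 (q (k n)).2 (q m).2) - (f - (q m).1))
              = ∑ n ∈ Finset.range K, (A ^ n) • e n - ∑ n ∈ Finset.range K,
                (A ^ n) • (ext (q (k n)).1 (q (k n)).2 (q m).2 - (q m).1) := by
            rw [← Finset.sum_sub_distrib]
            apply Finset.sum_congr rfl
            intro n _
            rw [← smul_sub]
            congr 1
            show _ = (ext (q (k n)).1 (q (k n)).2 w - f) - _
            abel
          rw [h2, smul_sub]
          abel
        rw [h1]
        refine (ho.above m).add (Above.smul _ (Above.sum _ _ fun n hn => Above.smul _ ?_))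
        refine Above.sub ?_ (ho.above m)
        intro s hs
        have hle := ho.mono _ _ (hkm n hn)
        rw [← ext_ext (v := w) (ho.st _).fin hle]
        rw [ev_sub]
        unfold ext
        rw [ev_add, ev_smul _ _ (chi w - chi (q m).2), ev_chi_sub_zero (ho.le m) (fun h => hs h.1)]
        ring
      | succ M hM ih =>
        have h1 : f + t • D (M + 1) - F = (f + t • D M - F) + t • ((A ^ M) • e M) := by
          show f + t • (∑ n ∈ Finset.range (M + 1), (A ^ n) • e n) - F = _
          rw [Finset.sum_range_succ, smul_add]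
          show f + (t • D M + _) - F = _
          abel
        rw [h1]
        exact ih.add (Above.smul _ (Above.smul _
          (above_mono (ho.mono _ _ (hk.monotone hM)) (heab M))))
    have h3 := hst.min _ hab
    rw [add_sub_cancel] at h3
    have h4 := hst.const w (ho.le m)
    -- compare with the extension
    have h5 : f + t • D K - ext F (q m).2 w = (-(1 - t * S)) • e K := by
      have h6 : ext F (q m).2 w = (f + e K) + t • ∑ n ∈ Finset.range K, (A ^ n) • (e n - e K) := by
        rw [← extL_apply, hF, map_add, map_smul, map_sum]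
        congr 1
        · rw [extL_apply]
          show _ = f + (ext (q (k K)).1 (q (k K)).2 w - f)
          rw [add_sub_cancel]
        · congr 1
          apply Finset.sum_congr rfl
          intro n hn
          rw [map_smul, map_sub, extL_apply, extL_apply, ext_ext (ho.st _).fin
            (ho.mono _ _ (hkm n hn))]
          congr 1
          show _ = (ext (q (k n)).1 (q (k n)).2 w - f) - (ext (q (k K)).1 (q (k K)).2 w - f)
          rw [sub_sub_sub_cancel_right]
      have h7 : ∑ n ∈ Finset.range K, (A ^ n) • (e n - e K) = D K - S • e K := by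
        rw [hS, Finset.sum_smul]
        show _ = (∑ n ∈ Finset.range K, (A ^ n) • e n) - _
        rw [← Finset.sum_sub_distrib]
        apply Finset.sum_congr rfl
        intro n _
        rw [smul_sub]
      rw [h6, h7, smul_sub, smul_smul]
      module
    have h8 : p (f + t • D K) ≤ p (ext F (q m).2 w) + C * ‖f + t • D K - ext F (q m).2 w‖ := by
      have := p_sub_le hp (f + t • D K) (ext F (q m).2 w)
      linarith
    rw [h5, norm_smul, h4] at h8
    have h9 : ‖-(1 - t * S)‖ ≤ 1 + t * S := by
      rw [norm_neg, Real.norm_eq_abs, abs_le]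
      have : 0 ≤ t * S := mul_nonneg ht.le hS0
      constructor <;> linarith
    have h10 : ‖-(1 - t * S)‖ * ‖e K‖ ≤ (1 + t * S) * h m :=
      mul_le_mul h9 (he K) (norm_nonneg _) ((norm_nonneg _).trans h9)
    have h11 := mul_le_mul_of_nonneg_left h10 hC.le
    linarith
  -- final inequality
  have hfinal : ∀ K, t * ε / 2 * A ^ K ≤ C := by
    intro K
    set S : ℝ := ∑ n ∈ Finset.range K, A ^ n with hS
    have hCS : C * S = ε / 2 * (A ^ K - 1) := by
      have h1 : S * (A - 1) = A ^ K - 1 := geom_sum_mul A K
      have h2 : A - 1 = 2 * C / ε := by rw [hA]; ring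
      rw [← h1, h2]
      field_simp
    have h1 := hstab K
    have h2 : p f + t * g (D K) ≤ p (f + t • D K) := by
      have := hg (f + t • D K)
      rw [map_add, map_smul, smul_eq_mul, hgf] at this
      exact this
    have h3 := mul_le_mul_of_nonneg_left (hgd K) ht.le
    have hhK := hh (k K)
    have h4 : (t * (A ^ K * ε)) * h (k K) ≤ (C * (1 + t * S)) * h (k K) := by nlinarith
    have h5 := le_of_mul_le_mul_right h4 hhK
    have h6 : C * (1 + t * S) = C + t * (ε / 2 * (A ^ K - 1)) := by
      rw [mul_add, mul_one, mul_left_comm, hCS]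
    rw [h6] at h5
    have h7 : 0 ≤ t * (ε / 2) := by positivity
    nlinarith
  have htend : Tendsto (fun K => t * ε / 2 * A ^ K) atTop atTop :=
    (tendsto_pow_atTop_atTop_of_one_lt hA1).const_mul_atTop (by positivity)
  obtain ⟨K, hK⟩ := (htend.eventually_gt_atTop C).exists
  exact absurd (hfinal K) (not_le.2 hK)

end Pool.Agent.Helper570.Tree
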