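import Mathlib

set_option autoImplicit false

namespace Pool.Agent.Helper570

open Set Filter Topology

/-- The unit ball of every finite-dimensional subspace is the intersection of finitely many closed
half-spaces. -/
def IsPolyhedral {V : Type*} [AddCommGroup V] [Module ℝ V] (N : V → ℝ) : Prop :=
  ∀ E : Submodule ℝ V, FiniteDimensional ℝ E →
    ∃ F : Finset (Module.Dual ℝ E × ℝ), ∀ x : E, N x ≤ 1 ↔ ∀ z ∈ F, z.1 x ≤ z.2

variable {V : Type*} [AddCommGroup V] [Module ℝ V] {p : Seminorm ℝ V}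

theorem attain {E : Submodule ℝ V} {F : Finset (Module.Dual ℝ E × ℝ)}
    (hF : ∀ x : E, p x ≤ 1 ↔ ∀ z ∈ F, z.1 x ≤ z.2) {x : E} (hx : 0 < p x) :
    ∃ z ∈ F, 0 < z.2 ∧ z.1 x = z.2 * p x := by
  by_contra hcon
  push Not at hcon
  have h0 : ∀ z ∈ F, 0 ≤ z.2 := by
    intro z hz
    have := (hF 0).1 (by simp) z hz
    simpa using this
  have h1 : ∀ z ∈ F, ∀ y : E, 0 < p y → z.1 y ≤ z.2 * p y := by
    intro z hz y hy
    have h2 : p ((p y)⁻¹ • y : E) ≤ 1 := by
      rw [Submodule.coe_smul, map_smul_eq_mul, Real.norm_of_nonneg (inv_nonneg.2 hy.le),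
        inv_mul_cancel₀ hy.ne']
    have h3 := (hF _).1 h2 z hz
    rw [map_smul, smul_eq_mul, inv_mul_le_iff₀ hy] at h3
    linarith
  have h2 : ∀ z ∈ F, ∀ᶠ s in 𝓝[>] (1 : ℝ), z.1 x * s ≤ z.2 * p x := by
    intro z hz
    rcases (h0 z hz).eq_or_lt with h3 | h3
    · have h4 := h1 z hz x hx
      rw [← h3, zero_mul] at h4
      filter_upwards [self_mem_nhdsWithin] with s hs
      rw [← h3, zero_mul]
      have : (1 : ℝ) < s := hs
      nlinarith
    · have h4 : z.1 x < z.2 * p x := lt_of_le_of_ne (h1 z hz x hx) (hcon z hz h3)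
      have h5 : Tendsto (fun s : ℝ => z.1 x * s) (𝓝[>] 1) (𝓝 (z.1 x * 1)) :=
        ((continuous_const.mul continuous_id).tendsto 1).mono_left nhdsWithin_le_nhds
      rw [mul_one] at h5
      exact (h5.eventually_lt_const h4).mono fun s hs => hs.le
  have h3 : ∀ᶠ s in 𝓝[>] (1 : ℝ), ∀ z ∈ F, z.1 x * s ≤ z.2 * p x :=
    (Filter.eventually_all_finset F).2 h2
  obtain ⟨s, hs, hs1⟩ := (h3.and self_mem_nhdsWithin).exists
  have hs1' : (1 : ℝ) < s := hs1
  have h4 : p (((s / p x) • x : E) : V) = s := by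
    rw [Submodule.coe_smul, map_smul_eq_mul, Real.norm_of_nonneg (by positivity),
      div_mul_cancel₀ _ hx.ne']
  have h5 : p (((s / p x) • x : E) : V) ≤ 1 := by
    rw [hF]
    intro z hz
    rw [map_smul, smul_eq_mul, div_mul_eq_mul_div, div_le_iff₀ hx]
    linarith [hs z hz]
  rw [h4] at h5
  linarith

/-- At a point `f`, in a direction `d`, a polyhedral norm is affine for a short time, hence given
by a supporting functional. -/
theorem poly_line (hp0 : ∀ x, p x = 0 → x = 0) (hpoly : IsPolyhedral p) (f d : V)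
    (hf : 0 < p f) : ∃ g : V →ₗ[ℝ] ℝ, (∀ x, g x ≤ p x) ∧ g f = p f ∧
      ∃ t : ℝ, 0 < t ∧ p (f + t • d) ≤ p f + t * g d := by
  classical
  set E : Submodule ℝ V := Submodule.span ℝ {f, d} with hE
  have hfin : FiniteDimensional ℝ E := FiniteDimensional.span_of_finite ℝ (by simp)
  obtain ⟨F, hF⟩ := hpoly E hfin
  have hfE : f ∈ E := Submodule.subset_span (by simp)
  have hdE : d ∈ E := Submodule.subset_span (by simp)
  let f' : E := ⟨f, hfE⟩
  let d' : E := ⟨d, hdE⟩
  let t : ℕ → ℝ := fun n => 1 / ((n : ℝ) + 1)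
  have ht : Tendsto t atTop (𝓝 0) := tendsto_one_div_add_atTop_nhds_zero_nat
  have ht0 : ∀ n, 0 < t n := fun n => by
    show 0 < 1 / ((n : ℝ) + 1)
    positivity
  let x : ℕ → E := fun n => f' + t n • d'
  have hxc : ∀ n, (x n : V) = f + t n • d := fun n => rfl
  have hpx : Tendsto (fun n => p (x n : V)) atTop (𝓝 (p f)) := by
    rw [tendsto_iff_dist_tendsto_zero]
    refine squeeze_zero (fun _ => dist_nonneg) (g := fun n => t n * p d) (fun n => ?_) ?_
    · rw [Real.dist_eq]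
      have h1 := abs_sub_map_le_sub p (x n : V) f
      refine h1.trans ?_
      rw [hxc, add_sub_cancel_left, map_smul_eq_mul, Real.norm_of_nonneg (ht0 n).le]
    · simpa using ht.mul_const (p d)
  have h1 : ∀ᶠ n in atTop, ∃ z ∈ F, 0 < z.2 ∧ z.1 (x n) = z.2 * p (x n) := by
    filter_upwards [hpx.eventually_const_lt hf] with n hn
    exact attain hF hn
  have h2 : ∃ z ∈ F, ∃ᶠ n in atTop, 0 < z.2 ∧ z.1 (x n) = z.2 * p (x n) := by
    by_contra hcon
    push Not at hcon
    have h3 : ∀ᶠ n in atTop, ∀ z ∈ F, ¬ (0 < z.2 ∧ z.1 (x n) = z.2 * p (x n)) := by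
      rw [Filter.eventually_all_finset]
      intro z hz
      exact (hcon z hz).mono fun n hn h => hn h.1 h.2
    obtain ⟨n, ⟨z, hz, h4⟩, h5⟩ := (h1.and h3).exists
    exact h5 z hz h4
  obtain ⟨z, hz, hfreq⟩ := h2
  have hz2 : 0 < z.2 := by
    obtain ⟨n, hn, _⟩ := hfreq.exists
    exact hn
  -- normalise
  let ψ : Module.Dual ℝ E := (z.2)⁻¹ • z.1
  have hψ : ∀ y : E, ψ y = (z.2)⁻¹ * z.1 y := fun y => rfl
  have hψp : ∀ y : E, ψ y ≤ p y := by
    intro y
    rcases (apply_nonneg p (y : V)).eq_or_lt with h3 | h3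
    · have h4 : (y : V) = 0 := hp0 _ h3.symm
      have h5 : y = 0 := Subtype.ext h4
      rw [h5]; simp
    · have h4 : p ((p y)⁻¹ • y : E) ≤ 1 := by
        rw [Submodule.coe_smul, map_smul_eq_mul, Real.norm_of_nonneg (inv_nonneg.2 h3.le),
          inv_mul_cancel₀ h3.ne']
      have h5 := (hF _).1 h4 z hz
      rw [map_smul, smul_eq_mul, inv_mul_le_iff₀ h3] at h5
      rw [hψ, inv_mul_le_iff₀ hz2]
      linarith
  have hψx : ∃ᶠ n in atTop, ψ f' + t n * ψ d' = p (x n) := by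
    refine hfreq.mono ?_
    rintro n ⟨-, hn⟩
    have h3 : ψ (x n) = p (x n) := by
      rw [hψ, hn, inv_mul_cancel_left₀ hz2.ne']
    rw [← h3]
    show _ = ψ (f' + t n • d')
    rw [map_add, map_smul, smul_eq_mul]
  have hψf : ψ f' = p f := by
    have h3 : Tendsto (fun n => ψ f' + t n * ψ d') atTop (𝓝 (ψ f' + 0 * ψ d')) :=
      (ht.mul_const _).const_add _
    rw [zero_mul, add_zero] at h3
    exact tendsto_nhds_unique_of_frequently_eq h3 hpx hψx
  obtain ⟨g, hg1, hg2⟩ := exists_extension_of_le_sublinear (⟨E, ψ⟩ : V →ₗ.[ℝ] ℝ) p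
    (fun c hc x => by rw [map_smul_eq_mul, Real.norm_of_nonneg hc.le])
    (fun x y => map_add_le_add p x y) (fun y => hψp y)
  have hgf : g f = p f := by
    have := hg1 f'
    rw [show g f = g (f' : V) from rfl, this]
    exact hψf
  have hgd : g d = ψ d' := hg1 d'
  obtain ⟨n, hn⟩ := hψx.exists
  refine ⟨g, hg2, hgf, t n, ht0 n, ?_⟩
  rw [← hxc, ← hn, hgd, hψf]

end Pool.Agent.Helper570
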