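import Pool.Agent.Helper570.Seq

set_option autoImplicit false

namespace Pool.Agent.Helper570.Tree

open Set Filter Topology

variable {p : Seminorm ℝ X} {C c : ℝ}

/-- The tree space has no equivalent strongly subdifferentiable norm. -/
theorem no_ssd (hc : 0 < c) (hC : 0 < C) (hp : ∀ x, p x ≤ C * ‖x‖) (hpl : ∀ x, c * ‖x‖ ≤ p x)
    (hssd : ∀ x : X, ∃ τ : X → ℝ, ∀ ε : ℝ, 0 < ε → ∃ δ : ℝ, 0 < δ ∧ ∀ t : ℝ, 0 < t → t < δ →
      ∀ h : X, p h = 1 → |(p (x + t • h) - p x) / t - τ h| ≤ ε) : False := by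
  obtain ⟨f, w, q, W, ho⟩ := exists_outcome hc hC.le hp hpl
  set ε : ℝ := c / 2 with hε
  have hε0 : 0 < ε := by positivity
  obtain ⟨τ, hτ⟩ := hssd f
  set κ : ℝ := ε / C with hκ
  have hκ0 : 0 < κ := by positivity
  obtain ⟨δ, hδ, hδ'⟩ := hτ (κ / 4) (by positivity)
  set t : ℝ := δ / 2 with ht
  have ht0 : 0 < t := by positivity
  have htδ : t < δ := by rw [ht]; linarith
  -- gap
  let h : ℕ → ℝ := fun n => ev w f - ev (q n).2 (q n).1
  have hh : ∀ n, 0 < h n := fun n => by
    have := ho.lt n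
    simp only [h]; linarith
  have hhlim : Tendsto h atTop (𝓝 0) := by
    have := ho.lim.const_sub (ev w f)
    simpa [h] using this
  -- directions
  let e : ℕ → X := fun n => ext (q n).1 (q n).2 w - f
  have he : ∀ n, ‖e n‖ ≤ h n := ho.near
  have hfe : ∀ n, p (f + e n) = p (q n).1 := by
    intro n
    show p (f + (ext (q n).1 (q n).2 w - f)) = _
    rw [add_sub_cancel, (ho.st n).const w (ho.le n)]
  have hsl : ∀ n, p (q n).1 + ε * h n ≤ p f := ho.slope
  have hρ0 : ∀ n, 0 < p (e n) := by
    intro n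
    rcases (apply_nonneg p (e n)).eq_or_lt with h0 | h0
    · exfalso
      have h1 : ‖e n‖ = 0 := by
        have := hpl (e n)
        rw [← h0] at this
        have h2 := norm_nonneg (e n)
        nlinarith
      have h2 : e n = 0 := norm_eq_zero.1 h1
      have h3 := hfe n
      rw [h2, add_zero] at h3
      have h4 := hsl n
      have h5 := mul_pos hε0 (hh n)
      linarith
    · exact h0
  let u : ℕ → X := fun n => (p (e n))⁻¹ • e n
  have hu1 : ∀ n, p (u n) = 1 := by
    intro n
    show p ((p (e n))⁻¹ • e n) = 1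
    rw [map_smul_eq_mul, Real.norm_of_nonneg (inv_nonneg.2 (hρ0 n).le),
      inv_mul_cancel₀ (hρ0 n).ne']
  have hρC : ∀ n, p (e n) ≤ C * h n := fun n =>
    (hp _).trans (mul_le_mul_of_nonneg_left (he n) hC.le)
  -- quotients for small times
  have hquot : ∀ n (s : ℝ), 0 < s → s ≤ p (e n) → p (f + s • u n) ≤ p f - s * κ := by
    intro n s hs0 hs1
    set l : ℝ := s / p (e n) with hl
    have hl0 : 0 ≤ l := div_nonneg hs0.le (hρ0 n).le
    have hl1 : l ≤ 1 := (div_le_one (hρ0 n)).2 hs1
    have h1 : f + s • u n = (1 - l) • f + l • (f + e n) := by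
      show f + s • ((p (e n))⁻¹ • e n) = _
      rw [hl, div_eq_mul_inv]
      module
    have h2 : p (f + s • u n) ≤ (1 - l) * p f + l * p (f + e n) := by
      rw [h1]
      refine (map_add_le_add p _ _).trans ?_
      rw [map_smul_eq_mul, map_smul_eq_mul, Real.norm_of_nonneg (by linarith),
        Real.norm_of_nonneg hl0]
    rw [hfe n] at h2
    have h3 : l * (p (q n).1 + ε * h n) ≤ l * p f := mul_le_mul_of_nonneg_left (hsl n) hl0
    have h4 : s * κ ≤ l * (ε * h n) := by
      rw [hl, hκ, div_mul_eq_mul_div, le_div_iff₀ (hρ0 n)]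
      have h5 : s * (ε / C) * p (e n) ≤ s * (ε / C) * (C * h n) :=
        mul_le_mul_of_nonneg_left (hρC n) (by positivity)
      refine h5.trans (le_of_eq ?_)
      field_simp
    nlinarith
  have hτu : ∀ n, τ (u n) ≤ -κ + κ / 4 := by
    intro n
    obtain ⟨s, hs0, hs1, hs2⟩ : ∃ s : ℝ, 0 < s ∧ s < δ ∧ s ≤ p (e n) :=
      ⟨min (δ / 2) (p (e n)), lt_min (by linarith) (hρ0 n),
        (min_le_left _ _).trans_lt (by linarith), min_le_right _ _⟩
    have h1 := hδ' s hs0 hs1 (u n) (hu1 n)
    have h2 := hquot n s hs0 hs2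
    have h3 : (p (f + s • u n) - p f) / s ≤ -κ := by
      rw [div_le_iff₀ hs0]
      linarith
    have h4 := (abs_le.1 h1).1
    linarith
  have hlow : ∀ n, p (f + t • u n) ≤ p f - t * (κ / 2) := by
    intro n
    have h1 := hδ' t ht0 htδ (u n) (hu1 n)
    have h2 := (abs_le.1 h1).2
    have h3 := hτu n
    have h4 : (p (f + t • u n) - p f) / t ≤ -(κ / 2) := by linarith
    rw [div_le_iff₀ ht0] at h4
    linarith
  have hup : ∀ n, p f - C * h n ≤ p (f + t • u n) := by
    intro n
    have h1 : Above (f - (q n).1 + t • u n) (q n).2 := by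
      intro s hs
      have ha := ho.above n s hs
      have hb : ev s (e n) = 0 := by
        show ev s (ext (q n).1 (q n).2 w - f) = 0
        rw [ev_sub] at ha ⊢
        rw [ev_ext_out (ho.le n) (fun h => hs h.1)]
        linarith
      show ev s (f - (q n).1 + t • ((p (e n))⁻¹ • e n)) = 0
      rw [ev_add, ha, ev_smul, ev_smul, hb]
      simp
    have h2 := (ho.st n).min _ h1
    have h3 : (q n).1 + (f - (q n).1 + t • u n) = f + t • u n := by module
    rw [h3] at h2
    have h4 : p f ≤ p (q n).1 + C * h n := by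
      have h5 := p_sub_le hp f (f + e n)
      rw [hfe n] at h5
      have h6 : ‖f - (f + e n)‖ = ‖e n‖ := by
        rw [sub_add_cancel_left, norm_neg]
      rw [h6] at h5
      have := mul_le_mul_of_nonneg_left (he n) hC.le
      linarith
    linarith
  have hfin : ∀ n, t * (κ / 2) ≤ C * h n := fun n => by
    have h1 := hlow n
    have h2 := hup n
    linarith
  have hlim : Tendsto (fun n => C * h n) atTop (𝓝 (C * 0)) := hhlim.const_mul C
  have h1 := ge_of_tendsto' hlim hfin
  have h2 : 0 < t * (κ / 2) := by positivity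
  linarith

end Pool.Agent.Helper570.Tree
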