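import Pool.Agent.Helper570.Master

set_option autoImplicit false

namespace Pool.Agent.Helper570.Tree

open Set Filter Topology

variable {p : Seminorm ℝ X} {C H ε c : ℝ}

theorem thicken (hC : 0 ≤ C) (hp : ∀ x, p x ≤ C * ‖x‖) {q : X × Node} (hq : SP p H ε q)
    {W : Submodule ℝ X} (hqW : q.1 ∈ W) (hW : TopologicalSpace.IsSeparable (W : Set X))
    (hE : ∀ F ∈ W, End F q.2) :
    ∃ (u : Node) (W' : Submodule ℝ X), q.2 ≤ u ∧ SP p H ε (ext q.1 q.2 u, u) ∧
      ext q.1 q.2 u ∈ W' ∧ TopologicalSpace.IsSeparable (W' : Set X) ∧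
      (∀ F ∈ W', St p F u) ∧ ∀ F ∈ W, ext F q.2 u ∈ W' := by
  obtain ⟨u, h1, h2⟩ := st_exists_sep (p := p) hC hp hW hE
  refine ⟨u, W.map (extL q.2 u).toLinearMap, h1, hq.ext h1, ⟨q.1, hqW, rfl⟩, ?_, ?_, ?_⟩
  · have h3 := hW.image (extL q.2 u).continuous
    rw [Submodule.map_coe]
    exact h3
  · rintro _ ⟨F, hF, rfl⟩
    exact h2 F hF
  · intro F hF
    exact ⟨F, hF, rfl⟩

/-- invariant of the construction -/
structure Inv (p : Seminorm ℝ X) (C H ε : ℝ) (n : ℕ) (s : (X × Node) × Submodule ℝ X) : Prop where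
  sp : SP p H ε s.1
  mem : s.1.1 ∈ s.2
  sep : TopologicalSpace.IsSeparable (s.2 : Set X)
  st : ∀ F ∈ s.2, St p F s.1.2
  bound : p s.1.1 ≤ C * (2 - (1 / 2) ^ n) + ε * ev s.1.2 s.1.1

/-- relation between consecutive states -/
structure Nxt (p : Seminorm ℝ X) (C ε : ℝ) (n : ℕ) (s s' : (X × Node) × Submodule ℝ X) : Prop where
  rel : Rel p (C + ε) s.1 s'.1
  up : ev s.1.2 s.1.1 + (1 / 2) ^ (n + 1) ≤ ev s'.1.2 s'.1.1
  tr : ∀ F ∈ s.2, ext F s.1.2 s'.1.2 ∈ s'.2

theorem isSeparable_sup_span {W : Submodule ℝ X} (hW : TopologicalSpace.IsSeparable (W : Set X))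
    (g : X) : TopologicalSpace.IsSeparable ((W ⊔ Submodule.span ℝ {g} : Submodule ℝ X) : Set X) := by
  have h1 : W ⊔ Submodule.span ℝ {g} = Submodule.span ℝ ((W : Set X) ∪ {g}) := by
    rw [Submodule.span_union, Submodule.span_eq]
  rw [h1]
  exact (hW.union (Set.countable_singleton g).isSeparable).span

theorem step (hc : 0 < c) (hC : 0 ≤ C) (hp : ∀ x, p x ≤ C * ‖x‖) (hpl : ∀ x, c * ‖x‖ ≤ p x)
    (hε : ε = c / 2) (hH : H = 4 * C / c + 1) (n : ℕ) (s : (X × Node) × Submodule ℝ X)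
    (hs : Inv p C H ε n s) : ∃ s', Inv p C H ε (n + 1) s' ∧ Nxt p C ε n s s' := by
  obtain ⟨⟨q, W⟩, rfl⟩ : ∃ t : (X × Node) × Submodule ℝ X, t = s := ⟨s, rfl⟩
  have hsp := hs.sp
  have hbound := hs.bound
  simp only at hsp hbound
  have hpow : (0 : ℝ) < (1 / 2) ^ (n + 1) := by positivity
  have hpow1 : (1 / 2 : ℝ) ^ (n + 1) ≤ 1 := pow_le_one₀ (by norm_num) (by norm_num)
  have hpown : (0 : ℝ) < (1 / 2) ^ n := by positivity
  -- value bound
  have hval : ev q.2 q.1 ≤ 4 * C / c := by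
    rw [le_div_iff₀ hc]
    have h1 : c * ev q.2 q.1 ≤ p q.1 :=
      (mul_le_mul_of_nonneg_left ((le_abs_self _).trans (abs_ev_le _ _)) hc.le).trans (hpl _)
    have h2 : 0 < ev q.2 q.1 := hsp.good.pos
    rw [hε] at hbound
    nlinarith
  obtain ⟨a, ha1, ha2, ha3⟩ := jump hC hp hsp.good hpow (by rw [hH]; linarith)
  obtain ⟨b, hb1, hb2⟩ := reach (ε := ε) hC hp ha1
  have hqb : q.2 ≤ b.2 := ha2.le.trans hb2.le
  have hε0 : 0 ≤ ε := by rw [hε]; positivity
  -- new submodule before thickening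
  set W0 : Submodule ℝ X := W.map (extL q.2 b.2).toLinearMap ⊔ Submodule.span ℝ {b.1} with hW0
  have hW0sep : TopologicalSpace.IsSeparable (W0 : Set X) := by
    apply isSeparable_sup_span
    have h3 := hs.sep.image (extL q.2 b.2).continuous
    rw [Submodule.map_coe]
    exact h3
  have hW0end : ∀ F ∈ W0, End F b.2 := by
    intro F hF
    obtain ⟨y, hy, z, hz, rfl⟩ := Submodule.mem_sup.1 hF
    obtain ⟨F', hF', rfl⟩ := hy
    obtain ⟨r, rfl⟩ := Submodule.mem_span_singleton.1 hz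
    intro s hs'
    have h1 : ev s (ext F' q.2 b.2) = 0 := End_ext (hs.st F' hF').fin hqb s hs'
    have h2 : ev s b.1 = 0 := hb1.good.st.fin s hs'
    show ev s (ext F' q.2 b.2 + r • b.1) = 0
    rw [ev_add, ev_smul, h1, h2]; simp
  have hbW0 : b.1 ∈ W0 := Submodule.mem_sup_right (Submodule.mem_span_singleton_self _)
  obtain ⟨u, W', h1, h2, h3, h4, h5, h6⟩ := thicken hC hp hb1 hbW0 hW0sep hW0end
  have hevu : ev u (ext b.1 b.2 u) = ev b.2 b.1 := ev_ext_top hb1.good.st.fin h1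
  have hbq : ev q.2 q.1 + (1 / 2) ^ (n + 1) ≤ ev b.2 b.1 := by
    have := hb2.val
    rw [ha3] at this
    exact this
  refine ⟨((ext b.1 b.2 u, u), W'), ⟨h2, h3, h4, h5, ?_⟩, ⟨?_, ?_, ?_⟩⟩
  · show p (ext b.1 b.2 u) ≤ C * (2 - (1 / 2) ^ (n + 1)) + ε * ev u (ext b.1 b.2 u)
    rw [hevu, hb1.good.st.const u h1]
    have e1 := hb2.cost
    have e2 := ha2.cost
    rw [ha3] at e1 e2
    have e3 : (1 / 2 : ℝ) ^ n = 2 * (1 / 2) ^ (n + 1) := by rw [pow_succ]; ring
    rw [e3] at hbound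
    have e4 : 0 ≤ ε * (1 / 2) ^ (n + 1) := by positivity
    nlinarith
  · have r1 : Rel p (C + ε) q a := by
      refine ⟨ha2.le, ha2.out, ha2.low, ha2.upp, ha2.val, ?_⟩
      have e1 := ha2.cost
      have e2 := ha2.val
      nlinarith
    have r2 : Rel p (C + ε) a b := by
      refine ⟨hb2.le, hb2.out, hb2.low, hb2.upp, hb2.val, ?_⟩
      have e1 := hb2.cost
      have e2 := hb2.val
      nlinarith
    exact (r1.trans r2).trans (hb1.good.rel_ext h1)
  · show ev q.2 q.1 + (1 / 2) ^ (n + 1) ≤ ev u (ext b.1 b.2 u)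
    rw [hevu]; exact hbq
  · intro F hF
    show ext F q.2 u ∈ W'
    have h7 : ext F q.2 b.2 ∈ W0 := Submodule.mem_sup_left ⟨F, hF, rfl⟩
    have h8 := h6 _ h7
    rwa [ext_ext (hs.st F hF).fin hqb] at h8

theorem start (hc : 0 < c) (hC : 0 ≤ C) (hp : ∀ x, p x ≤ C * ‖x‖)
    (hε : ε = c / 2) (hH : H = 4 * C / c + 1) : ∃ s, Inv p C H ε 0 s := by
  obtain ⟨b0⟩ : Nonempty W := inferInstance
  let t0 : Node := ⟨b0, fun _ => 0, fun _ _ => rfl⟩
  have hend : End (chi t0) t0 := fun s hs => ev_chi_not (not_le_of_gt hs)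
  obtain ⟨t1, ht1, hst⟩ := st_exists (p := p) hC hp hend
  have hext : ext (chi t0) t0 t1 = chi t1 := by
    unfold ext
    rw [ev_chi_le le_rfl]
    module
  rw [hext] at hst
  have hH1 : 1 ≤ H := by
    rw [hH]
    have : 0 ≤ 4 * C / c := by positivity
    linarith
  have hv : ev t1 (chi t1) = 1 := ev_chi_le le_rfl
  have hgood : GoodS p H (chi t1, t1) := ⟨hst, by
    show 0 < ev t1 (chi t1)
    rw [hv]; exact one_pos, by
    show ev t1 (chi t1) ≤ H
    rw [hv]; exact hH1⟩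
  obtain ⟨b, hb1, hb2⟩ := reach (ε := ε) hC hp hgood
  obtain ⟨u, W', h1, h2, h3, h4, h5, h6⟩ := thicken hC hp hb1
    (W := Submodule.span ℝ {b.1}) (Submodule.mem_span_singleton_self _)
    (Set.countable_singleton b.1).isSeparable.span (by
      intro F hF
      obtain ⟨r, rfl⟩ := Submodule.mem_span_singleton.1 hF
      intro s hs
      rw [ev_smul, hb1.good.st.fin s hs, mul_zero])
  refine ⟨((ext b.1 b.2 u, u), W'), ⟨h2, h3, h4, h5, ?_⟩⟩
  show p (ext b.1 b.2 u) ≤ C * (2 - (1 / 2) ^ 0) + ε * ev u (ext b.1 b.2 u)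
  rw [ev_ext_top hb1.good.st.fin h1, hb1.good.st.const u h1]
  have e1 := hb2.cost
  have e2 : p (chi t1) ≤ C := (hp _).trans (by
    have := norm_chi_le t1
    nlinarith)
  have e3 : ev t1 (chi t1) = 1 := hv
  simp only [e3] at e1
  have hε0 : 0 < ε := by rw [hε]; positivity
  rw [pow_zero]
  linarith

/-- The outcome of the construction. -/
structure Outcome (p : Seminorm ℝ X) (ε : ℝ) (f : X) (w : Node) (q : ℕ → X × Node)
    (W : ℕ → Submodule ℝ X) : Prop where
  st : ∀ n, St p (q n).1 (q n).2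
  le : ∀ n, (q n).2 ≤ w
  above : ∀ n, Above (f - (q n).1) (q n).2
  lt : ∀ n, ev (q n).2 (q n).1 < ev w f
  lim : Tendsto (fun n => ev (q n).2 (q n).1) atTop (𝓝 (ev w f))
  near : ∀ n, ‖ext (q n).1 (q n).2 w - f‖ ≤ ev w f - ev (q n).2 (q n).1
  slope : ∀ n, p (q n).1 + ε * (ev w f - ev (q n).2 (q n).1) ≤ p f
  mono : ∀ n m, n ≤ m → (q n).2 ≤ (q m).2
  stW : ∀ n, ∀ F ∈ W n, St p F (q n).2
  memW : ∀ n m, n ≤ m → ext (q n).1 (q n).2 (q m).2 ∈ W m
  fin : End f w

theorem exists_outcome (hc : 0 < c) (hC : 0 ≤ C) (hp : ∀ x, p x ≤ C * ‖x‖)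
    (hpl : ∀ x, c * ‖x‖ ≤ p x) : ∃ (f : X) (w : Node) (q : ℕ → X × Node)
      (W : ℕ → Submodule ℝ X), Outcome p (c / 2) f w q W := by
  classical
  set ε := c / 2 with hε
  set H := 4 * C / c + 1 with hH
  obtain ⟨s0, hs0⟩ := start (p := p) hc hC hp hε hH
  have hstep : ∀ (n : ℕ) (s : (X × Node) × Submodule ℝ X),
      ∃ s', Inv p C H ε n s → (Inv p C H ε (n + 1) s' ∧ Nxt p C ε n s s') := by
    intro n s
    by_cases h : Inv p C H ε n s
    · obtain ⟨s', h'⟩ := step hc hC hp hpl hε hH n s h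
      exact ⟨s', fun _ => h'⟩
    · exact ⟨s, fun h' => absurd h' h⟩
  choose nxt hnxt using hstep
  let s : ℕ → (X × Node) × Submodule ℝ X := fun n => Nat.rec s0 (fun k t => nxt k t) n
  have hsn : ∀ n, s (n + 1) = nxt n (s n) := fun n => rfl
  have hinv : ∀ n, Inv p C H ε n (s n) := by
    intro n
    induction n with
    | zero => exact hs0
    | succ n ih => rw [hsn]; exact (hnxt n (s n) ih).1
  have hnx : ∀ n, Nxt p C ε n (s n) (s (n + 1)) := by
    intro n
    rw [hsn]; exact (hnxt n (s n) (hinv n)).2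
  obtain ⟨a, ha1, ha2, ha3⟩ := climb_sigma' (p := p) (ε := C + ε) hC hp (fun n => (s n).1)
    (fun n => (hinv n).sp.good) (fun n => (hnx n).rel)
  have hmono : ∀ n m, n ≤ m → (s n).1.2 ≤ (s m).1.2 := by
    intro n m hnm
    induction m, hnm using Nat.le_induction with
    | base => exact le_rfl
    | succ m _ ih => exact ih.trans (hnx m).rel.le
  refine ⟨a.1, a.2, fun n => (s n).1, fun n => (s n).2, ?_⟩
  refine
    { st := fun n => (hinv n).sp.good.st
      le := fun n => (ha2 n).le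
      above := fun n => above_of_out (ha2 n).out
      lt := ?_
      lim := ha3
      near := ?_
      slope := fun n => (hinv n).sp.slope _ a ha1 (ha2 n)
      mono := hmono
      stW := fun n => (hinv n).st
      memW := ?_
      fin := ha1.st.fin }
  · intro n
    have h1 := (hnx n).up
    have h2 := (ha2 (n + 1)).val
    have h3 : (0 : ℝ) < (1 / 2) ^ (n + 1) := by positivity
    linarith
  · intro n
    have h1 := norm_ext_sub (w := a.2) (hinv n).sp.good.st.fin ha1.st.fin (ha2 n) le_rfl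
    rw [ext_self, norm_sub_rev] at h1
    exact h1
  · intro n m hnm
    induction m, hnm using Nat.le_induction with
    | base => rw [ext_self]; exact (hinv n).mem
    | succ m hm ih =>
      have h1 := (hnx m).tr _ ih
      rwa [ext_ext (hinv n).sp.good.st.fin (hmono n m hm)] at h1

end Pool.Agent.Helper570.Tree
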