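import Pool.Agent.Helper570.Space

set_option autoImplicit false

namespace Pool.Agent.Helper570.Tree

open Set Filter Topology

variable {p : Seminorm ℝ X} {R C : ℝ}

theorem Above_zero (t : Node) : Above (0 : X) t := fun _ _ => map_zero _

theorem stab_exists (hC : 0 ≤ C) (hp : ∀ x, p x ≤ C * ‖x‖) {f : X} {t : Node} (hf : End f t)
    (hR : |ev t f| ≤ R) : ∃ u, t ≤ u ∧ Stab p R (ext f t u) u := by
  classical
  have hR0 : 0 ≤ R := (abs_nonneg _).trans hR
  let A : Node → Set ℝ := fun u => {x | ∃ φ : X, Above φ u ∧ ‖φ‖ ≤ R ∧ x = p (ext f t u + φ)}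
  have hbd : ∀ u, BddBelow (A u) := fun u => ⟨0, by rintro x ⟨φ, _, _, rfl⟩; exact apply_nonneg p _⟩
  have hne : ∀ u, (A u).Nonempty := fun u => ⟨p (ext f t u + 0), 0, Above_zero u, by simpa using hR0, rfl⟩
  let a : Node → ℝ := fun u => sInf (A u)
  have hale : ∀ u (φ : X), Above φ u → ‖φ‖ ≤ R → a u ≤ p (ext f t u + φ) := fun u φ h1 h2 =>
    csInf_le (hbd u) ⟨φ, h1, h2, rfl⟩
  have hmono : ∀ u v, t ≤ u → u ≤ v → a u ≤ a v := by
    intro u v htu huv
    apply le_csInf (hne v)
    rintro x ⟨φ, h1, h2, rfl⟩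
    have h3 : ext f t v + φ = ext f t u + ((ev t f) • (chi v - chi u) + φ) := by
      unfold ext; module
    rw [h3]
    exact hale u _ (Above_const huv h1 _) (norm_const_add_le huv h1 hR h2)
  have hbound : ∀ u, t ≤ u → a u ≤ C * (‖f‖ + R) := by
    intro u htu
    have h1 := hale u 0 (Above_zero u) (by simpa using hR0)
    rw [add_zero] at h1
    refine h1.trans ((hp _).trans ?_)
    apply mul_le_mul_of_nonneg_left _ hC
    unfold ext
    refine (norm_add_le _ _).trans ?_
    gcongr
    rw [norm_smul]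
    calc ‖ev t f‖ * ‖chi u - chi t‖ ≤ R * 1 := by
          apply mul_le_mul hR (norm_chi_sub_le htu) (norm_nonneg _) hR0
      _ = R := mul_one _
  obtain ⟨⟨u, htu⟩, -, hu⟩ := mono_principle (Q := {u : Node // t ≤ u}) (fun a b => a.1 ≤ b.1)
    (fun a => le_rfl) (fun a b c => le_trans)
    (fun s hs => by
      obtain ⟨w, hw⟩ := exists_ub_node (fun n => (s n).1) hs
      exact ⟨⟨w, (s 0).2.trans (hw 0)⟩, hw⟩)
    (fun u => a u.1) (C * (‖f‖ + R)) (fun x y h => hmono x.1 y.1 x.2 h)
    (fun x => hbound x.1 x.2) ⟨t, le_rfl⟩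
  have hu' : ∀ v, u ≤ v → a v = a u := fun v hv => hu ⟨v, htu.trans hv⟩ hv
  -- the averaging argument
  have key : ∀ v, u ≤ v → p (ext f t v) ≤ a u := by
    intro v huv
    have htv : t ≤ v := htu.trans huv
    apply le_of_forall_pos_le_add
    intro ε hε
    obtain ⟨n, hn⟩ := exists_nat_gt (C * R / (ε / 2))
    have hn0 : (0 : ℝ) < n := lt_of_le_of_lt (by positivity) hn
    have hφ : ∀ i : ℕ, ∃ φ : X, Above φ (child v i) ∧ ‖φ‖ ≤ R ∧
        p (ext f t (child v i) + φ) < a u + ε / 2 := by
      intro i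
      have h1 : a (child v i) < a u + ε / 2 := by
        rw [hu' _ (huv.trans (lt_child v i).le)]; linarith
      obtain ⟨x, ⟨φ, h2, h3, rfl⟩, h4⟩ := exists_lt_of_csInf_lt (hne _) h1
      exact ⟨φ, h2, h3, h4⟩
    choose φ hφ1 hφ2 hφ3 using hφ
    let ψ : ℕ → X := fun i => (ev t f) • (chi (child v i) - chi v) + φ i
    have hψ0 : ∀ i s, ¬ child v i ≤ s → ev s (ψ i) = 0 := by
      intro i s hs
      show ev s ((ev t f) • (chi (child v i) - chi v) + φ i) = 0
      rw [ev_add, ev_smul, hφ1 i s (fun h => hs h.le), ev_chi_sub_zero (lt_child v i).le]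
      · simp
      · rintro ⟨h1, h2⟩
        exact hs (eq_child h2 (not_le_of_gt h1)).ge
    have hψR : ∀ i, ‖ψ i‖ ≤ R := fun i =>
      norm_const_add_le (lt_child v i).le (hφ1 i) hR (hφ2 i)
    have hsum : ‖∑ i ∈ Finset.range n, ψ i‖ ≤ R := by
      apply norm_le_of hR0
      intro s
      rw [map_sum]
      by_cases h : ∃ i, child v i ≤ s
      · obtain ⟨i, hi⟩ := h
        by_cases hin : i ∈ Finset.range n
        · rw [Finset.sum_eq_single_of_mem i hin]
          · exact (abs_ev_le s _).trans (hψR i)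
          · intro j _ hji
            apply hψ0
            intro hj
            exact hji (child_inj hj hi)
        · rw [Finset.sum_eq_zero]
          · simpa using hR0
          · intro j hj
            apply hψ0
            intro hj'
            rw [child_inj hj' hi] at hj
            exact hin hj
      · push Not at h
        rw [Finset.sum_eq_zero (fun i _ => hψ0 i s (h i))]
        simpa using hR0
    have hterm : ∀ i, p (ext f t v + ψ i) < a u + ε / 2 := by
      intro i
      have h1 : ext f t v + ψ i = ext f t (child v i) + φ i := by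
        show ext f t v + ((ev t f) • (chi (child v i) - chi v) + φ i) = _
        unfold ext; module
      rw [h1]; exact hφ3 i
    have hid : (n : ℝ) • ext f t v = (∑ i ∈ Finset.range n, (ext f t v + ψ i)) -
        ∑ i ∈ Finset.range n, ψ i := by
      rw [Finset.sum_add_distrib, Finset.sum_const, Finset.card_range, add_sub_cancel_right]
      exact Nat.cast_smul_eq_nsmul ℝ n _
    have h1 : (n : ℝ) * p (ext f t v) ≤ n * (a u + ε / 2) + C * R := by
      have h2 : p ((n : ℝ) • ext f t v) = n * p (ext f t v) := by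
        rw [map_smul_eq_mul]; simp
      rw [← h2, hid]
      refine (map_sub_le_add p _ _).trans ?_
      apply add_le_add
      · refine (Finset.le_sum_of_subadditive p (map_zero p).le (map_add_le_add p) _ _).trans ?_
        have := Finset.sum_le_card_nsmul (Finset.range n) (fun i => p (ext f t v + ψ i))
          (a u + ε / 2) (fun i _ => (hterm i).le)
        simpa [mul_add] using this
      · exact (hp _).trans (mul_le_mul_of_nonneg_left hsum hC)
    have h2 : C * R ≤ n * (ε / 2) := by
      rw [div_lt_iff₀ (by positivity)] at hn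
      exact hn.le
    have h3 : (n : ℝ) * p (ext f t v) ≤ n * (a u + ε) := by
      calc (n : ℝ) * p (ext f t v) ≤ n * (a u + ε / 2) + C * R := h1
        _ ≤ n * (a u + ε / 2) + n * (ε / 2) := by linarith
        _ = n * (a u + ε) := by ring
    exact le_of_mul_le_mul_left h3 hn0
  have hale0 : ∀ v, u ≤ v → p (ext f t v) = a u := by
    intro v huv
    apply le_antisymm (key v huv)
    have h1 := hale v 0 (Above_zero v) (by simpa using hR0)
    rw [add_zero, hu' v huv] at h1
    exact h1
  refine ⟨u, htu, ?_, ?_⟩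
  · intro v huv
    rw [ext_ext hf htu, hale0 v huv, hale0 u le_rfl]
  · intro φ h1 h2
    rw [hale0 u le_rfl]
    exact hale u φ h1 h2

theorem ext_ev (f g : X) (t u : Node) : ext f t u - ext g t u = ext (f - g) t u := by
  unfold ext
  rw [ev_sub]
  module

theorem ext_add_smul {f : X} {s t u : Node} (c : ℝ) (hf : End f t) (hts : t < s) :
    ext (f + c • (chi s - chi t)) s u = f + c • (chi u - chi t) := by
  unfold ext
  rw [ev_add_smul_top c hf hts]
  module

/-- countable families -/
theorem stab_exists_countable (hC : 0 ≤ C) (hp : ∀ x, p x ≤ C * ‖x‖) {f : ℕ → X} {t : Node}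
    (hf : ∀ n, End (f n) t) (hR : ∀ n, |ev t (f n)| ≤ R) :
    ∃ u, t ≤ u ∧ ∀ n, Stab p R (ext (f n) t u) u := by
  obtain ⟨u, h1, h2⟩ := sigma_principle (fun n u => t ≤ u ∧ Stab p R (ext (f n) t u) u)
    (fun n s u hsu h => ⟨h.1.trans hsu, by
      have h3 := h.2.ext (End_ext (hf n) h.1) hsu (by rw [ev_ext_top (hf n) h.1]; exact hR n)
      rwa [ext_ext (hf n) h.1] at h3⟩) t
    (fun n s hs => by
      obtain ⟨u, h1, h2⟩ := stab_exists (p := p) (R := R) hC hp (End_ext (hf n) hs)
        (by rw [ev_ext_top (hf n) hs]; exact hR n)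
      refine ⟨u, h1, hs.trans h1, ?_⟩
      rwa [ext_ext (hf n) hs] at h2)
  exact ⟨u, h1, fun n => (h2 n).2⟩

theorem p_sub_le (hp : ∀ x, p x ≤ C * ‖x‖) (x y : X) : p x ≤ p y + C * ‖x - y‖ := by
  have h1 : p x ≤ p y + p (x - y) := by
    have := map_add_le_add p y (x - y)
    rwa [add_sub_cancel] at this
  exact h1.trans (by linarith [hp (x - y)])

theorem p_continuous (hC : 0 ≤ C) (hp : ∀ x, p x ≤ C * ‖x‖) : Continuous p := by
  have : LipschitzWith (Real.toNNReal C) p := by
    apply LipschitzWith.of_dist_le_mul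
    intro x y
    rw [Real.coe_toNNReal C hC, Real.dist_eq, dist_eq_norm, abs_sub_le_iff]
    have h1 := p_sub_le hp x y
    have h2 := p_sub_le hp y x
    rw [norm_sub_rev] at h2
    constructor <;> linarith
  exact this.continuous

/-- one step of the climb -/
theorem one_step (hC : 0 ≤ C) (hp : ∀ x, p x ≤ C * ‖x‖)
    (hd : ∀ x : X, x ≠ 0 → DifferentiableAt ℝ p x) {f : X} {t : Node} (hf : End f t)
    (hs : Stab p R f t) {H ε : ℝ} (h0 : 0 < ev t f) (hH : ev t f < H) (hHR : H < R) (hε : 0 < ε) :
    ∃ (u : Node) (c : ℝ), t < u ∧ ev t f < c ∧ c ≤ H ∧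
      Stab p R (f + c • (chi u - chi t)) u ∧
      p (f + c • (chi u - chi t)) ≤ p f + ε * (c - ev t f) := by
  set b := ev t f with hb
  let s := child t 0
  have hts : t < s := lt_child t 0
  let c : ℕ → ℝ := fun n => b + (H - b) / (n + 1)
  have hc1 : ∀ n, b < c n := fun n => by
    have : 0 < (H - b) / (n + 1 : ℝ) := div_pos (by linarith) (by positivity)
    simp only [c]; linarith
  have hc2 : ∀ n, c n ≤ H := fun n => by
    have : (H - b) / (n + 1 : ℝ) ≤ H - b := div_le_self (by linarith) (by
      have : (0 : ℝ) ≤ n := Nat.cast_nonneg n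
      linarith)
    simp only [c]; linarith
  obtain ⟨u, hsu, hu⟩ := stab_exists_countable (p := p) (R := R) hC hp
    (f := fun n => f + c n • (chi s - chi t)) (t := s)
    (fun n => End_add_smul _ hf hts.le)
    (fun n => by
      rw [ev_add_smul_top _ hf hts, abs_of_nonneg (by linarith [hc1 n])]
      linarith [hc2 n])
  have htu : t < u := hts.trans_le hsu
  set d : X := chi u - chi t with hdd
  let θ : ℝ → ℝ := fun τ => p (ext f t u + τ • d)
  have hextne : ext f t u ≠ 0 := by
    intro h
    have h1 := ev_ext_top hf htu.le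
    rw [h, map_zero] at h1
    linarith
  have hθd : DifferentiableAt ℝ θ 0 := by
    have h1 : DifferentiableAt ℝ (fun τ : ℝ => ext f t u + τ • d) 0 :=
      (differentiableAt_const _).add (differentiableAt_id.smul_const d)
    have h2 : DifferentiableAt ℝ p ((fun τ : ℝ => ext f t u + τ • d) 0) := by
      simpa using hd _ hextne
    exact h2.comp (0 : ℝ) h1
  have hmin : IsLocalMin θ 0 := by
    have h1 : ∀ᶠ τ : ℝ in 𝓝 0, |τ| < min b (R - b) := by
      have : (0 : ℝ) < min b (R - b) := lt_min h0 (by linarith)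
      filter_upwards [Metric.ball_mem_nhds (0 : ℝ) this] with τ hτ
      simpa [Real.dist_eq] using hτ
    filter_upwards [h1] with τ hτ
    have h2 : -b < τ := by
      have := (abs_lt.1 hτ).1
      have := min_le_left b (R - b)
      linarith
    have h3 : τ < R - b := lt_of_lt_of_le (abs_lt.1 hτ).2 (min_le_right _ _)
    have h4 : ext f t u + τ • d = f + ((b + τ) • (chi u - chi t) + 0) := by
      unfold ext; rw [← hb, hdd]; module
    show p (ext f t u + (0 : ℝ) • d) ≤ p (ext f t u + τ • d)
    rw [zero_smul, add_zero, hs.const u htu.le, h4]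
    apply hs.min
    · exact Above_const htu.le (Above_zero u) _
    · apply norm_const_add_le htu.le (Above_zero u)
      · rw [abs_of_nonneg (by linarith)]; linarith
      · rw [norm_zero]; linarith
  have hder : deriv θ 0 = 0 := hmin.deriv_eq_zero
  have hhas : HasDerivAt θ 0 0 := by
    have h1 := hθd.hasDerivAt
    rwa [hder] at h1
  have hlim : ∀ᶠ τ : ℝ in 𝓝 0, ‖θ (0 + τ) - θ 0 - τ • (0 : ℝ)‖ ≤ ε * ‖τ‖ :=
    (hasDerivAt_iff_isLittleO_nhds_zero.1 hhas).def hε
  have hseq : Tendsto (fun n : ℕ => (H - b) / ((n : ℝ) + 1)) atTop (𝓝 0) := by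
    have h1 := (tendsto_one_div_add_atTop_nhds_zero_nat (𝕜 := ℝ)).const_mul (H - b)
    rw [mul_zero] at h1
    refine h1.congr fun n => ?_
    ring
  obtain ⟨n, hn⟩ := (hseq.eventually hlim).exists
  refine ⟨u, c n, htu, hc1 n, hc2 n, ?_, ?_⟩
  · have h1 := hu n
    rwa [ext_add_smul _ hf hts] at h1
  · have h1 : θ 0 = p f := by
      show p (ext f t u + (0 : ℝ) • d) = p f
      rw [zero_smul, add_zero, hs.const u htu.le]
    have h2 : f + c n • d = ext f t u + ((H - b) / ((n : ℝ) + 1)) • d := by
      unfold ext; rw [← hb, hdd]; simp only [c]; module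
    rw [h2]
    rw [zero_add, h1, smul_zero, sub_zero] at hn
    have h3 : θ ((H - b) / ((n : ℝ) + 1)) - p f ≤ ε * ((H - b) / ((n : ℝ) + 1)) := by
      refine (le_abs_self _).trans (hn.trans ?_)
      rw [Real.norm_of_nonneg (div_nonneg (by linarith) (by positivity))]
    have h4 : c n - b = (H - b) / ((n : ℝ) + 1) := by simp only [c]; ring
    rw [h4]
    show θ ((H - b) / ((n : ℝ) + 1)) ≤ _
    linarith

end Pool.Agent.Helper570.Tree
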