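import Pool.Agent.Helper570.Tree

set_option autoImplicit false

namespace Pool.Agent.Helper570.Tree

open Set BoundedContinuousFunction

instance : TopologicalSpace Node := ⊥
instance : DiscreteTopology Node := ⟨rfl⟩

/-- Bounded functions on the tree. -/
abbrev B : Type := BoundedContinuousFunction Node ℝ

open Classical in
/-- The indicator function of the initial segment of `t`. -/
noncomputable def chiB (t : Node) : B :=
  BoundedContinuousFunction.ofNormedAddCommGroupDiscrete
    (fun s => if s ≤ t then (1 : ℝ) else 0) 1 (by intro s; split_ifs <;> simp)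

open Classical in
theorem chiB_apply (t s : Node) : chiB t s = if s ≤ t then (1 : ℝ) else 0 := rfl

/-- The closed linear span of the indicators of initial segments. -/
noncomputable def XS : Submodule ℝ B :=
  (Submodule.span ℝ (Set.range chiB)).topologicalClosure

/-- The Banach space. -/
def X : Type := ↥XS

noncomputable instance : NormedAddCommGroup X := inferInstanceAs (NormedAddCommGroup ↥XS)
noncomputable instance : NormedSpace ℝ X := inferInstanceAs (NormedSpace ℝ ↥XS)

instance : CompleteSpace X := by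
  have h : IsClosed (XS : Set B) := Submodule.isClosed_topologicalClosure _
  exact h.completeSpace_coe

/-- The inclusion of the space in the bounded functions. -/
noncomputable def inc : X →L[ℝ] B := XS.subtypeL

theorem inc_norm (f : X) : ‖inc f‖ = ‖f‖ := rfl

theorem inc_injective {f g : X} (h : inc f = inc g) : f = g := Subtype.ext h

noncomputable def chi (t : Node) : X :=
  ⟨chiB t, Submodule.le_topologicalClosure _ (Submodule.subset_span ⟨t, rfl⟩)⟩

theorem inc_chi (t : Node) : inc (chi t) = chiB t := rfl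

/-- Evaluation. -/
noncomputable def ev (s : Node) : X →L[ℝ] ℝ :=
  (BoundedContinuousFunction.evalCLM ℝ s).comp inc

theorem ev_def (s : Node) (f : X) : ev s f = inc f s := rfl

theorem ev_add (s : Node) (f g : X) : ev s (f + g) = ev s f + ev s g := map_add _ _ _

theorem ev_sub (s : Node) (f g : X) : ev s (f - g) = ev s f - ev s g := map_sub _ _ _

theorem ev_smul (s : Node) (c : ℝ) (f : X) : ev s (c • f) = c * ev s f := map_smul _ _ _

open Classical in
theorem ev_chi (s t : Node) : ev s (chi t) = if s ≤ t then (1 : ℝ) else 0 := rfl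

theorem ev_chi_le {s t : Node} (h : s ≤ t) : ev s (chi t) = 1 := by
  rw [ev_chi, if_pos h]

theorem ev_chi_not {s t : Node} (h : ¬ s ≤ t) : ev s (chi t) = 0 := by
  rw [ev_chi, if_neg h]

theorem abs_ev_le (s : Node) (f : X) : |ev s f| ≤ ‖f‖ :=
  BoundedContinuousFunction.norm_coe_le_norm (inc f) s

theorem norm_le_of {f : X} {C : ℝ} (hC : 0 ≤ C) (h : ∀ s, |ev s f| ≤ C) : ‖f‖ ≤ C :=
  (BoundedContinuousFunction.norm_le hC).2 h

theorem X_ext {f g : X} (h : ∀ s, ev s f = ev s g) : f = g := by
  apply inc_injective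
  ext s
  exact h s

theorem norm_chi_le (t : Node) : ‖chi t‖ ≤ 1 := by
  apply norm_le_of zero_le_one
  intro s
  rw [ev_chi]
  split_ifs <;> simp

/-- difference of indicators -/
theorem ev_chi_sub {s t u : Node} (h1 : t < s) (h2 : s ≤ u) :
    ev s (chi u - chi t) = 1 := by
  rw [ev_sub, ev_chi_le h2, ev_chi_not (not_le_of_gt h1), sub_zero]

theorem ev_chi_sub_zero {s t u : Node} (htu : t ≤ u) (h : ¬ (t < s ∧ s ≤ u)) :
    ev s (chi u - chi t) = 0 := by
  rw [ev_sub]
  by_cases hu : s ≤ u
  · have hs : s ≤ t := by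
      rcases comparable hu htu with h3 | h3
      · exact h3
      · by_contra hst
        exact h ⟨lt_of_le_not_ge h3 hst, hu⟩
    rw [ev_chi_le hu, ev_chi_le hs, sub_self]
  · have hs : ¬ s ≤ t := fun h3 => hu (h3.trans htu)
    rw [ev_chi_not hu, ev_chi_not hs, sub_self]

theorem norm_chi_sub_le {t u : Node} (htu : t ≤ u) : ‖chi u - chi t‖ ≤ 1 := by
  apply norm_le_of zero_le_one
  intro s
  by_cases h : t < s ∧ s ≤ u
  · rw [ev_chi_sub h.1 h.2]; simp
  · rw [ev_chi_sub_zero htu h]; simp

/-- `f` vanishes strictly above `t`. -/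
def End (f : X) (t : Node) : Prop := ∀ s, t < s → ev s f = 0

/-- `f` is supported strictly above `t`. -/
def Above (f : X) (t : Node) : Prop := ∀ s, ¬ t < s → ev s f = 0

/-- The extension of `f` by its value at `t` up to `u`. -/
noncomputable def ext (f : X) (t u : Node) : X := f + (ev t f) • (chi u - chi t)

theorem End_add_smul {f : X} {t u : Node} (c : ℝ) (hf : End f t) (htu : t ≤ u) :
    End (f + c • (chi u - chi t)) u := by
  intro s hs
  rw [ev_add, ev_smul, hf s (htu.trans_lt hs), ev_chi_sub_zero htu]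
  · simp
  · intro h; exact absurd h.2 (not_le_of_gt hs)

theorem End_ext {f : X} {t u : Node} (hf : End f t) (htu : t ≤ u) : End (ext f t u) u :=
  End_add_smul _ hf htu

theorem ext_self (f : X) (t : Node) : ext f t t = f := by
  rw [ext, sub_self, smul_zero, add_zero]

theorem ev_add_smul_top {f : X} {t u : Node} (c : ℝ) (hf : End f t) (htu : t < u) :
    ev u (f + c • (chi u - chi t)) = c := by
  rw [ev_add, ev_smul, hf u htu, ev_chi_sub htu le_rfl]
  simp

theorem ev_ext_top {f : X} {t u : Node} (hf : End f t) (htu : t ≤ u) :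
    ev u (ext f t u) = ev t f := by
  rcases eq_or_lt_of_le htu with h | h
  · subst h; rw [ext_self]
  · exact ev_add_smul_top _ hf h

theorem ext_ext {f : X} {t u v : Node} (hf : End f t) (htu : t ≤ u) :
    ext (ext f t u) u v = ext f t v := by
  have h := ev_ext_top hf htu
  unfold ext at h ⊢
  rw [h]
  module

/-- Stability of `(f, t)` at radius `R` with respect to a seminorm. -/
structure Stab (p : Seminorm ℝ X) (R : ℝ) (f : X) (t : Node) : Prop where
  const : ∀ u, t ≤ u → p (ext f t u) = p f
  min : ∀ φ : X, Above φ t → ‖φ‖ ≤ R → p f ≤ p (f + φ)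

variable {p : Seminorm ℝ X} {R : ℝ}

theorem Above_const {t u : Node} (htu : t ≤ u) {φ : X} (hφ : Above φ u) (c : ℝ) :
    Above (c • (chi u - chi t) + φ) t := by
  intro s hs
  rw [ev_add, ev_smul, hφ s (fun h => hs (htu.trans_lt h)), ev_chi_sub_zero htu]
  · simp
  · intro h; exact hs h.1

theorem norm_const_add_le {t u : Node} (htu : t ≤ u) {φ : X} (hφ : Above φ u) {c : ℝ}
    (hc : |c| ≤ R) (hR : ‖φ‖ ≤ R) : ‖c • (chi u - chi t) + φ‖ ≤ R := by
  apply norm_le_of ((abs_nonneg c).trans hc)
  intro s
  rw [ev_add, ev_smul]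
  by_cases h : t < s ∧ s ≤ u
  · rw [ev_chi_sub h.1 h.2, hφ s (not_lt_of_ge h.2)]
    simpa using hc
  · rw [ev_chi_sub_zero htu h]
    simpa using (abs_ev_le s φ).trans hR

theorem Stab.ext {f : X} {t u : Node} (hs : Stab p R f t) (hf : End f t) (htu : t ≤ u)
    (hR : |ev t f| ≤ R) : Stab p R (ext f t u) u := by
  constructor
  · intro v huv
    rw [ext_ext hf htu, hs.const v (htu.trans huv), hs.const u htu]
  · intro φ hφ hφR
    rw [hs.const u htu]
    unfold Tree.ext
    rw [add_assoc]
    exact hs.min _ (Above_const htu hφ _) (norm_const_add_le htu hφ hR hφR)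

end Pool.Agent.Helper570.Tree
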